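import Pool.Agent.PB.Outs
import Pool.Agent.PB.Basic

/-!
# PB / Mix / FunW: (6.0, 6.2) `Wf R g w` is a large scale functional
Plan. Let `c' = c (1 + 3 c0 (2R+1)^d)` (or any larger constant; also `≥ 1`).
* `bd`: finite cluster: `|Y| ≤ c0 N` (each `Lb0 R O x` is finite and contains 0), so `IsW.bd`; infinite cluster: `Nc = 0`, `Yf = 0`, `IsW.zero`.
* `transl`: `Cl (shE z O) (y+z) = (· + z) '' Cl O y` (`Rch` under `Sym2.map` of an injective map, both directions with `-z`),
  `Lb0 R (shE z O) (x+z) = Lb0 R O x`; `Nc` is invariant (`Set.ncard_image_of_injective`), `Yf` by reindexing the sum.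
* `loc`: `O`, `O'` agree on the edges touching `Cl O y` ⟹ `Cl O' y = Cl O y` and for `x ∈ Cl O y`: `Lb R O' x = Lb R O x`
  (all edges on paths from `x` touch the cluster).
* `cut`: `K = Cl (del1 O e) y`, `e = s(u,v)`, `u ∈ K`, `v ∉ K`, `Z = Cl ((ofSet K).rem O) v`. Then `Cl O y = K ∪ Z` disjoint, so `N - N' = |K|`;
  for `x ∈ Z` with `bx R x ∩ K = ∅`: `Lb R O x = Lb R ((ofSet K).rem O) x`. The number of `x` with `bx R x ∩ K ≠ ∅` is `≤ |K| (2R+1)^d`
  (`x ∈ ⋃_{k∈K} bx R k`). So `|Y - Y'| ≤ c0 |K| + 2 c0 |K| (2R+1)^d`; apply `IsW.lip` (`|Y| ≤ c0 N`, `|Y'| ≤ c0 N'`).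
-/

set_option autoImplicit false
open MeasureTheory Filter Topology
open scoped ENNReal BigOperators

namespace Pool.Agent.PB

variable {d : ℕ}

/-- membership in a translated edge set -/
theorem fw_mem_shE {z : V d} {O : Set (Sym2 (V d))} {a b : V d} :
    s(a, b) ∈ shE z O ↔ s(a - z, b - z) ∈ O := by
  constructor
  · rintro ⟨e, he, hm⟩
    induction e using Sym2.ind with
    | _ x y =>
      rw [Sym2.map_mk] at hm
      have hm' : s(x + z, y + z) = s(a, b) := hm
      rcases Sym2.eq_iff.1 hm' with ⟨h1, h2⟩ | ⟨h1, h2⟩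
      · rw [← h1, ← h2, add_sub_cancel_right, add_sub_cancel_right]
        exact he
      · rw [← h1, ← h2, add_sub_cancel_right, add_sub_cancel_right, Sym2.eq_swap]
        exact he
  · intro h
    refine ⟨s(a - z, b - z), h, ?_⟩
    rw [Sym2.map_mk]
    simp

theorem fw_Rch_shE_of {z : V d} {O : Set (Sym2 (V d))} {x w : V d} (h : Rch O x w) :
    Rch (shE z O) (x + z) (w + z) := by
  refine Rch.induct (P := fun w => Rch (shE z O) (x + z) (w + z)) (Rch.refl _ _) ?_ h
  intro a b _ hab ha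
  refine ha.tail ?_
  rw [fw_mem_shE, add_sub_cancel_right, add_sub_cancel_right]
  exact hab

theorem fw_Rch_of_shE {z : V d} {O : Set (Sym2 (V d))} {x w : V d} (h : Rch (shE z O) (x + z) w) :
    Rch O x (w - z) := by
  refine Rch.induct (P := fun w => Rch O x (w - z)) ?_ ?_ h
  · show Rch O x (x + z - z)
    rw [add_sub_cancel_right]
    exact Rch.refl _ _
  · intro a b _ hab ha
    exact ha.tail (fw_mem_shE.1 hab)

theorem Cl_shE (z : V d) (O : Set (Sym2 (V d))) (y : V d) :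
    Cl (shE z O) (y + z) = (fun x => x + z) '' Cl O y := by
  ext w
  constructor
  · intro h
    exact ⟨w - z, fw_Rch_of_shE h, sub_add_cancel w z⟩
  · rintro ⟨x, hx, rfl⟩
    exact fw_Rch_shE_of hx

theorem fw_mem_bx_add {R : ℕ} {x z w : V d} : w ∈ bx R (x + z) ↔ w - z ∈ bx R x := by
  have h : ∀ i, w i - (x + z) i = (w - z) i - x i := fun i => by
    simp only [Pi.add_apply, Pi.sub_apply]; ring
  constructor
  · intro hw i
    rw [← h i]; exact hw i
  · intro hw i
    rw [h i]; exact hw i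

theorem fw_shE_inter_ins (R : ℕ) (z : V d) (O : Set (Sym2 (V d))) (x : V d) :
    shE z O ∩ ins (bx R (x + z)) = shE z (O ∩ ins (bx R x)) := by
  ext e
  induction e using Sym2.ind with
  | _ a b =>
    rw [fw_mem_shE]
    constructor
    · rintro ⟨h1, h2⟩
      refine ⟨fw_mem_shE.1 h1, ?_⟩
      intro w hw
      rcases Sym2.mem_iff.1 hw with rfl | rfl
      · exact fw_mem_bx_add.1 (h2 a (Sym2.mem_mk_left a b))
      · exact fw_mem_bx_add.1 (h2 b (Sym2.mem_mk_right a b))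
    · rintro ⟨h1, h2⟩
      refine ⟨fw_mem_shE.2 h1, ?_⟩
      intro w hw
      rcases Sym2.mem_iff.1 hw with rfl | rfl
      · exact fw_mem_bx_add.2 (h2 _ (Sym2.mem_mk_left _ _))
      · exact fw_mem_bx_add.2 (h2 _ (Sym2.mem_mk_right _ _))

theorem Lb0_shE (R : ℕ) (z : V d) (O : Set (Sym2 (V d))) (x : V d) :
    Lb0 R (shE z O) (x + z) = Lb0 R O x := by
  unfold Lb0 Lb
  rw [fw_shE_inter_ins, Cl_shE, Set.image_image]
  refine Set.image_congr' fun w => ?_
  show w + z - (x + z) = w - x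
  abel

theorem fw_self_mem_bx (R : ℕ) (x : V d) : x ∈ bx R x := by
  intro i
  simp

theorem fw_bx_finite (R : ℕ) (x : V d) : (bx R x).Finite := by
  refine (Set.finite_Icc (fun i => x i - (R : ℤ)) (fun i => x i + (R : ℤ))).subset ?_
  intro y hy
  refine ⟨fun i => ?_, fun i => ?_⟩
  · have := abs_le.1 (hy i)
    show x i - (R : ℤ) ≤ y i
    linarith [this.1]
  · have := abs_le.1 (hy i)
    show y i ≤ x i + (R : ℤ)
    linarith [this.2]

theorem fw_Lb_subset (R : ℕ) (O : Set (Sym2 (V d))) (x : V d) : Lb R O x ⊆ bx R x := by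
  intro w hw
  refine Rch.mem_of_closed (bx R x) (fw_self_mem_bx R x) ?_ hw
  intro a _ b hab
  exact hab.2 b (Sym2.mem_mk_right a b)

theorem Lb_finite (R : ℕ) (O : Set (Sym2 (V d))) (x : V d) : (Lb R O x).Finite :=
  (fw_bx_finite R x).subset (fw_Lb_subset R O x)

theorem Lb0_subset (R : ℕ) (O : Set (Sym2 (V d))) (x : V d) : Lb0 R O x ⊆ bx R (0 : V d) := by
  rintro _ ⟨w, hw, rfl⟩ i
  have := fw_Lb_subset R O x hw i
  simpa using this

theorem fw_Lb0_finite (R : ℕ) (O : Set (Sym2 (V d))) (x : V d) : (Lb0 R O x).Finite :=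
  (Lb_finite R O x).image _

theorem zero_mem_Lb0 (R : ℕ) (O : Set (Sym2 (V d))) (x : V d) : (0 : V d) ∈ Lb0 R O x :=
  ⟨x, self_mem_Cl _ x, sub_self x⟩

theorem fw_Yf_of_finite (R : ℕ) (g : Set (V d) → ℝ) (O : Set (Sym2 (V d))) (y : V d)
    (h : (Cl O y).Finite) : Yf R g O y = ∑ x ∈ h.toFinset, g (Lb0 R O x) := by
  classical
  unfold Yf
  rw [dif_pos h]

theorem fw_Yf_of_not_finite (R : ℕ) (g : Set (V d) → ℝ) (O : Set (Sym2 (V d))) (y : V d)
    (h : ¬ (Cl O y).Finite) : Yf R g O y = 0 := by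
  classical
  unfold Yf
  rw [dif_neg h]

theorem fw_Nc_of_not_finite {W : Type*} {O : Set (Sym2 W)} {y : W} (h : ¬ (Cl O y).Finite) :
    Nc O y = 0 := Set.Infinite.ncard h

theorem Yf_abs_le (R : ℕ) (g : Set (V d) → ℝ) (c0 : ℝ)
    (hg : ∀ L : Set (V d), L.Finite → (0 : V d) ∈ L → |g L| ≤ c0) (O : Set (Sym2 (V d))) (y : V d) :
    |Yf R g O y| ≤ c0 * (Nc O y : ℝ) := by
  by_cases h : (Cl O y).Finite
  · rw [fw_Yf_of_finite R g O y h]
    refine (Finset.abs_sum_le_sum_abs _ _).trans ?_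
    refine (Finset.sum_le_card_nsmul _ _ c0 fun x _ =>
      hg _ (fw_Lb0_finite R O x) (zero_mem_Lb0 R O x)).trans ?_
    rw [nsmul_eq_mul, mul_comm]
    unfold Nc
    rw [Set.ncard_eq_toFinset_card _ h]
  · rw [fw_Yf_of_not_finite R g O y h, fw_Nc_of_not_finite h]
    simp

/-- the cluster of `y` splits at the separating edge `(u,v)` -/
theorem Cl_split {W : Type*} {O : Set (Sym2 W)} {y u v : W} (he : s(u, v) ∈ O)
    (hu : u ∈ Cl (del1 O s(u, v)) y) (hv : v ∉ Cl (del1 O s(u, v)) y) :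
    Cl O y = Cl (del1 O s(u, v)) y ∪ Cl ((Del.ofSet (Cl (del1 O s(u, v)) y)).rem O) v ∧
      Disjoint (Cl (del1 O s(u, v)) y) (Cl ((Del.ofSet (Cl (del1 O s(u, v)) y)).rem O) v) := by
  have hK : Cl (del1 O s(u, v)) y ⊆ Cl O y := Cl_mono (del1_subset O _) y
  have hdis : ∀ x ∈ Cl ((Del.ofSet (Cl (del1 O s(u, v)) y)).rem O) v,
      x ∉ Cl (del1 O s(u, v)) y := by
    intro x hx
    exact ClA_disjoint (A := Del.ofSet (Cl (del1 O s(u, v)) y)) (y := v) ⟨hv, hx⟩
  refine ⟨Set.Subset.antisymm ?_ ?_, ?_⟩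
  · intro w hw
    refine Rch.mem_of_closed _ (Or.inl (self_mem_Cl _ y)) ?_ hw
    rintro a ha b hab
    by_cases hbK : b ∈ Cl (del1 O s(u, v)) y
    · exact Or.inl hbK
    · rcases ha with ha | ha
      · by_cases hE : s(a, b) = s(u, v)
        · rcases Sym2.eq_iff.1 hE with ⟨_, h2⟩ | ⟨h1, _⟩
          · exact Or.inr (by rw [h2]; exact self_mem_Cl _ v)
          · exact absurd (h1 ▸ ha) hv
        · exact Or.inl (Rch.tail ha ⟨hab, hE⟩)
      · refine Or.inr (Rch.tail ha ?_)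
        rw [Del.ofSet_rem]
        refine ⟨hab, ?_⟩
        intro x hx
        rcases Sym2.mem_iff.1 hx with rfl | rfl
        · exact hdis _ ha
        · exact hbK
  · rintro w (hw | hw)
    · exact hK hw
    · exact ((hK hu).tail he).trans (Rch.mono (Del.rem_subset _ O) hw)
  · rw [Set.disjoint_right]
    exact hdis

/-- clusters only depend on the edges touching them -/
theorem fw_Cl_eq_of_agree {W : Type*} {O O' : Set (Sym2 W)} {y : W}
    (h : ∀ e ∈ touch (Cl O y), (e ∈ O ↔ e ∈ O')) : Cl O' y = Cl O y := by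
  refine Set.Subset.antisymm ?_ ?_
  · intro w hw
    refine Rch.mem_of_closed (Cl O y) (self_mem_Cl _ y) ?_ hw
    intro a ha b hab
    exact Rch.tail ha ((h _ ⟨a, Sym2.mem_mk_left a b, ha⟩).2 hab)
  · intro w hw
    refine Rch.induct (P := fun w => Rch O' y w) (Rch.refl _ _) ?_ hw
    intro a b hya hab ha
    exact ha.tail ((h _ ⟨a, Sym2.mem_mk_left a b, hya⟩).1 hab)

theorem fw_Lb_eq_of_agree (R : ℕ) {O O' : Set (Sym2 (V d))} {y x : V d} (hx : x ∈ Cl O y)
    (h : ∀ e ∈ touch (Cl O y), (e ∈ O ↔ e ∈ O')) : Lb R O' x = Lb R O x := by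
  refine fw_Cl_eq_of_agree ?_
  rintro e ⟨w, hwe, hw⟩
  have hwO : w ∈ Cl O y := Rch.trans hx (Rch.mono Set.inter_subset_left hw)
  have := h e ⟨w, hwe, hwO⟩
  constructor
  · exact fun h1 => ⟨this.1 h1.1, h1.2⟩
  · exact fun h1 => ⟨this.2 h1.1, h1.2⟩

theorem fw_Lb_rem_eq (R : ℕ) {O : Set (Sym2 (V d))} {K : Set (V d)} {x : V d}
    (h : ∀ w ∈ bx R x, w ∉ K) : Lb R ((Del.ofSet K).rem O) x = Lb R O x := by
  unfold Lb
  congr 1
  rw [Del.ofSet_rem]
  ext e
  constructor
  · exact fun h1 => ⟨h1.1.1, h1.2⟩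
  · exact fun h1 => ⟨⟨h1.1, fun w hw => h w (h1.2 w hw)⟩, h1.2⟩

theorem fw_Yf_shE (R : ℕ) (g : Set (V d) → ℝ) (z : V d) (O : Set (Sym2 (V d))) (y : V d) :
    Yf R g (shE z O) (y + z) = Yf R g O y := by
  classical
  have hinj : Function.Injective (fun x : V d => x + z) := add_left_injective z
  by_cases h : (Cl O y).Finite
  · have h' : (Cl (shE z O) (y + z)).Finite := by
      rw [Cl_shE]; exact h.image _
    rw [fw_Yf_of_finite R g O y h, fw_Yf_of_finite R g _ _ h']
    have hE : h'.toFinset = h.toFinset.image (fun x => x + z) := by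
      ext w
      rw [Set.Finite.mem_toFinset, Cl_shE, Finset.mem_image]
      constructor
      · rintro ⟨x, hx, rfl⟩
        exact ⟨x, h.mem_toFinset.2 hx, rfl⟩
      · rintro ⟨x, hx, rfl⟩
        exact ⟨x, h.mem_toFinset.1 hx, rfl⟩
    rw [hE, Finset.sum_image (fun a _ b _ hab => hinj hab)]
    exact Finset.sum_congr rfl fun x _ => by rw [Lb0_shE]
  · have h' : ¬ (Cl (shE z O) (y + z)).Finite := by
      rw [Cl_shE]
      exact fun hf => h (hf.of_finite_image hinj.injOn)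
    rw [fw_Yf_of_not_finite R g O y h, fw_Yf_of_not_finite R g _ _ h']

theorem fw_Nc_shE (z : V d) (O : Set (Sym2 (V d))) (y : V d) : Nc (shE z O) (y + z) = Nc O y := by
  unfold Nc
  rw [Cl_shE, Set.ncard_image_of_injective _ (add_left_injective z)]

theorem fw_bx_ncard (R : ℕ) (x : V d) : (bx R x).ncard = (bx R (0 : V d)).ncard := by
  have h : bx R x = (fun w => w + x) '' bx R (0 : V d) := by
    ext w
    constructor
    · intro hw
      refine ⟨w - x, ?_, sub_add_cancel w x⟩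
      intro i
      have := hw i
      simpa using this
    · rintro ⟨v, hv, rfl⟩ i
      have := hv i
      simpa using this
  rw [h, Set.ncard_image_of_injective _ (add_left_injective x)]

theorem fw_mem_bx_comm {R : ℕ} {x w : V d} : w ∈ bx R x ↔ x ∈ bx R w := by
  constructor
  · intro h i
    rw [abs_sub_comm]; exact h i
  · intro h i
    rw [abs_sub_comm]; exact h i

/-- the points whose box meets `K` -/
theorem fw_card_near (R : ℕ) (K Z : Finset (V d)) [DecidablePred fun x => ∃ w ∈ K, w ∈ bx R x] :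
    ((Z.filter fun x => ∃ w ∈ K, w ∈ bx R x).card : ℝ) ≤
      (K.card : ℝ) * ((bx R (0 : V d)).ncard : ℝ) := by
  classical
  have hsub : (Z.filter fun x => ∃ w ∈ K, w ∈ bx R x) ⊆
      K.biUnion fun w => (fw_bx_finite R w).toFinset := by
    intro x hx
    obtain ⟨_, w, hw, hwx⟩ := Finset.mem_filter.1 hx
    rw [Finset.mem_biUnion]
    exact ⟨w, hw, (fw_bx_finite R w).mem_toFinset.2 (fw_mem_bx_comm.1 hwx)⟩
  have h1 := (Finset.card_le_card hsub).trans
    (Finset.card_biUnion_le_card_mul K (fun w => (fw_bx_finite R w).toFinset)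
      (bx R (0 : V d)).ncard fun w _ => by
        rw [← Set.ncard_eq_toFinset_card _ (fw_bx_finite R w), fw_bx_ncard])
  exact_mod_cast h1

/-- the split of `N` and `Y` -/
theorem fw_cut_bounds (R : ℕ) (g : Set (V d) → ℝ) (c0 : ℝ) (hc0 : 0 ≤ c0)
    (hg : ∀ L : Set (V d), L.Finite → (0 : V d) ∈ L → |g L| ≤ c0) (O : Set (Sym2 (V d)))
    (y u v : V d) (he : s(u, v) ∈ O) (hf : (Cl O y).Finite)
    (hu : u ∈ Cl (del1 O s(u, v)) y) (hv : v ∉ Cl (del1 O s(u, v)) y) :
    |(Nc O y : ℝ) - Nc ((Del.ofSet (Cl (del1 O s(u, v)) y)).rem O) v| =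
        ((Cl (del1 O s(u, v)) y).ncard : ℝ) ∧
      |Yf R g O y - Yf R g ((Del.ofSet (Cl (del1 O s(u, v)) y)).rem O) v| ≤
        (c0 + 2 * c0 * ((bx R (0 : V d)).ncard : ℝ)) * ((Cl (del1 O s(u, v)) y).ncard : ℝ) := by
  classical
  obtain ⟨hsp, hdis⟩ := Cl_split he hu hv
  set K := Cl (del1 O s(u, v)) y with hK
  set O' := (Del.ofSet K).rem O with hO'
  have hKf : K.Finite := hf.subset (by rw [hsp]; exact Set.subset_union_left)
  have hZf : (Cl O' v).Finite := hf.subset (by rw [hsp]; exact Set.subset_union_right)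
  have hN : Nc O y = K.ncard + Nc O' v := by
    unfold Nc
    rw [hsp, Set.ncard_union_eq hdis hKf hZf]
  refine ⟨?_, ?_⟩
  · rw [hN]
    push_cast
    rw [add_sub_cancel_right, abs_of_nonneg (Nat.cast_nonneg _)]
  · have hT : hf.toFinset = hKf.toFinset ∪ hZf.toFinset := by
      ext w
      rw [Set.Finite.mem_toFinset, hsp, Finset.mem_union, Set.Finite.mem_toFinset,
        Set.Finite.mem_toFinset]
      exact Iff.rfl
    have hD : Disjoint hKf.toFinset hZf.toFinset := by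
      rw [Set.Finite.disjoint_toFinset]
      exact hdis
    rw [fw_Yf_of_finite R g O y hf, fw_Yf_of_finite R g O' v hZf, hT, Finset.sum_union hD,
      add_sub_assoc, ← Finset.sum_sub_distrib]
    have hcard : (hKf.toFinset.card : ℝ) = (K.ncard : ℝ) := by
      rw [Set.ncard_eq_toFinset_card _ hKf]
    have h1 : |∑ x ∈ hKf.toFinset, g (Lb0 R O x)| ≤ c0 * (K.ncard : ℝ) := by
      refine (Finset.abs_sum_le_sum_abs _ _).trans ?_
      refine (Finset.sum_le_card_nsmul _ _ c0 fun x _ =>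
        hg _ (fw_Lb0_finite R O x) (zero_mem_Lb0 R O x)).trans ?_
      rw [nsmul_eq_mul, mul_comm, hcard]
    have h2 : |∑ x ∈ hZf.toFinset, (g (Lb0 R O x) - g (Lb0 R O' x))| ≤
        2 * c0 * ((bx R (0 : V d)).ncard : ℝ) * (K.ncard : ℝ) := by
      refine (Finset.abs_sum_le_sum_abs _ _).trans ?_
      rw [← Finset.sum_filter_add_sum_filter_not hZf.toFinset
        (fun x => ∃ w ∈ hKf.toFinset, w ∈ bx R x)]
      have h3 : ∑ x ∈ hZf.toFinset.filter (fun x => ¬ ∃ w ∈ hKf.toFinset, w ∈ bx R x),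
          |g (Lb0 R O x) - g (Lb0 R O' x)| = 0 := by
        refine Finset.sum_eq_zero fun x hx => ?_
        obtain ⟨_, hx2⟩ := Finset.mem_filter.1 hx
        have h4 : Lb R O' x = Lb R O x := by
          refine fw_Lb_rem_eq R ?_
          intro w hw hwK
          exact hx2 ⟨w, hKf.mem_toFinset.2 hwK, hw⟩
        unfold Lb0
        rw [h4, sub_self, abs_zero]
      rw [h3, add_zero]
      have h5 : ∑ x ∈ hZf.toFinset.filter (fun x => ∃ w ∈ hKf.toFinset, w ∈ bx R x),
          |g (Lb0 R O x) - g (Lb0 R O' x)| ≤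
          ((hZf.toFinset.filter (fun x => ∃ w ∈ hKf.toFinset, w ∈ bx R x)).card : ℝ) *
            (2 * c0) := by
        refine (Finset.sum_le_card_nsmul _ _ (2 * c0) fun x _ => ?_).trans ?_
        · have h6 := hg _ (fw_Lb0_finite R O x) (zero_mem_Lb0 R O x)
          have h7 := hg _ (fw_Lb0_finite R O' x) (zero_mem_Lb0 R O' x)
          have h8 := abs_sub (g (Lb0 R O x)) (g (Lb0 R O' x))
          linarith
        · rw [nsmul_eq_mul]
      refine h5.trans ?_
      have h9 := fw_card_near R hKf.toFinset hZf.toFinset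
      rw [hcard] at h9
      have h10 : 0 ≤ 2 * c0 := by linarith
      calc _ ≤ ((K.ncard : ℝ) * ((bx R (0 : V d)).ncard : ℝ)) * (2 * c0) :=
            mul_le_mul_of_nonneg_right h9 h10
        _ = _ := by ring
    have h11 := abs_add_le (∑ x ∈ hKf.toFinset, g (Lb0 R O x))
      (∑ x ∈ hZf.toFinset, (g (Lb0 R O x) - g (Lb0 R O' x)))
    calc _ ≤ _ := h11
      _ ≤ c0 * (K.ncard : ℝ) + 2 * c0 * ((bx R (0 : V d)).ncard : ℝ) * (K.ncard : ℝ) :=
          add_le_add h1 h2
      _ = _ := by ring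

theorem isLSF_Wf (R : ℕ) (g : Set (V d) → ℝ) (w : ℝ → ℕ → ℝ → ℝ) (c0 c : ℝ) (hw : IsW w c0 c)
    (hg : ∀ L : Set (V d), L.Finite → (0 : V d) ∈ L → |g L| ≤ c0) :
    ∃ c', IsLSF (Wf R g w) c' := by
  have hc0 := hw.zero_le
  have hc := hw.one_le
  have hB : (0 : ℝ) ≤ ((bx R (0 : V d)).ncard : ℝ) := Nat.cast_nonneg _
  have hq : (0 : ℝ) ≤ c0 + 2 * c0 * ((bx R (0 : V d)).ncard : ℝ) := by positivity
  refine ⟨c * (1 + (c0 + 2 * c0 * ((bx R (0 : V d)).ncard : ℝ))), ?_, ?_, ?_, ?_, ?_⟩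
  · nlinarith
  · intro s hs hs1 O y
    have h1 := hw.bd s hs hs1 (Nc O y) (Yf R g O y) (Yf_abs_le R g c0 hg O y)
    have h2 : (0 : ℝ) ≤ min 1 (s * (Nc O y : ℝ)) := le_min zero_le_one (by positivity)
    refine h1.trans (mul_le_mul_of_nonneg_right ?_ h2)
    nlinarith
  · intro s O y z
    unfold Wf
    rw [fw_Nc_shE, fw_Yf_shE]
  · intro s O O' y hf hag
    unfold Wf
    have h1 : Cl O' y = Cl O y := fw_Cl_eq_of_agree hag
    have hf' : (Cl O' y).Finite := by rw [h1]; exact hf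
    have h2 : Nc O y = Nc O' y := by unfold Nc; rw [h1]
    have h3 : Yf R g O y = Yf R g O' y := by
      rw [fw_Yf_of_finite R g O y hf, fw_Yf_of_finite R g O' y hf']
      have h4 : hf'.toFinset = hf.toFinset := by
        ext x
        rw [Set.Finite.mem_toFinset, Set.Finite.mem_toFinset, h1]
      rw [h4]
      refine Finset.sum_congr rfl fun x hx => ?_
      unfold Lb0
      rw [fw_Lb_eq_of_agree R (hf.mem_toFinset.1 hx) hag]
    rw [h2, h3]
  · intro s hs hs1 O y u v he hf hu hv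
    obtain ⟨h1, h2⟩ := fw_cut_bounds R g c0 hc0 hg O y u v he hf hu hv
    have h3 := hw.lip s hs hs1 (Nc O y) (Nc ((Del.ofSet (Cl (del1 O s(u, v)) y)).rem O) v)
      (Yf R g O y) (Yf R g ((Del.ofSet (Cl (del1 O s(u, v)) y)).rem O) v)
      (Yf_abs_le R g c0 hg O y) (Yf_abs_le R g c0 hg _ v)
    have hcs : (0 : ℝ) ≤ c * s := by positivity
    refine h3.trans ?_
    rw [h1]
    calc _ ≤ c * s * (((Cl (del1 O s(u, v)) y).ncard : ℝ) +
          (c0 + 2 * c0 * ((bx R (0 : V d)).ncard : ℝ)) *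
            ((Cl (del1 O s(u, v)) y).ncard : ℝ)) :=
          mul_le_mul_of_nonneg_left (by linarith) hcs
      _ = _ := by ring

/-- `1 - e^{-sN}` is a large scale functional -/
theorem isLSF_W1 : ∃ c, IsLSF (W1 (d := d)) c := by
  have hw : IsW (fun (s : ℝ) (N : ℕ) (_ : ℝ) => 1 - Real.exp (-(s * (N : ℝ)))) 0 1 := by
    refine ⟨le_rfl, le_rfl, ?_, ?_, ?_⟩
    · intro s
      simp
    · intro s hs _ N _ _
      have hN : (0 : ℝ) ≤ s * (N : ℝ) := by positivity
      have h1 : Real.exp (-(s * (N : ℝ))) ≤ 1 := Real.exp_le_one_iff.2 (by linarith)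
      have h2 : -(s * (N : ℝ)) + 1 ≤ Real.exp (-(s * (N : ℝ))) := Real.add_one_le_exp _
      have h3 : 0 < Real.exp (-(s * (N : ℝ))) := Real.exp_pos _
      show |1 - Real.exp (-(s * (N : ℝ)))| ≤ 1 * min 1 (s * (N : ℝ))
      rw [abs_of_nonneg (by linarith), one_mul]
      exact le_min (by linarith) (by linarith)
    · intro s hs _ N N' Y Y' _ _
      have key : ∀ a b : ℝ, 0 ≤ a → 0 ≤ b → a ≤ b →
          |(1 - Real.exp (-a)) - (1 - Real.exp (-b))| ≤ b - a := by
        intro a b ha hb hab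
        have h1 : Real.exp (-b) ≤ Real.exp (-a) := Real.exp_le_exp.2 (by linarith)
        have h2 : Real.exp (-b) = Real.exp (-a) * Real.exp (-(b - a)) := by
          rw [← Real.exp_add]; congr 1; ring
        have h3 : -(b - a) + 1 ≤ Real.exp (-(b - a)) := Real.add_one_le_exp _
        have h4 : Real.exp (-a) ≤ 1 := Real.exp_le_one_iff.2 (by linarith)
        have h5 : 0 < Real.exp (-a) := Real.exp_pos _
        rw [abs_le]
        constructor
        · nlinarith
        · linarith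
      have hN : (0 : ℝ) ≤ s * (N : ℝ) := by positivity
      have hN' : (0 : ℝ) ≤ s * (N' : ℝ) := by positivity
      have hb : |(1 - Real.exp (-(s * (N : ℝ)))) - (1 - Real.exp (-(s * (N' : ℝ))))| ≤
          s * |(N : ℝ) - N'| := by
        rcases le_total (s * (N : ℝ)) (s * (N' : ℝ)) with h | h
        · refine (key _ _ hN hN' h).trans ?_
          have := neg_abs_le ((N : ℝ) - N')
          nlinarith
        · rw [abs_sub_comm]
          refine (key _ _ hN' hN h).trans ?_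
          have := le_abs_self ((N : ℝ) - N')
          nlinarith
      refine hb.trans ?_
      rw [one_mul]
      refine mul_le_mul_of_nonneg_left ?_ hs.le
      linarith [abs_nonneg (Y - Y')]
  obtain ⟨c', hc'⟩ := isLSF_Wf (d := d) 0 (fun _ => 0) _ 0 1 hw (fun L _ _ => by simp)
  exact ⟨c', hc'⟩

end Pool.Agent.PB
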