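import Pool.Agent.PB.Mix.LocMix
import Pool.Agent.PB.Mix.FunW
import Pool.Agent.PB.Meas
import Pool.Agent.PB.BK
import Pool.Agent.PB.P.Act

/-!
# PB / Mix / PsiP: 6.5 properties of ψ, and `out6`
Plan. All from `W1_psi` (`EW W1 s A y = E[1-e^{-sN_A}]`, `EW W1 s D0 0 > 0`):
* `0 ≤ ψ ≤ 1`: `0 ≤ EW W1 s A y ≤ EW W1 s D0 y` (`N_A ≤ N`).
* `psi_anti`: `N_K ≤ N_{K'}` for `K' ⊆ K`.
* `psi_lip`: `EW W1 s (ofSet K') v - EW W1 s (ofSet K) v ≤ Σ_{z∈K\K'} τ(z-v) Mr s`: both sides are probabilities `P(v → G_s off ..)` (`EW W1 s A v = Pr{RchA A O v G}` for `v ∉ A.S`,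
  ghost_int with f = 1) and 1.6 (helper93, P/Tree: BK).
* `psi_shift`: translation invariance of `EW W1` (or of all `kerR`): `EW W1 s (ofSet (K+z)) (v+z) = EW W1 s (ofSet K) v`.
* `psi_D0 = psi_D0'`.
-/

set_option autoImplicit false
open MeasureTheory Filter Topology
open scoped ENNReal BigOperators

namespace Pool.Agent.PB

/-! ### a path that must visit `K` -/

section walks

variable {W : Type*}

private theorem rch_of_walk {O : Set (Sym2 W)} {x y : W}
    (p : (SimpleGraph.fromEdgeSet O).Walk x y) : Rch {e | e ∈ p.edges} x y := by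
  induction p with
  | nil => exact Rch.refl _ _
  | cons h p ih =>
    refine Rch.head (by simp) (ih.mono ?_)
    intro e he
    have he' : e ∈ p.edges := he
    show e ∈ (SimpleGraph.Walk.cons h p).edges
    rw [SimpleGraph.Walk.edges_cons]
    exact List.mem_cons_of_mem _ he'

private theorem edges_sub {O : Set (Sym2 W)} {x y : W} (p : (SimpleGraph.fromEdgeSet O).Walk x y)
    {e : Sym2 W} (he : e ∈ p.edges) : e ∈ O := by
  have := p.edges_subset_edgeSet he
  rw [SimpleGraph.edgeSet_fromEdgeSet] at this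
  exact this.1

private theorem fin_edges {O : Set (Sym2 W)} {x y : W} (p : (SimpleGraph.fromEdgeSet O).Walk x y) :
    {e | e ∈ p.edges}.Finite := p.edges.finite_toSet

private theorem disj_split {O : Set (Sym2 W)} {x y w : W} [DecidableEq W]
    (p : (SimpleGraph.fromEdgeSet O).Walk x y) (hp : p.IsPath) (hw : w ∈ p.support) :
    Disjoint {e | e ∈ (p.takeUntil w hw).edges} {e | e ∈ (p.dropUntil w hw).edges} := by
  have h1 : p.edges.Nodup := hp.isTrail.edges_nodup
  have h2 : p.edges = (p.takeUntil w hw).edges ++ (p.dropUntil w hw).edges := by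
    rw [← SimpleGraph.Walk.edges_append, SimpleGraph.Walk.take_spec]
  rw [h2] at h1
  have h3 := List.disjoint_of_nodup_append h1
  rw [Set.disjoint_left]
  intro e he he'
  exact h3 he he'

private theorem detourR {O : Set (Sym2 W)} {v x : W} {K : Set W} (h : Rch O v x)
    (hn : ¬ Rch ((Del.ofSet K).rem O) v x) :
    ∃ z ∈ K, ∃ S1 S2 : Set (Sym2 W), S1 ⊆ O ∧ S2 ⊆ O ∧ S1.Finite ∧ S2.Finite ∧ Disjoint S1 S2 ∧
      Rch S1 v z ∧ Rch S2 z x := by
  classical
  obtain ⟨p, hp⟩ : ∃ p : (SimpleGraph.fromEdgeSet O).Walk v x, p.IsPath := by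
    obtain ⟨p⟩ := rch_iff_reachable.1 h
    exact ⟨p.bypass, p.bypass_isPath⟩
  have key : ∃ z ∈ K, z ∈ p.support := by
    by_contra hcon
    push Not at hcon
    apply hn
    refine (rch_of_walk p).mono ?_
    intro e he
    rw [Del.ofSet_rem]
    refine ⟨edges_sub p he, ?_⟩
    intro y hy hyK
    refine hcon y hyK ?_
    induction e using Sym2.ind with
    | _ c d =>
      rcases Sym2.mem_iff.1 hy with rfl | rfl
      · exact p.fst_mem_support_of_mem_edges he
      · exact p.snd_mem_support_of_mem_edges he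
  obtain ⟨z, hzK, hz⟩ := key
  exact ⟨z, hzK, {e | e ∈ (p.takeUntil z hz).edges}, {e | e ∈ (p.dropUntil z hz).edges},
    fun e he => edges_sub _ he, fun e he => edges_sub _ he, fin_edges _, fin_edges _,
    disj_split p hp hz, rch_of_walk _, rch_of_walk _⟩

end walks

variable {d : ℕ}

/-- the event `y → G_s` off `A` -/
private def RE (s : ℝ) (A : Del (V d)) (y : V d) : Set (Om d) :=
  {ω | RchA A (Oc ω) y (ghost false s ω)}

private theorem RE_meas (s : ℝ) (A : Del (V d)) (y : V d) : MeasurableSet (RE s A y) :=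
  (opn_MES (pc d)).rchA (ghost_MVS false s) A y

private theorem D0_S : (D0 : Del (V d)).S = ∅ := rfl

private theorem D0_finite : (D0 : Del (V d)).Finite := ⟨Set.finite_empty, Set.finite_empty⟩

private theorem notMem_D0 (y : V d) : y ∉ (D0 : Del (V d)).S := by
  rw [D0_S]
  exact Set.notMem_empty y

/-- `E[1 - e^{-s N_A}] = P(y → G_s off A)` -/
private theorem EW1_RE (hC : Crit d) (h5 : Out5 d) {s : ℝ} (hs : 0 < s) (A : Del (V d)) (y : V d)
    (hy : y ∉ A.S) : EW W1 s A y = (Pr d (RE s A y)).toReal := by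
  classical
  have h1 := ghost_int hC h5 A y s hs (fun _ => 1) measurable_const ⟨1, fun _ => by simp⟩
    (fun _ _ _ => rfl)
  have h2 : ∫ ω, Set.indicator {ω : Om d | ¬ RchA A (Oc ω) y (ghost false s ω)}
      (fun _ => (1 : ℝ)) ω ∂(Pr d) = 1 - (Pr d (RE s A y)).toReal := by
    have h3 : {ω : Om d | ¬ RchA A (Oc ω) y (ghost false s ω)} = (RE s A y)ᶜ := rfl
    rw [h3, integral_indicator_const _ (RE_meas s A y).compl, smul_eq_mul, mul_one,
      measureReal_compl (RE_meas s A y), probReal_univ]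
    rfl
  rw [h2] at h1
  set f : Om d → ℝ := fun ω => Real.exp (-(s * (Nc (A.rem (Oc ω)) y : ℝ))) with hf
  have hfm : Measurable f := by
    have h3 : Measurable (fun ω : Om d => (Cl (A.rem (Oc ω)) y).encard) :=
      (((opn_MES (pc d)).rem A).cl y).encard
    have h4 : Measurable (fun n : ℕ∞ => Real.exp (-(s * (n.toNat : ℝ)))) :=
      measurable_of_countable _
    exact h4.comp h3
  have hfi : Integrable f (Pr d) := by
    refine Integrable.of_bound hfm.aestronglyMeasurable 1 (Filter.Eventually.of_forall fun ω => ?_)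
    rw [hf, Real.norm_eq_abs, abs_of_pos (Real.exp_pos _)]
    refine Real.exp_le_one_iff.2 ?_
    have : (0 : ℝ) ≤ s * (Nc (A.rem (Oc ω)) y : ℝ) := by positivity
    linarith
  have h5' : ∫ ω, (1 : ℝ) * (if y ∈ A.S then 1 else
      Real.exp (-(s * (Nc (A.rem (Oc ω)) y : ℝ)))) ∂(Pr d) = ∫ ω, f ω ∂(Pr d) := by
    refine integral_congr_ae (Filter.Eventually.of_forall fun ω => ?_)
    show (1 : ℝ) * (if y ∈ A.S then 1 else Real.exp (-(s * (Nc (A.rem (Oc ω)) y : ℝ)))) = f ω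
    rw [if_neg hy, one_mul]
  rw [h5'] at h1
  have h6 : EW W1 s A y = ∫ ω, (1 - f ω) ∂(Pr d) := by
    unfold EW
    refine integral_congr_ae (Filter.Eventually.of_forall fun ω => ?_)
    show WA W1 s A (Oc ω) y = 1 - f ω
    unfold WA W1
    rw [if_neg hy]
  rw [h6, integral_sub (integrable_const _) hfi, ← h1, integral_const, probReal_univ]
  simp

private theorem EW1_nonneg (hC : Crit d) (h5 : Out5 d) {s : ℝ} (hs : 0 < s) (A : Del (V d))
    (y : V d) (hy : y ∉ A.S) : 0 ≤ EW W1 s A y := by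
  rw [EW1_RE hC h5 hs A y hy]
  exact ENNReal.toReal_nonneg

theorem psi_nonneg (hC : Crit d) (h5 : Out5 d) (A : Del (V d)) (y : V d) (hA : A.Finite)
    (hy : y ∉ A.S) : 0 ≤ psi A y := by
  refine ge_of_tendsto (W1_psi hC h5 A y hA hy) ?_
  filter_upwards [self_mem_nhdsWithin] with s hs
  exact div_nonneg (EW1_nonneg hC h5 hs A y hy) (EW1_nonneg hC h5 hs _ _ (notMem_D0 0))

theorem psi_le (hC : Crit d) (h5 : Out5 d) (A : Del (V d)) (y : V d) (hA : A.Finite)
    (hy : y ∉ A.S) : psi A y ≤ 1 := by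
  refine le_of_tendsto (W1_psi hC h5 A y hA hy) ?_
  filter_upwards [self_mem_nhdsWithin] with s hs
  have hs' : 0 < s := hs
  refine div_le_one_of_le₀ ?_ (EW1_nonneg hC h5 hs' _ _ (notMem_D0 0))
  rw [EW1_eq hC h5 s hs' 0, ← EW1_eq hC h5 s hs' y, EW1_RE hC h5 hs' A y hy,
    EW1_RE hC h5 hs' _ y (notMem_D0 y)]
  refine ENNReal.toReal_mono (measure_ne_top _ _) (measure_mono ?_)
  rintro ω ⟨g, hg, h1, h2⟩
  refine ⟨g, hg, notMem_D0 y, h2.mono ?_⟩
  rintro e ⟨he, -, -⟩
  exact ⟨he, Set.notMem_empty e, fun x _ => notMem_D0 x⟩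

theorem psi_anti (hC : Crit d) (h5 : Out5 d) (K' K : Finset (V d)) (v : V d) (h : K' ⊆ K)
    (hv : v ∉ K) : psiK K v ≤ psiK K' v := by
  have hv1 : v ∉ (Del.ofSet (K : Set (V d))).S := fun h1 => hv (Finset.mem_coe.1 h1)
  have hv2 : v ∉ (Del.ofSet (K' : Set (V d))).S := fun h1 => hv (h (Finset.mem_coe.1 h1))
  refine le_of_tendsto_of_tendsto (W1_psi hC h5 _ v (Del.ofSet_finite K.finite_toSet) hv1)
    (W1_psi hC h5 _ v (Del.ofSet_finite K'.finite_toSet) hv2) ?_
  filter_upwards [self_mem_nhdsWithin] with s hs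
  have hs' : 0 < s := hs
  refine div_le_div_of_nonneg_right ?_ (EW1_nonneg hC h5 hs' _ _ (notMem_D0 0))
  rw [EW1_RE hC h5 hs' _ v hv1, EW1_RE hC h5 hs' _ v hv2]
  refine ENNReal.toReal_mono (measure_ne_top _ _) (measure_mono ?_)
  rintro ω ⟨g, hg, h1, h2⟩
  refine ⟨g, hg, hv2, h2.mono ?_⟩
  rintro e ⟨he, he1, he2⟩
  exact ⟨he, he1, fun x hx hxK => he2 x hx (Finset.mem_coe.2 (h (Finset.mem_coe.1 hxK)))⟩

private theorem sub_restr {p : ℝ} {ω : Om d} {S : Set (Sym2 (V d))} (hS : S ⊆ opn p ω)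
    {T : Set (Ix d)} (hT : ∀ e ∈ S, Sum.inl e ∈ T) : S ⊆ opn p (restr T ω) := by
  intro e he
  refine ⟨(hS he).1, ?_⟩
  rw [restr_of_mem ω (hT e he)]
  exact (hS he).2

private theorem isUp_rch (p : ℝ) (x y : V d) : IsUp {ω : Om d | Rch (opn p ω) x y} := by
  intro ω ω' h hω
  refine Rch.mono ?_ hω
  intro e he
  exact ⟨he.1, le_trans (h (Sum.inl e)) he.2⟩

private theorem isUp_rchT (p s : ℝ) (x : V d) :
    IsUp {ω : Om d | RchT (opn p ω) x (ghost false s ω)} := by
  rintro ω ω' h ⟨g, hg, hr⟩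
  refine ⟨g, ?_, Rch.mono ?_ hr⟩
  · exact le_trans (Subtype.coe_le_coe.2 (h (Sum.inr (g, false)))) hg
  · intro e he
    exact ⟨he.1, le_trans (h (Sum.inl e)) he.2⟩

private theorem RE_cover (s : ℝ) (K' K : Finset (V d)) (v : V d) (hv : v ∉ K) :
    RE s (Del.ofSet (K' : Set (V d))) v ⊆ RE s (Del.ofSet (K : Set (V d))) v ∪
      ⋃ z ∈ K \ K', box {ω : Om d | Rch (opn (pc d) ω) v z}
        {ω : Om d | RchT (opn (pc d) ω) z (ghost false s ω)} := by
  classical
  rintro ω ⟨g, hg, h1, h2⟩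
  by_cases h3 : Rch ((Del.ofSet (K : Set (V d))).rem ((Del.ofSet (K' : Set (V d))).rem (Oc ω))) v g
  · left
    refine ⟨g, hg, fun h4 => hv (Finset.mem_coe.1 h4), h3.mono ?_⟩
    rintro e ⟨he, he1, he2⟩
    exact ⟨he.1, he1, he2⟩
  · right
    obtain ⟨z, hz, S1, S2, hS1, hS2, hf1, hf2, hd, hr1, hr2⟩ := detourR h2 h3
    have hzK : z ∈ K := Finset.mem_coe.1 hz
    have hzK' : z ∉ K' := by
      intro hz'
      have hne : v ≠ z := fun h4 => hv (h4 ▸ hzK)
      rcases Relation.ReflTransGen.cases_tail hr1 with h4 | ⟨b, -, hb⟩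
      · exact hne h4.symm
      · exact (hS1 hb).2.2 z (Sym2.mem_mk_right b z) (Finset.mem_coe.2 hz')
    refine Set.mem_iUnion₂.2 ⟨z, Finset.mem_sdiff.2 ⟨hzK, hzK'⟩, ?_⟩
    refine ⟨hf1.toFinset.image Sum.inl, insert (Sum.inr (g, false)) (hf2.toFinset.image Sum.inl),
      ?_, ?_, ?_⟩
    · rw [Finset.disjoint_left]
      intro i hi hi'
      obtain ⟨e, he, rfl⟩ := Finset.mem_image.1 hi
      rcases Finset.mem_insert.1 hi' with h4 | h4
      · exact absurd h4 (by simp)
      · obtain ⟨e', he', h5⟩ := Finset.mem_image.1 h4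
        have h6 : e' = e := Sum.inl_injective h5
        rw [h6] at he'
        exact Set.disjoint_left.1 hd (hf1.mem_toFinset.1 he) (hf2.mem_toFinset.1 he')
    · refine Rch.mono (sub_restr (fun e he => (hS1 he).1) ?_) hr1
      intro e he
      exact Finset.mem_coe.2 (Finset.mem_image.2 ⟨e, hf1.mem_toFinset.2 he, rfl⟩)
    · refine ⟨g, ?_, Rch.mono (sub_restr (fun e he => (hS2 he).1) ?_) hr2⟩
      · show ((restr _ ω (Sum.inr (g, false)) : unitInterval) : ℝ) ≤ 1 - Real.exp (-s)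
        rw [restr_of_mem ω (Finset.mem_coe.2 (Finset.mem_insert_self _ _))]
        exact hg
      · intro e he
        exact Finset.mem_coe.2 (Finset.mem_insert_of_mem
          (Finset.mem_image.2 ⟨e, hf2.mem_toFinset.2 he, rfl⟩))

theorem psi_lip (hC : Crit d) (h5 : Out5 d) (K' K : Finset (V d)) (v : V d) (h : K' ⊆ K)
    (hv : v ∉ K) :
    psiK K' v - ∑ z ∈ K \ K', (tau (pc d) (z - v)).toReal ≤ psiK K v := by
  have hv1 : v ∉ (Del.ofSet (K : Set (V d))).S := fun h1 => hv (Finset.mem_coe.1 h1)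
  have hv2 : v ∉ (Del.ofSet (K' : Set (V d))).S := fun h1 => hv (h (Finset.mem_coe.1 h1))
  refine le_of_tendsto_of_tendsto
    ((W1_psi hC h5 _ v (Del.ofSet_finite K'.finite_toSet) hv2).sub_const _)
    (W1_psi hC h5 _ v (Del.ofSet_finite K.finite_toSet) hv1) ?_
  filter_upwards [self_mem_nhdsWithin] with s hs
  have hs' : 0 < s := hs
  set T : ℝ := ∑ z ∈ K \ K', (tau (pc d) (z - v)).toReal with hT
  have hT0 : 0 ≤ T := Finset.sum_nonneg fun _ _ => ENNReal.toReal_nonneg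
  have hM0 := EW1_nonneg hC h5 hs' (D0 : Del (V d)) 0 (notMem_D0 0)
  have hM : EW W1 s (D0 : Del (V d)) 0 = (Mg d (pc d) s).toReal := EW1_eq hC h5 s hs' 0
  have hmeas : ∀ z ∈ K \ K', Pr d (box {ω : Om d | Rch (opn (pc d) ω) v z}
      {ω : Om d | RchT (opn (pc d) ω) z (ghost false s ω)}) ≤
        tau (pc d) (z - v) * Mg d (pc d) s := by
    intro z _
    have h1 := bk2_Pr (d := d) ((opn_MES (pc d)).rch v z)
      ((opn_MES (pc d)).rchT (ghost_MVS false s) z) (isUp_rch (pc d) v z)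
      (isUp_rchT (pc d) s z)
    rw [tau_shift, Mg_shift] at h1
    exact h1
  have key : Pr d (RE s (Del.ofSet (K' : Set (V d))) v) ≤
      Pr d (RE s (Del.ofSet (K : Set (V d))) v) +
        ∑ z ∈ K \ K', tau (pc d) (z - v) * Mg d (pc d) s :=
    (measure_mono (RE_cover s K' K v hv)).trans ((measure_union_le _ _).trans
      (add_le_add le_rfl ((measure_biUnion_finset_le _ _).trans (Finset.sum_le_sum hmeas))))
  have hMt : Mg d (pc d) s ≠ ⊤ := measure_ne_top _ _
  have htt : ∀ z : V d, tau (pc d) (z - v) ≠ ⊤ := fun z => measure_ne_top _ _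
  have key2 : EW W1 s (Del.ofSet (K' : Set (V d))) v ≤
      EW W1 s (Del.ofSet (K : Set (V d))) v + T * EW W1 s (D0 : Del (V d)) 0 := by
    rw [EW1_RE hC h5 hs' _ v hv1, EW1_RE hC h5 hs' _ v hv2, hM]
    have h1 := ENNReal.toReal_mono (ENNReal.add_ne_top.2 ⟨measure_ne_top _ _,
      ENNReal.sum_ne_top.2 fun z _ => ENNReal.mul_ne_top (htt z) hMt⟩) key
    rw [ENNReal.toReal_add (measure_ne_top _ _)
      (ENNReal.sum_ne_top.2 fun z _ => ENNReal.mul_ne_top (htt z) hMt),
      ENNReal.toReal_sum fun z _ => ENNReal.mul_ne_top (htt z) hMt] at h1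
    refine h1.trans (le_of_eq ?_)
    rw [hT, Finset.sum_mul]
    congr 1
    exact Finset.sum_congr rfl fun z _ => ENNReal.toReal_mul
  rcases hM0.eq_or_lt with h0 | h0
  · rw [← h0, div_zero, div_zero]
    linarith
  · rw [sub_le_iff_le_add, div_le_iff₀ h0, add_mul, div_mul_cancel₀ _ h0.ne']
    exact key2

theorem psi_shift (hC : Crit d) (h5 : Out5 d) (K : Finset (V d)) (v z : V d) (hv : v ∉ K) :
    psi (Del.ofSet ((fun x => x + z) '' (K : Set (V d)))) (v + z) = psiK K v := by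
  have hv1 : v ∉ (Del.ofSet (K : Set (V d))).S := fun h1 => hv (Finset.mem_coe.1 h1)
  have hv2 : v + z ∉ (Del.ofSet ((fun x => x + z) '' (K : Set (V d)))).S := by
    rintro ⟨x, hx, hx'⟩
    have : x = v := add_right_cancel hx'
    rw [this] at hx
    exact hv (Finset.mem_coe.1 hx)
  have h1 := W1_psi hC h5 _ v (Del.ofSet_finite K.finite_toSet) hv1
  have h2 := W1_psi hC h5 _ (v + z) (Del.ofSet_finite (K.finite_toSet.image _)) hv2
  refine tendsto_nhds_unique h2 (h1.congr' ?_)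
  filter_upwards [self_mem_nhdsWithin] with s hs
  have hs' : 0 < s := hs
  congr 1
  rw [EW1_RE hC h5 hs' _ v hv1, EW1_RE hC h5 hs' _ (v + z) hv2]
  congr 1
  rw [← Pr_act (trI z) (RE s (Del.ofSet (K : Set (V d))) v)]
  congr 1
  have himg : (Del.ofSet (K : Set (V d))).img (trI z) =
      Del.ofSet ((fun x => x + z) '' (K : Set (V d))) := by
    unfold Del.img Del.ofSet
    rw [Set.image_empty]
    rfl
  ext ω
  constructor
  · rintro ⟨g, hg, -, h4⟩
    refine ⟨(trI z) g, hg, hv2, ?_⟩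
    rw [← himg]
    exact (Rch_rem_act (trI_aut z) (pc d) ω _ v g).1 h4
  · rintro ⟨g, hg, -, h4⟩
    refine ⟨(trI z).symm g, ?_, hv1, ?_⟩
    · rw [mem_ghost_act, Equiv.apply_symm_apply]
      exact hg
    · refine (Rch_rem_act (trI_aut z) (pc d) ω _ v _).2 ?_
      rw [Equiv.apply_symm_apply, himg]
      exact h4

theorem out6 (hC : Crit d) (h5 : Out5 d) : Out6 d where
  psi_D0 := psi_D0'
  psi_nonneg := psi_nonneg hC h5
  psi_le := psi_le hC h5
  psi_anti := psi_anti hC h5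
  psi_lip := psi_lip hC h5
  psi_shift := psi_shift hC h5
  mixing := fun _ _ hW A y hA hy => mixing hC h5 hW A y hA hy
  loc := fun B H hH W c hW A y hA hy => locmix hC h5 B H hH A y hA hy W c hW
  isLSF := isLSF_Wf
  W1_psi := fun A y hA hy => W1_psi hC h5 A y hA hy

end Pool.Agent.PB
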