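import Pool.Agent.PB.Outs
import Pool.Agent.PB.Basic
import Pool.Agent.PB.Meas
import Pool.Agent.PB.BK
import Pool.Agent.PB.P.Expl
import Pool.Agent.PB.P.Act
import Pool.Agent.PB.P.BKw
import Pool.Agent.PB.P.Tau

/-!
# PB / Mix / D2P: 6.3 (b)
Plan. `Vs A y` is finite. Fix `a, a' ∈ Vs`. (1) `g ≠ g'`: `{∃ g ≠ g' ∈ G, DisjConn O ![(a,g),(a',g')]} ⊆ dOcc ![{a → G}, {a' → G}]`
(witness: finite edge sets by `DisjConn.exists_finite`, plus the ghost label of `g`, resp. `g'`), so probability `≤ Mg(σ)²` by `bk_Pr` and translation invariance;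
`Mg ≤ C √σ`, so `≤ C² σ`. (2) `g = g'`: `∑_g Pr{g ∈ G} Pr{DisjConn O ![(a,g),(a',g)]} ≤ σ ∑_g τ(g-a) τ(g-a') ≤ σ sup_x τ*τ(x) ≤ σ (Bm 2)`-type bound
(BK; `∑_g τ(g-a)τ(g-a') ≤ ∑_g (τ(g-a)^2 + τ(g-a')^2)/2·...`, or simply `2 a b ≤ a² + b²`: `≤ ∑ τ² = Bm d pc 2 < ∞`, since `Bm 2 ≤ Bm 8`:
`τ(0) = 1` gives `cpow τ m 0 ≤ cpow τ (m+1) 0`). The ghost label of `g` is independent of the edges. Sum over the finitely many `(a,a')`.
-/

set_option autoImplicit false
open MeasureTheory Filter Topology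
open scoped ENNReal BigOperators

namespace Pool.Agent.PB

variable {d : ℕ}

theorem D2P_ofSet_empty_rem {W : Type*} (O : Set (Sym2 W)) : (Del.ofSet (∅ : Set W)).rem O = O := by
  ext e; simp [Del.rem, Del.ofSet]

/-- probability of a ghost at `g` -/
theorem D2P_mem_ghost_le (b : Bool) {h : ℝ} (hh : 0 ≤ h) (g : V d) :
    Pr d {ω : Om d | g ∈ ghost b h ω} ≤ ENNReal.ofReal h := by
  have h1 := Pr_ghost_fin (d := d) b hh {g}
  have h2 : {ω : Om d | g ∈ ghost b h ω} = {ω : Om d | ∀ v ∈ ({g} : Finset (V d)), v ∉ ghost b h ω}ᶜ := by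
    ext ω; simp
  have hm : MeasurableSet {ω : Om d | ∀ v ∈ ({g} : Finset (V d)), v ∉ ghost b h ω} := by
    have h3 := (ghost_MVS (d := d) b h g).compl
    have h4 : {ω : Om d | ∀ v ∈ ({g} : Finset (V d)), v ∉ ghost b h ω} =
        {ω : Om d | g ∈ ghost b h ω}ᶜ := by
      ext ω; simp
    rw [h4]; exact h3
  rw [h2, measure_compl hm (measure_ne_top _ _), measure_univ, h1]
  simp only [Finset.card_singleton, Nat.cast_one, mul_one]
  rw [← ENNReal.ofReal_one, ← ENNReal.ofReal_sub _ (Real.exp_pos _).le]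
  refine ENNReal.ofReal_le_ofReal ?_
  linarith [Real.add_one_le_exp (-h)]

/-- common endpoint in the ghost set -/
theorem D2P_common_ghost_le (p : ℝ) (b : Bool) {h : ℝ} (hh : 0 ≤ h) (a a' : V d) :
    Pr d {ω : Om d | ∃ g ∈ ghost b h ω, DisjConn (opn p ω) ![(a, g), (a', g)]} ≤
      ENNReal.ofReal h * Bm d p 2 := by
  have h1 : {ω : Om d | ∃ g ∈ ghost b h ω, DisjConn (opn p ω) ![(a, g), (a', g)]} =
      ⋃ g : V d, ({ω : Om d | g ∈ ghost b h ω} ∩
        {ω : Om d | DisjConn (opn p ω) ![(a, g), (a', g)]}) := by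
    ext ω; simp
  rw [h1]
  refine (measure_iUnion_le _).trans ?_
  have h2 : ∀ g : V d, Pr d ({ω : Om d | g ∈ ghost b h ω} ∩
      {ω : Om d | DisjConn (opn p ω) ![(a, g), (a', g)]}) ≤
      ENNReal.ofReal h * (tau p (g - a) * tau p (g - a')) := by
    intro g
    have hdis : Disjoint ({Sum.inr (g, b)} : Set (Ix d)) (Set.range (Sum.inl : Sym2 (V d) → Ix d)) := by
      rw [Set.disjoint_left]
      rintro i hi ⟨e, rfl⟩
      cases hi
    have hd1 : DependsOn (fun ω : Om d => ω ∈ {ω : Om d | g ∈ ghost b h ω})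
        ({Sum.inr (g, b)} : Set (Ix d)) := by
      intro ω ω' hω
      have := hω (Sum.inr (g, b)) rfl
      simp only [ghost, Set.mem_ofPred_eq, this]
    have hd2 : DependsOn (fun ω : Om d => ω ∈
        {ω : Om d | DisjConn (opn p ω) ![(a, g), (a', g)]})
        (Set.range (Sum.inl : Sym2 (V d) → Ix d)) := by
      have h3 := dep_opn (d := d) p Set.univ (S := Set.range (Sum.inl : Sym2 (V d) → Ix d))
        (fun e _ => ⟨e, rfl⟩)
      intro ω ω' hω
      have h4 := h3 hω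
      simp only [Set.inter_univ] at h4
      simp only [Set.mem_ofPred_eq, h4]
    rw [Pr_inter_dep hdis (ghost_MVS b h g) ((opn_MES p).disjConn _) hd1 hd2]
    refine mul_le_mul' (D2P_mem_ghost_le b hh g) ?_
    have h5 := Pr_disjConn_le (d := d) p (Del.ofSet ∅) ![(a, g), (a', g)]
    simp only [D2P_ofSet_empty_rem, Fin.prod_univ_two, Matrix.cons_val_zero, Matrix.cons_val_one] at h5
    exact h5
  refine (ENNReal.tsum_le_tsum h2).trans ?_
  rw [ENNReal.tsum_mul_left]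
  refine mul_le_mul' le_rfl ?_
  have h3 : ∑' g : V d, tau p (g - a) * tau p (g - a') = conv (tau p) (tau p) (a' - a) := by
    have h4 := (Equiv.addRight a).tsum_eq (fun g : V d => tau p (g - a) * tau p (g - a'))
    rw [← h4, ← tsum_mul_sub (tau_neg p)]
    refine tsum_congr fun x => ?_
    simp only [Equiv.coe_addRight, add_sub_cancel_right]
    congr 2
    abel
  rw [h3, Bm, cpow_two]
  exact conv_self_le (tau_neg p) _

theorem D2P (hC : Crit d) (h5 : Out5 d) (A : Del (V d)) (hA : A.Finite) (y : V d) :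
    ∃ C : ℝ, 0 < C ∧ ∀ σ : ℝ, 0 < σ → σ ≤ 1 →
      (Pr d {ω : Om d | D2 (Oc ω) y A (ghost false σ ω)}).toReal ≤ C * σ := by
  classical
  obtain ⟨C₁, hC₁, hb⟩ := h5.bounds
  have hV : (Vs A y).Finite := (Del.verts_finite hA).union (Set.finite_singleton y)
  have hB2 : Bm d (pc d) 2 < ⊤ := (Bm_mono_m (pc d) (by norm_num : 2 ≤ 8)).trans_lt hC.B8
  set n : ℕ := hV.toFinset.card with hn
  refine ⟨(n : ℝ) * (n : ℝ) * (C₁ * C₁ + (Bm d (pc d) 2).toReal) + 1, by positivity, ?_⟩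
  intro σ hσ hσ1
  have hsub : {ω : Om d | D2 (Oc ω) y A (ghost false σ ω)} ⊆
      ⋃ a ∈ hV.toFinset, ⋃ a' ∈ hV.toFinset,
        ({ω : Om d | ∃ g ∈ ghost false σ ω, ∃ g' ∈ ghost false σ ω, g ≠ g' ∧
            DisjConn ((Del.ofSet ∅).rem (opn (pc d) ω)) (Matrix.vecCons (a, g) (Matrix.vecCons (a', g') ![]))} ∪
          {ω : Om d | ∃ g ∈ ghost false σ ω, DisjConn (opn (pc d) ω) ![(a, g), (a', g)]}) := by
    rintro ω ⟨a, ha, a', ha', g, hg, g', hg', hc⟩
    simp only [Set.mem_iUnion, Set.Finite.mem_toFinset, exists_prop]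
    refine ⟨a, ha, a', ha', ?_⟩
    by_cases hgg : g = g'
    · subst hgg
      right
      exact ⟨g, hg, hc⟩
    · left
      refine ⟨g, hg, g', hg', hgg, ?_⟩
      rw [D2P_ofSet_empty_rem]
      exact hc
  have hMg : Mg d (pc d) σ * Mg d (pc d) σ ≤ ENNReal.ofReal (C₁ * C₁ * σ) := by
    have h1 := (hb σ hσ hσ1).1
    have h2 : Mg d (pc d) σ ≠ ⊤ := measure_ne_top _ _
    have h3 : Mg d (pc d) σ ≤ ENNReal.ofReal (C₁ * Real.sqrt σ) := by
      rw [← ENNReal.ofReal_toReal h2]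
      exact ENNReal.ofReal_le_ofReal h1
    calc Mg d (pc d) σ * Mg d (pc d) σ
        ≤ ENNReal.ofReal (C₁ * Real.sqrt σ) * ENNReal.ofReal (C₁ * Real.sqrt σ) := mul_le_mul' h3 h3
      _ = ENNReal.ofReal (C₁ * C₁ * σ) := by
          rw [← ENNReal.ofReal_mul (by positivity)]
          congr 1
          have := Real.mul_self_sqrt hσ.le
          calc C₁ * Real.sqrt σ * (C₁ * Real.sqrt σ) = C₁ * C₁ * (Real.sqrt σ * Real.sqrt σ) := by ring
            _ = C₁ * C₁ * σ := by rw [this]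
  have hle : Pr d {ω : Om d | D2 (Oc ω) y A (ghost false σ ω)} ≤
      ENNReal.ofReal ((n : ℝ) * (n : ℝ) * (C₁ * C₁ + (Bm d (pc d) 2).toReal) * σ) := by
    refine (measure_mono hsub).trans ?_
    refine (measure_biUnion_finset_le _ _).trans ?_
    have h1 : ∀ a ∈ hV.toFinset, Pr d (⋃ a' ∈ hV.toFinset,
        ({ω : Om d | ∃ g ∈ ghost false σ ω, ∃ g' ∈ ghost false σ ω, g ≠ g' ∧
            DisjConn ((Del.ofSet ∅).rem (opn (pc d) ω)) (Matrix.vecCons (a, g) (Matrix.vecCons (a', g') ![]))} ∪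
          {ω : Om d | ∃ g ∈ ghost false σ ω, DisjConn (opn (pc d) ω) ![(a, g), (a', g)]})) ≤
        (n : ℝ≥0∞) * ENNReal.ofReal ((C₁ * C₁ + (Bm d (pc d) 2).toReal) * σ) := by
      intro a _
      refine (measure_biUnion_finset_le _ _).trans ?_
      have h2 : ∀ a' ∈ hV.toFinset, Pr d
        ({ω : Om d | ∃ g ∈ ghost false σ ω, ∃ g' ∈ ghost false σ ω, g ≠ g' ∧
            DisjConn ((Del.ofSet ∅).rem (opn (pc d) ω)) (Matrix.vecCons (a, g) (Matrix.vecCons (a', g') ![]))} ∪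
          {ω : Om d | ∃ g ∈ ghost false σ ω, DisjConn (opn (pc d) ω) ![(a, g), (a', g)]}) ≤
          ENNReal.ofReal ((C₁ * C₁ + (Bm d (pc d) 2).toReal) * σ) := by
        intro a' _
        refine (measure_union_le _ _).trans ?_
        have h3 := Pr_conn_ghost_ne_le (d := d) (pc d) σ false (Del.ofSet ∅) a a' ![]
        simp only [Finset.univ_eq_empty, Finset.prod_empty, mul_one] at h3
        have h4 := D2P_common_ghost_le (d := d) (pc d) false hσ.le a a'
        refine (add_le_add (h3.trans hMg) h4).trans (le_of_eq ?_)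
        rw [add_mul, ENNReal.ofReal_add (by positivity) (by positivity), mul_comm (ENNReal.ofReal σ),
          ENNReal.ofReal_mul ENNReal.toReal_nonneg, ENNReal.ofReal_toReal hB2.ne]
      refine (Finset.sum_le_sum h2).trans (le_of_eq ?_)
      rw [Finset.sum_const, nsmul_eq_mul]
    refine (Finset.sum_le_sum h1).trans (le_of_eq ?_)
    rw [Finset.sum_const, nsmul_eq_mul, ← hn, mul_assoc ((n : ℝ) * (n : ℝ)),
      ENNReal.ofReal_mul (p := (n : ℝ) * (n : ℝ)) (by positivity),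
      ENNReal.ofReal_mul (p := (n : ℝ)) (by positivity), ENNReal.ofReal_natCast,
      mul_assoc (n : ℝ≥0∞)]
  have h0 : (0 : ℝ) ≤ (n : ℝ) * (n : ℝ) * (C₁ * C₁ + (Bm d (pc d) 2).toReal) * σ := by positivity
  have h6 := ENNReal.toReal_mono ENNReal.ofReal_ne_top hle
  rw [ENNReal.toReal_ofReal h0] at h6
  refine h6.trans ?_
  nlinarith

end Pool.Agent.PB
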