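import Pool.Agent.PB.Outs
import Pool.Agent.PB.Basic
import Pool.Agent.PB.G.KernB
import Pool.Agent.PB.G.KernC

/-!
# PB / Mix / GF: the facts of Section 2 used in Section 6 (helper88): 2.1, 2.5, 2.6
`dec`: 2.5, (iii) gives two edge-disjoint connections from `V(A) ∪ {y}` to `T`. `first`: the first edge separating `Vs` from `T` (2.1; exists because the cluster of `y` is finite).
(`Vs A y` is finite; only the cluster of `y` is assumed finite.)
-/

set_option autoImplicit false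
open MeasureTheory Filter Topology
open scoped ENNReal BigOperators

namespace Pool.Agent.PB

variable {d : ℕ}

/-- the facts of Section 2 used in Section 6 (finite clusters) -/
structure GFacts (d : ℕ) : Prop where
  dec : ∀ (O : Set (Sym2 (V d))) (A : Del (V d)) (y : V d) (T : Set (V d)), y ∉ A.S → A.Finite →
    (Cl O y).Finite → RchT O y T → RchA A O y T ∨ (∃ u v K, KC O y A T u v K) ∨ D2 O y A T
  conv : ∀ (O : Set (Sym2 (V d))) (A : Del (V d)) (y : V d) (T : Set (V d)) (u v : V d)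
    (K : Set (V d)), KC O y A T u v K → RchT O y T ∧ ¬ RchA A O y T
  uniq : ∀ (O : Set (Sym2 (V d))) (A : Del (V d)) (y : V d) (T : Set (V d)) (u v : V d)
    (K : Set (V d)) (u' v' : V d) (K' : Set (V d)),
      KC O y A T u v K → KC O y A T u' v' K' → u = u' ∧ v = v' ∧ K = K'
  first : ∀ (O : Set (Sym2 (V d))) (A : Del (V d)) (y : V d) (T : Set (V d)), y ∉ A.S → A.Finite →
    (Cl O y).Finite → RchA A O y T → ¬ D2 O y A T →
      ∃ u v, s(u, v) ∈ O ∧ u ∈ Cl (del1 O s(u, v)) y ∧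
      v ∉ Cl (del1 O s(u, v)) y ∧ (∀ a ∈ Vs A y, ¬ RchT (del1 O s(u, v)) a T) ∧
      RchT ((Del.ofSet (Cl (del1 O s(u, v)) y)).rem O) v T ∧
      ∃ a ∈ Vs A y, ∃ a' ∈ Vs A y, DisjConn (del1 O s(u, v)) ![(a, u), (a', u)]
  nosep : ∀ (O : Set (Sym2 (V d))) (A : Del (V d)) (y : V d) (T : Set (V d)) (u v : V d)
    (K : Set (V d)), (Cl O y).Finite → KC O y A T u v K →
      ∃ a ∈ Vs A y, ∃ a' ∈ Vs A y, DisjConn (del1 O s(u, v)) ![(a, u), (a', u)]

theorem kc_iff {W : Type*} {O : Set (Sym2 W)} {y : W} {A : Del W} {T : Set W} {u v : W}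
    {K : Set W} : KC O y A T u v K ↔ Cl (del1 O s(u, v)) y = K ∧ KD O y T A u v := by
  constructor
  · rintro ⟨h1, rfl, h3, h4, h5, h6⟩
    refine ⟨rfl, h1, h4, h3, Set.disjoint_left.2 h5, ?_⟩
    rw [rchA_ofSet]
    obtain ⟨t, ht, hr⟩ := h6
    exact ⟨h3, t, ht, hr⟩
  · rintro ⟨rfl, h1, h4, h3, h5, h6⟩
    obtain ⟨_, t, ht, hr⟩ := rchA_ofSet.1 h6
    exact ⟨h1, rfl, h3, h4, Set.disjoint_left.1 h5, t, ht, hr⟩

theorem two_iff_exists {W : Type*} {O : Set (Sym2 W)} {D : Set W} {u : W} (h : Two O D {u}) :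
    ∃ a ∈ D, ∃ a' ∈ D, DisjConn O ![(a, u), (a', u)] := by
  obtain ⟨a, ha, a', ha', t, ht, t', ht', hc⟩ := h
  obtain rfl : t = u := ht
  obtain rfl : t' = t := ht'
  exact ⟨a, ha, a', ha', hc⟩

/-- instance of Section 2 -/
theorem gfacts (d : ℕ) : GFacts d where
  dec O A y T _ _ _ h := by
    rcases kernel_exists A h with h1 | ⟨u, v, h1⟩ | h1
    · exact Or.inl h1
    · exact Or.inr (Or.inl ⟨u, v, _, kc_iff.2 ⟨rfl, h1⟩⟩)
    · exact Or.inr (Or.inr (CaseIII.two h h1))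
  conv O A y T u v K h := by
    have h1 := (kc_iff.1 h).2
    exact ⟨h1.rchT, h1.not_rchA⟩
  uniq O A y T u v K u' v' K' h h' := by
    obtain ⟨rfl, h1⟩ := kc_iff.1 h
    obtain ⟨rfl, h1'⟩ := kc_iff.1 h'
    obtain ⟨rfl, rfl⟩ := h1.unique h1'
    exact ⟨rfl, rfl, rfl⟩
  first O A y T _ _ _ h h2 := by
    obtain ⟨t, ht, htA⟩ := h
    have hyV : y ∈ Vs A y := Or.inr rfl
    have hyt : Rch O y t := ClA_subset_Cl A O y htA
    rcases menger_first (O := O) (D := Vs A y) (T := T) ⟨t, ⟨y, hyV, hyt⟩, ht⟩ with h3 |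
      ⟨z, z', he, hTwo, hz', hdis⟩
    · exact absurd h3 h2
    · have hsub : ClS (del1 O s(z, z')) {y} ⊆ ClS (del1 O s(z, z')) (Vs A y) :=
        ClS_mono_right _ (Set.singleton_subset_iff.2 hyV)
      obtain ⟨u, v, hE, hp⟩ := piv_of_sep (O := O) (D := {y}) (T := T) (e := s(z, z'))
        ⟨t, ⟨y, rfl, hyt⟩, ht⟩ he (hdis.mono_left hsub)
      obtain ⟨hp1, hp2, hp3, hp4, hp5⟩ := hp
      rw [← hE] at hp2
      have huz : u = z ∧ v = z' := by
        rcases Sym2.eq_iff.1 hE with ⟨rfl, rfl⟩ | ⟨rfl, rfl⟩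
        · exact ⟨rfl, rfl⟩
        · exact absurd (hsub hp2) hz'
      obtain ⟨rfl, rfl⟩ := huz
      rw [ClS_singleton] at hp2 hp3 hp5
      refine ⟨u, v, he, hp2, hp3, ?_, ?_, two_iff_exists hTwo⟩
      · rintro a ha ⟨t', ht', hr⟩
        exact Set.disjoint_left.1 hdis ⟨a, ha, hr⟩ ht'
      · obtain ⟨t', ht', hr⟩ := hp5
        exact ⟨t', ht', hr⟩
  nosep O A y T u v K _ h := by
    obtain ⟨_, h1⟩ := kc_iff.1 h
    exact two_iff_exists (EPrime.two h1.2.1)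

end Pool.Agent.PB
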