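import Pool.Agent.PB.Crit

/-!
# PROJECT PB, Section 6: definitions (large scale functionals, kernel powers, psi)
-/

set_option autoImplicit false
open MeasureTheory Filter Topology
open scoped ENNReal BigOperators

namespace Pool.Agent.PB

variable {d : ℕ}

/-- translation of an edge set -/
def shE (z : V d) (O : Set (Sym2 (V d))) : Set (Sym2 (V d)) := Sym2.map (fun x => x + z) '' O

/-- `Vs = V(A) ∪ {y}` -/
def Vs {W : Type*} (A : Del W) (y : W) : Set W := A.verts ∪ {y}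

/-- critical open edges -/
noncomputable def Oc (ω : Om d) : Set (Sym2 (V d)) := opn (pc d) ω

/-- A family `W = (W_s)` of large scale functionals of the cluster of `y` in `O` (Section 6.0),
with constant `c`. Convention: `W s O y = 0` if the cluster is infinite (this is contained in `bd`,
since then `Nc O y = 0`). -/
structure IsLSF (W : ℝ → Set (Sym2 (V d)) → V d → ℝ) (c : ℝ) : Prop where
  one_le : 1 ≤ c
  bd : ∀ s : ℝ, 0 < s → s ≤ 1 → ∀ O y, |W s O y| ≤ c * min 1 (s * (Nc O y : ℝ))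
  transl : ∀ s : ℝ, ∀ O y z, W s (shE z O) (y + z) = W s O y
  /-- depends only on the cluster and the status of the edges touching it -/
  loc : ∀ s : ℝ, ∀ O O' y, (Cl O y).Finite →
    (∀ e ∈ touch (Cl O y), (e ∈ O ↔ e ∈ O')) → W s O y = W s O' y
  /-- cutting the cluster at an edge `(u,v)` -/
  cut : ∀ s : ℝ, 0 < s → s ≤ 1 → ∀ O y u v, s(u, v) ∈ O → (Cl O y).Finite →
    u ∈ Cl (del1 O s(u, v)) y → v ∉ Cl (del1 O s(u, v)) y →
    |W s O y - W s ((Del.ofSet (Cl (del1 O s(u, v)) y)).rem O) v|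
      ≤ c * s * ((Cl (del1 O s(u, v)) y).ncard : ℝ)

/-- `W_s^A(O,y)` -/
noncomputable def WA (W : ℝ → Set (Sym2 (V d)) → V d → ℝ) (s : ℝ) (A : Del (V d))
    (O : Set (Sym2 (V d))) (y : V d) : ℝ := by
  classical exact if y ∈ A.S then 0 else W s (A.rem O) y

/-- `E[W_s^A(O,y)]` at `p_c` -/
noncomputable def EW (W : ℝ → Set (Sym2 (V d)) → V d → ℝ) (s : ℝ) (A : Del (V d)) (y : V d) : ℝ :=
  ∫ ω, WA W s A (Oc ω) y ∂(Pr d)

/-- no deletion -/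
def D0 {W : Type*} : Del W := Del.ofSet ∅

/-- `(E^n 1)(A,y)` for the restricted kernel at `p_c` -/
noncomputable def Epow (d : ℕ) : ℕ → Del (V d) → V d → ℝ≥0∞
  | 0 => fun _ _ => 1
  | n + 1 => fun A y => ER (pc d) (fun K v => Epow d n (Del.ofSet (K : Set (V d))) v) A y

/-- index set of the kernel: `(u, v, K)` -/
abbrev Tr (d : ℕ) := V d × V d × Finset (V d)

/-- the weights of the restricted kernel at `p_c`, as real numbers -/
noncomputable def kw (A : Del (V d)) (y : V d) (q : Tr d) : ℝ :=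
  (kerR (pc d) A y q.1 q.2.1 q.2.2).toReal

/-- `ψ(A,y) = Σ (-1)^n (E^n 1)(A,y)` -/
noncomputable def psi (A : Del (V d)) (y : V d) : ℝ :=
  ∑' n : ℕ, (-1 : ℝ) ^ n * (Epow d n A y).toReal

/-- `ψ(K,v)` for a finite vertex set -/
noncomputable def psiK (K : Finset (V d)) (v : V d) : ℝ := psi (Del.ofSet (K : Set (V d))) v

/-- `π(R) = P(0 → Λ_R(0)^c)` at `p_c` -/
noncomputable def piR (d : ℕ) (R : ℕ) : ℝ≥0∞ :=
  Pr d {ω : Om d | RchT (Oc ω) (0 : V d) (bx R 0)ᶜ}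

/-- kernel cut (case (ii) of 2.5): `e = {u,v}`, `K = C(O \ e, y)` -/
def KC {W : Type*} (O : Set (Sym2 W)) (y : W) (A : Del W) (T : Set W) (u v : W) (K : Set W) : Prop :=
  s(u, v) ∈ O ∧ Cl (del1 O s(u, v)) y = K ∧ v ∉ K ∧ EPrime (del1 O s(u, v)) y u A ∧
    (∀ x ∈ K, x ∉ T) ∧ RchT ((Del.ofSet K).rem O) v T

/-- two edge-disjoint connections from `V(A) ∪ {y}` to `T` -/
def D2 {W : Type*} (O : Set (Sym2 W)) (y : W) (A : Del W) (T : Set W) : Prop :=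
  ∃ a ∈ Vs A y, ∃ a' ∈ Vs A y, ∃ g ∈ T, ∃ g' ∈ T, DisjConn O ![(a, g), (a', g')]

/-- the nonlocal event of 6.3 (d) -/
def Nl (O : Set (Sym2 (V d))) (y : V d) (A : Del (V d)) (T : Set (V d)) (R1 R2 : ℕ) : Prop :=
  ∃ u v, s(u, v) ∈ O ∧ u ∈ Cl (del1 O s(u, v)) y ∧ v ∉ Cl (del1 O s(u, v)) y ∧
    RchT ((Del.ofSet (Cl (del1 O s(u, v)) y)).rem O) v T ∧
    ((u ∉ bx R1 y ∧ ∃ a ∈ Vs A y, ∃ a' ∈ Vs A y, DisjConn (del1 O s(u, v)) ![(a, u), (a', u)]) ∨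
      (u ∈ bx R1 y ∧ ¬ Cl (del1 O s(u, v)) y ⊆ bx R2 y))

/-- `L_R(O,x)`: cluster of `x` in the box `Λ_R(x)` -/
def Lb (R : ℕ) (O : Set (Sym2 (V d))) (x : V d) : Set (V d) := Cl (O ∩ ins (bx R x)) x

/-- `L_R(O,x) - x` -/
def Lb0 (R : ℕ) (O : Set (Sym2 (V d))) (x : V d) : Set (V d) := (fun z => z - x) '' Lb R O x

/-- `Y(O,y) = Σ_{x ∈ C(O,y)} g(L_R(O,x) - x)` (0 if the cluster is infinite) -/
noncomputable def Yf (R : ℕ) (g : Set (V d) → ℝ) (O : Set (Sym2 (V d))) (y : V d) : ℝ := by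
  classical exact if h : (Cl O y).Finite then ∑ x ∈ h.toFinset, g (Lb0 R O x) else 0

/-- the functional `w_s(N,Y)` -/
noncomputable def Wf (R : ℕ) (g : Set (V d) → ℝ) (w : ℝ → ℕ → ℝ → ℝ) (s : ℝ)
    (O : Set (Sym2 (V d))) (y : V d) : ℝ := w s (Nc O y) (Yf R g O y)

/-- condition (W) of 6.0 on the region `|Y| ≤ c0 N` -/
structure IsW (w : ℝ → ℕ → ℝ → ℝ) (c0 c : ℝ) : Prop where
  zero_le : 0 ≤ c0
  one_le : 1 ≤ c
  zero : ∀ s, w s 0 0 = 0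
  bd : ∀ s : ℝ, 0 < s → s ≤ 1 → ∀ (N : ℕ) (Y : ℝ), |Y| ≤ c0 * N → |w s N Y| ≤ c * min 1 (s * N)
  lip : ∀ s : ℝ, 0 < s → s ≤ 1 → ∀ (N N' : ℕ) (Y Y' : ℝ), |Y| ≤ c0 * N → |Y'| ≤ c0 * N' →
    |w s N Y - w s N' Y'| ≤ c * s * (|(N : ℝ) - N'| + |Y - Y'|)

end Pool.Agent.PB
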