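import Pool.Agent.PB.Outs
import Pool.Agent.PB.Basic
import Pool.Agent.PB.Meas
import Pool.Agent.PB.Link
import Pool.Agent.PB.P.Act

/-!
# PB / Mix / FunB: basic facts on large scale functionals
Plan.
* `Nc_rem_le`: the cluster off `A` is a subset of the cluster; if the cluster of `y` is finite use `Set.ncard_le_ncard`.
* `WA_abs_le`: from `bd`. `WA_le_c`: `min 1 _ ≤ 1`.
* `WA_measurable`: `ω ↦ WA W s A (Oc ω) y` takes only countably many ... : for a finite vertex set `K` and a finite set `F` of edges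
  touching `K` the event `{Cl (A.rem (Oc ω)) y = K, A.rem (Oc ω) ∩ touch K = F}` is measurable (Meas.lean; `touch K ∩ (lat d).edgeSet` is finite)
  and `W` is constant on it (`loc`); if the cluster is infinite `Nc = 0` and `W = 0` by `bd` (for `0 < s ≤ 1`). The pairs `(K, F)` of finsets are
  countable: use `measurable_to_countable'`-like argument: `f ⁻¹' t = ⋃_{(K,F)} ...`, or write `f = Σ'` / `Measurable.piecewise`; simplest:
  show that `f` factors through the measurable map `ω ↦ (code : Option (Finset (V d) × Finset (Sym2 (V d))))` into a countable discrete space.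
* `EW_abs_le`: `|EW| ≤ c E[min(1, s N)] ≤ c · C E[1-e^{-sN}]`, `min 1 x ≤ 2 (1 - e^{-x})`, and `E[1 - e^{-sN}] ≤ Mr d (pc d) s ≤ C √s`
  (`E[1-e^{-sN}] = Mr` needs the ghost integration; here only `≤`: use `hM` given as hypothesis).
-/

set_option autoImplicit false
open MeasureTheory Filter Topology
open scoped ENNReal BigOperators

namespace Pool.Agent.PB

variable {d : ℕ}

theorem Nc_rem_le (A : Del (V d)) (O : Set (Sym2 (V d))) (y : V d) (h : (Cl O y).Finite) :
    Nc (A.rem O) y ≤ Nc O y := by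
  unfold Nc
  exact Set.ncard_le_ncard (Cl_mono (A.rem_subset O) y) h

theorem WA_abs_le {W : ℝ → Set (Sym2 (V d)) → V d → ℝ} {c : ℝ} (hW : IsLSF W c) {s : ℝ}
    (hs : 0 < s) (hs1 : s ≤ 1) (A : Del (V d)) (O : Set (Sym2 (V d))) (y : V d) :
    |WA W s A O y| ≤ c * min 1 (s * (Nc (A.rem O) y : ℝ)) := by
  unfold WA
  split_ifs with h
  · rw [abs_zero]
    have h1 : (0 : ℝ) ≤ min 1 (s * (Nc (A.rem O) y : ℝ)) :=
      le_min zero_le_one (mul_nonneg hs.le (Nat.cast_nonneg _))
    exact mul_nonneg (zero_le_one.trans hW.one_le) h1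
  · exact hW.bd s hs hs1 _ _

theorem WA_le_c {W : ℝ → Set (Sym2 (V d)) → V d → ℝ} {c : ℝ} (hW : IsLSF W c) {s : ℝ}
    (hs : 0 < s) (hs1 : s ≤ 1) (A : Del (V d)) (O : Set (Sym2 (V d))) (y : V d) :
    |WA W s A O y| ≤ c := by
  refine (WA_abs_le hW hs hs1 A O y).trans ?_
  have h0 : 0 ≤ c := zero_le_one.trans hW.one_le
  calc c * min 1 (s * (Nc (A.rem O) y : ℝ)) ≤ c * 1 :=
        mul_le_mul_of_nonneg_left (min_le_left _ _) h0
    _ = c := mul_one c

/-- finitely many lattice edges touch a finite set -/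
theorem FunB_touch_finite (K : Finset (V d)) :
    (touch (K : Set (V d)) ∩ (lat d).edgeSet).Finite := by
  classical
  have hfin : ((K ×ˢ U1 d).image (fun q : V d × V d => s(q.1, q.1 + q.2)) : Set (Sym2 (V d))).Finite :=
    Finset.finite_toSet _
  refine hfin.subset ?_
  rintro e ⟨⟨x, hxe, hxK⟩, he⟩
  induction e using Sym2.ind with
  | _ a b =>
    have hab : l1 (b - a) = 1 := he
    have hba : l1 (a - b) = 1 := ((lat d).adj_comm a b).1 he
    rw [Finset.mem_coe, Finset.mem_image]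
    rcases Sym2.mem_iff.1 hxe with rfl | rfl
    · refine ⟨(x, b - x), Finset.mem_product.2 ⟨hxK, (mem_U1 _).2 hab⟩, ?_⟩
      simp
    · refine ⟨(x, a - x), Finset.mem_product.2 ⟨hxK, (mem_U1 _).2 hba⟩, ?_⟩
      simp [Sym2.eq_swap]

/-- every functional of the cluster is measurable: `f` depends only on the finite cluster and the status of the
edges touching it, and is constant on infinite clusters -/
theorem measurable_of_cluster {β : Type*} [MeasurableSpace β] (A : Del (V d)) (p : ℝ) (y : V d)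
    (f : Set (Sym2 (V d)) → β) (b : β)
    (hf : ∀ O O' : Set (Sym2 (V d)), (Cl O y).Finite →
      (∀ e ∈ touch (Cl O y), (e ∈ O ↔ e ∈ O')) → f O = f O')
    (hinf : ∀ O, ¬ (Cl O y).Finite → f O = b) :
    Measurable (fun ω : Om d => f (A.rem (opn p ω))) := by
  classical
  intro t _
  have hS : MES (fun ω : Om d => A.rem (opn p ω)) := (opn_MES p).rem A
  have hcl := hS.cl y
  have key : (fun ω : Om d => f (A.rem (opn p ω))) ⁻¹' t =
      ({ω : Om d | (Cl (A.rem (opn p ω)) y).Infinite} ∩ {_ω | b ∈ t}) ∪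
      ⋃ K : Finset (V d), ⋃ F : Finset (Sym2 (V d)),
        (({ω : Om d | Cl (A.rem (opn p ω)) y = (K : Set (V d))} ∩
          ⋂ e : Sym2 (V d), {ω : Om d | e ∈ A.rem (opn p ω) ∧ e ∈ touch (K : Set (V d)) ↔ e ∈ F}) ∩
          {_ω | ∃ O' : Set (Sym2 (V d)), Cl O' y = (K : Set (V d)) ∧
            (∀ e, e ∈ O' ∧ e ∈ touch (K : Set (V d)) ↔ e ∈ F) ∧ f O' ∈ t}) := by
    ext ω
    simp only [Set.mem_preimage, Set.mem_union, Set.mem_inter_iff, Set.mem_ofPred_eq,
      Set.mem_iUnion, Set.mem_iInter]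
    constructor
    · intro h
      by_cases hfin : (Cl (A.rem (opn p ω)) y).Finite
      · right
        have hK : ((hfin.toFinset : Finset (V d)) : Set (V d)) = Cl (A.rem (opn p ω)) y := by
          simp
        have hF : (A.rem (opn p ω) ∩ touch ((hfin.toFinset : Finset (V d)) : Set (V d))).Finite := by
          refine (FunB_touch_finite hfin.toFinset).subset ?_
          rintro e ⟨h1, h2⟩
          exact ⟨h2, (A.rem_subset _ h1).1⟩
        refine ⟨hfin.toFinset, hF.toFinset, ⟨hK.symm, fun e => ?_⟩,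
          ⟨A.rem (opn p ω), hK.symm, fun e => ?_, h⟩⟩
        · rw [Set.Finite.mem_toFinset]; exact Iff.rfl
        · rw [Set.Finite.mem_toFinset]; exact Iff.rfl
      · left
        exact ⟨hfin, by rw [← hinf _ hfin]; exact h⟩
    · rintro (⟨h1, h2⟩ | ⟨K, F, ⟨h1, h2⟩, O', h3, h4, h5⟩)
      · rw [hinf _ h1]; exact h2
      · have : f (A.rem (opn p ω)) = f O' := by
          refine hf _ _ (by rw [h1]; exact K.finite_toSet) ?_
          intro e he
          rw [h1] at he
          constructor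
          · intro h
            exact ((h4 e).2 ((h2 e).1 ⟨h, he⟩)).1
          · intro h
            exact ((h2 e).2 ((h4 e).1 ⟨h, he⟩)).1
        rw [this]; exact h5
  rw [key]
  refine (hcl.infinite.inter (MeasurableSet.const _)).union ?_
  refine MeasurableSet.iUnion fun K => MeasurableSet.iUnion fun F => ?_
  refine ((hcl.eq_set _).inter (MeasurableSet.iInter fun e => ?_)).inter (MeasurableSet.const _)
  have h1 : MeasurableSet {ω : Om d | e ∈ A.rem (opn p ω) ∧ e ∈ touch (K : Set (V d))} :=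
    (hS e).inter (MeasurableSet.const (e ∈ touch (K : Set (V d))))
  by_cases hF : e ∈ F
  · simpa [hF] using h1
  · have h2 : {ω : Om d | e ∈ A.rem (opn p ω) ∧ e ∈ touch (K : Set (V d)) ↔ e ∈ F} =
        {ω : Om d | e ∈ A.rem (opn p ω) ∧ e ∈ touch (K : Set (V d))}ᶜ := by
      ext ω
      exact ⟨fun h h' => hF (h.1 h'), fun h => ⟨fun h' => absurd h' h, fun h' => absurd h' hF⟩⟩
    rw [h2]
    exact h1.compl

theorem WA_measurable {W : ℝ → Set (Sym2 (V d)) → V d → ℝ} {c : ℝ} (hW : IsLSF W c) {s : ℝ}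
    (hs : 0 < s) (hs1 : s ≤ 1) (A : Del (V d)) (y : V d) :
    Measurable (fun ω : Om d => WA W s A (Oc ω) y) := by
  by_cases hy : y ∈ A.S
  · have : (fun ω : Om d => WA W s A (Oc ω) y) = fun _ => 0 := by
      funext ω; simp [WA, hy]
    rw [this]; exact measurable_const
  · have : (fun ω : Om d => WA W s A (Oc ω) y) =
        fun ω : Om d => (fun O => W s O y) (A.rem (opn (pc d) ω)) := by
      funext ω; simp [WA, hy, Oc]
    rw [this]
    refine measurable_of_cluster A (pc d) y (fun O => W s O y) 0 ?_ ?_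
    · intro O O' hfin he
      exact hW.loc s O O' y hfin he
    · intro O hO
      have h1 := hW.bd s hs hs1 O y
      have h2 : Nc O y = 0 := Set.Infinite.ncard hO
      rw [h2] at h1
      simp only [Nat.cast_zero, mul_zero] at h1
      have h3 : min (1 : ℝ) 0 = 0 := min_eq_right zero_le_one
      rw [h3, mul_zero] at h1
      exact abs_eq_zero.1 (le_antisymm h1 (abs_nonneg _))

theorem WA_integrable {W : ℝ → Set (Sym2 (V d)) → V d → ℝ} {c : ℝ} (hW : IsLSF W c) {s : ℝ}
    (hs : 0 < s) (hs1 : s ≤ 1) (A : Del (V d)) (y : V d) :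
    Integrable (fun ω : Om d => WA W s A (Oc ω) y) (Pr d) := by
  refine Integrable.of_bound (WA_measurable hW hs hs1 A y).aestronglyMeasurable c ?_
  refine Filter.Eventually.of_forall fun ω => ?_
  rw [Real.norm_eq_abs]
  exact WA_le_c hW hs hs1 A _ y

/-- elementary inequality -/
theorem FunB_min_le {x : ℝ} (hx : 0 ≤ x) : min 1 x ≤ 2 * (1 - Real.exp (-x)) := by
  have h1 : 1 + x ≤ Real.exp x := by linarith [Real.add_one_le_exp x]
  have h2 : Real.exp (-x) ≤ 1 / (1 + x) := by
    rw [Real.exp_neg, one_div]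
    exact inv_anti₀ (by linarith) h1
  have h3 : 1 - 1 / (1 + x) = x / (1 + x) := by
    field_simp; ring
  have h4 : min 1 x ≤ 2 * (x / (1 + x)) := by
    rw [mul_div_assoc', le_div_iff₀ (by linarith)]
    rcases le_total x 1 with h | h
    · rw [min_eq_right h]; nlinarith
    · rw [min_eq_left h]; nlinarith
  linarith

/-- the size of the cluster is measurable -/
theorem FunB_Nc_measurable (p : ℝ) (y : V d) : Measurable (fun ω : Om d => Nc (opn p ω) y) := by
  have h := ((opn_MES (d := d) p).cl y).encard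
  have h2 : (fun ω : Om d => Nc (opn p ω) y) =
      fun ω : Om d => ((Cl (opn p ω) y).encard).toNat := rfl
  rw [h2]
  exact (Measurable.of_discrete (f := ENat.toNat)).comp h

theorem FunB_Nc_act (p : ℝ) (ω : Om d) (y : V d) :
    Nc (opn p (act (trI y) ω)) 0 = Nc (opn p ω) y := by
  unfold Nc
  have : Cl (opn p (act (trI y) ω)) 0 = (trI y) ⁻¹' Cl (opn p ω) y := by
    ext x
    simp only [Cl, Set.mem_ofPred_eq, Set.mem_preimage]
    rw [Rch_act (trI_aut y)]
    simp [trI_apply]
  rw [this]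
  exact Set.ncard_preimage_of_injective_subset_range (trI y).injective
    (by rw [(trI y).surjective.range_eq]; exact Set.subset_univ _)

theorem EW_abs_le {W : ℝ → Set (Sym2 (V d)) → V d → ℝ} {c : ℝ} (hW : IsLSF W c) {C : ℝ}
    (hth : theta d (pc d) = 0)
    (hM : ∀ s : ℝ, 0 < s → s ≤ 1 →
      ∫ ω, (1 - Real.exp (-(s * (Nc (Oc ω) (0 : V d) : ℝ)))) ∂(Pr d) ≤ C * Real.sqrt s)
    {s : ℝ} (hs : 0 < s) (hs1 : s ≤ 1) (A : Del (V d)) (y : V d) :
    |EW W s A y| ≤ 2 * c * C * Real.sqrt s := by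
  have h0 : 0 ≤ c := zero_le_one.trans hW.one_le
  have hmeas : Measurable (fun ω : Om d =>
      (1 - Real.exp (-(s * (Nc (Oc ω) y : ℝ))))) := by
    have h1 : Measurable (fun ω : Om d => (Nc (Oc ω) y : ℝ)) :=
      measurable_from_nat.comp (FunB_Nc_measurable (pc d) y)
    exact measurable_const.sub ((h1.const_mul s).neg.exp)
  have hint : Integrable (fun ω : Om d =>
      (1 - Real.exp (-(s * (Nc (Oc ω) y : ℝ))))) (Pr d) := by
    refine Integrable.of_bound hmeas.aestronglyMeasurable 1 ?_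
    refine Filter.Eventually.of_forall fun ω => ?_
    have h1 : 0 < Real.exp (-(s * (Nc (Oc ω) y : ℝ))) := Real.exp_pos _
    have h2 : Real.exp (-(s * (Nc (Oc ω) y : ℝ))) ≤ 1 :=
      Real.exp_le_one_iff.2 (neg_nonpos.2 (mul_nonneg hs.le (Nat.cast_nonneg _)))
    rw [Real.norm_eq_abs, abs_le]
    constructor <;> linarith
  have hae : ∀ᵐ ω ∂(Pr d), (Cl (Oc ω) y).Finite := by
    have h1 : Pr d {ω : Om d | (Cl (opn (pc d) ω) y).Infinite} = 0 := by
      rw [theta_shift, hth]
    have h2 := measure_eq_zero_iff_ae_notMem.1 h1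
    filter_upwards [h2] with ω hω
    exact Set.not_infinite.1 hω
  have hshift : ∫ ω, (1 - Real.exp (-(s * (Nc (Oc ω) y : ℝ)))) ∂(Pr d) =
      ∫ ω, (1 - Real.exp (-(s * (Nc (Oc ω) (0 : V d) : ℝ)))) ∂(Pr d) := by
    have h1 := (act_mp (d := d) (trI y)).integral_comp
      (relab (autI (trI y))).measurableEmbedding
      (fun ω : Om d => (1 - Real.exp (-(s * (Nc (Oc ω) (0 : V d) : ℝ)))))
    rw [← h1]
    refine integral_congr_ae (Filter.Eventually.of_forall fun ω => ?_)
    simp only [Oc, FunB_Nc_act]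
  have hle : ∀ᵐ ω ∂(Pr d), |WA W s A (Oc ω) y| ≤
      2 * c * (1 - Real.exp (-(s * (Nc (Oc ω) y : ℝ)))) := by
    filter_upwards [hae] with ω hω
    have h1 := WA_abs_le hW hs hs1 A (Oc ω) y
    have h2 : (Nc (A.rem (Oc ω)) y : ℝ) ≤ (Nc (Oc ω) y : ℝ) := by
      exact_mod_cast Nc_rem_le A (Oc ω) y hω
    have h3 : min 1 (s * (Nc (A.rem (Oc ω)) y : ℝ)) ≤ min 1 (s * (Nc (Oc ω) y : ℝ)) :=
      min_le_min_left _ (mul_le_mul_of_nonneg_left h2 hs.le)
    have h4 := FunB_min_le (x := s * (Nc (Oc ω) y : ℝ))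
      (mul_nonneg hs.le (Nat.cast_nonneg _))
    calc |WA W s A (Oc ω) y| ≤ c * min 1 (s * (Nc (A.rem (Oc ω)) y : ℝ)) := h1
      _ ≤ c * (2 * (1 - Real.exp (-(s * (Nc (Oc ω) y : ℝ))))) :=
          mul_le_mul_of_nonneg_left (h3.trans h4) h0
      _ = 2 * c * (1 - Real.exp (-(s * (Nc (Oc ω) y : ℝ)))) := by ring
  calc |EW W s A y| ≤ ∫ ω, |WA W s A (Oc ω) y| ∂(Pr d) := abs_integral_le_integral_abs
    _ ≤ ∫ ω, 2 * c * (1 - Real.exp (-(s * (Nc (Oc ω) y : ℝ)))) ∂(Pr d) :=
        integral_mono_ae (WA_integrable hW hs hs1 A y).abs (hint.const_mul _) hle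
    _ = 2 * c * ∫ ω, (1 - Real.exp (-(s * (Nc (Oc ω) (0 : V d) : ℝ)))) ∂(Pr d) := by
        rw [integral_const_mul, hshift]
    _ ≤ 2 * c * (C * Real.sqrt s) :=
        mul_le_mul_of_nonneg_left (hM s hs hs1) (mul_nonneg zero_le_two h0)
    _ = 2 * c * C * Real.sqrt s := by ring

end Pool.Agent.PB
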