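import Pool.Agent.PB.LE.EcalB
import Pool.Agent.PB.Mix.Defs
import Pool.Agent.PB.Mix.FunB

/-!
# PB / Mix / EpowBd (from 4.2, 4.3; helper58)
`ER ≤ Ecal`: for `v ∉ K`, `K = C(O\e,y)`: `EPrime (del1 O e) y u A ↔ EPrime O y u A`, so `kerR ≤ ker`, and `Epow n ≤` the iterates of `Ecal` on 1:
`(Ecal^n 1)(A,y) ≤ Σ_{a∈V(A)} (τ*b_{n-1})(a-y) ≤ |V(A)| ‖b_{n-1}‖_1 ≤ |V(A)| 2 d p B_3 ρ^{n-1}`, `ρ ≤ 4 B_4 s_3 ≤ 1/25`.
-/

set_option autoImplicit false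
open MeasureTheory Filter Topology
open scoped ENNReal BigOperators

namespace Pool.Agent.PB

variable {d : ℕ}

theorem sup_J_tau2_le (p : ℝ) :
    supn (conv (J p) (conv (tau (d := d) p) (tau p))) ≤ sm d p 3 := by
  unfold sm
  refine supn_mono fun x => conv_mono (fun _ => le_rfl) (fun z => ?_) x
  rw [← cpow_two]
  exact cpow_le_cpow (LE.tz p) (by norm_num) z

theorem sup_J_tau3_le (p : ℝ) :
    supn (conv (J p) (conv (tau (d := d) p) (conv (tau p) (tau p)))) ≤ sm d p 3 := by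
  unfold sm
  rw [← cpow_three]

/-- `Epow (n+1) ≤ Σ_{a ∈ V(A)} (τ * b)(a - y)`, `‖b‖ ≤ (4 B_4 s_3)^n ‖J‖ B_4` -/
theorem Epow_le_Sg (d : ℕ) (n : ℕ) : ∃ b : V d → ℝ≥0∞,
    nrm b ≤ (4 * Bm d (pc d) 4 * sm d (pc d) 3) ^ n *
      (nrm (J (d := d) (pc d)) * Bm d (pc d) 4) ∧
    ∀ (A : Del (V d)) (y : V d),
      Epow d (n + 1) A y ≤ LE.Sg (conv (tau (pc d)) b) A.verts y := by
  induction n with
  | zero =>
    obtain ⟨b1, h1, h2⟩ := LE.ecal_one_le (d := d) (pc d)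
    refine ⟨b1, ?_, fun A y => ?_⟩
    · rw [pow_zero, one_mul]; exact h1
    · exact (LE.ER_le_Ecal (pc d) _ A y).trans (h2 A y)
  | succ n ih =>
    obtain ⟨b, h1, h2⟩ := ih
    obtain ⟨b', h3, h4⟩ := LE.ecal_le_B (d := d) (pc d) (σ := tau (pc d)) (b0 := b)
      (B := Bm d (pc d) 4) (s := sm d (pc d) 3) le_rfl (sup_J_tau2_le _) (sup_J_tau3_le _)
    refine ⟨b', ?_, fun A y => ?_⟩
    · calc nrm b' ≤ 4 * Bm d (pc d) 4 * sm d (pc d) 3 * nrm b := h3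
        _ ≤ 4 * Bm d (pc d) 4 * sm d (pc d) 3 *
            ((4 * Bm d (pc d) 4 * sm d (pc d) 3) ^ n *
              (nrm (J (d := d) (pc d)) * Bm d (pc d) 4)) := mul_le_mul' le_rfl h1
        _ = _ := by rw [pow_succ]; ring
    · refine (LE.ER_le_Ecal (pc d) _ A y).trans (h4 _ (fun K v => ?_) A y)
      have := h2 (Del.ofSet (K : Set (V d))) v
      rw [Del.ofSet_verts] at this
      exact this

theorem Epow_bd (hC : Crit d) : ∃ C : ℝ≥0∞, C ≠ ⊤ ∧ ∀ (n : ℕ) (A : Del (V d)) (y : V d),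
    A.Finite → Epow d n A y ≤ (1 + C * (A.verts.ncard : ℝ≥0∞)) * (1 / 2 : ℝ≥0∞) ^ n := by
  have hB4 : Bm d (pc d) 4 ≠ ⊤ := by
    refine ne_top_of_le_ne_top hC.B8.ne ?_
    exact cpow_le_cpow (LE.tz _) (by norm_num) 0
  have hJ : nrm (J (d := d) (pc d)) ≠ ⊤ := by
    rw [nrm_J]
    exact ENNReal.mul_ne_top ENNReal.ofReal_ne_top (ENNReal.natCast_ne_top _)
  obtain ⟨C0, hC0⟩ : ∃ C0, C0 = nrm (J (d := d) (pc d)) * Bm d (pc d) 4 := ⟨_, rfl⟩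
  have hC0t : C0 ≠ ⊤ := by rw [hC0]; exact ENNReal.mul_ne_top hJ hB4
  have hρ : 4 * Bm d (pc d) 4 * sm d (pc d) 3 ≤ 1 / 2 := by
    calc 4 * Bm d (pc d) 4 * sm d (pc d) 3 = 4 * (Bm d (pc d) 4 * sm d (pc d) 3) := by ring
      _ ≤ 4 * ENNReal.ofReal (1 / 100) := mul_le_mul' le_rfl hC.small
      _ = ENNReal.ofReal (4 * (1 / 100)) := by
          rw [ENNReal.ofReal_mul (by norm_num)]; norm_num
      _ ≤ ENNReal.ofReal (1 / 2) := ENNReal.ofReal_le_ofReal (by norm_num)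
      _ = 1 / 2 := by
          rw [ENNReal.ofReal_div_of_pos (by norm_num)]; norm_num
  refine ⟨2 * C0, ENNReal.mul_ne_top (by norm_num) hC0t, fun n A y hA => ?_⟩
  cases n with
  | zero =>
    simp only [pow_zero, mul_one]
    exact le_self_add
  | succ n =>
    obtain ⟨b, h1, h2⟩ := Epow_le_Sg d n
    have h3 : nrm b ≤ (1 / 2 : ℝ≥0∞) ^ n * C0 := by
      rw [hC0]
      exact h1.trans (mul_le_mul' (pow_le_pow_left' hρ n) le_rfl)
    calc Epow d (n + 1) A y ≤ LE.Sg (conv (tau (pc d)) b) A.verts y := h2 A y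
      _ ≤ (A.verts.ncard : ℝ≥0∞) * nrm b :=
          LE.Sg_le_ncard (Del.verts_finite hA) (fun x => LE.conv_le_nrm _ b x) y
      _ ≤ (A.verts.ncard : ℝ≥0∞) * ((1 / 2 : ℝ≥0∞) ^ n * C0) := mul_le_mul' le_rfl h3
      _ = (2 * C0 * (A.verts.ncard : ℝ≥0∞)) * (1 / 2 : ℝ≥0∞) ^ (n + 1) := by
          have h4 : (2 : ℝ≥0∞) * (1 / 2) = 1 := ENNReal.mul_div_cancel (by norm_num) (by norm_num)
          calc (A.verts.ncard : ℝ≥0∞) * ((1 / 2 : ℝ≥0∞) ^ n * C0)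
              = (A.verts.ncard : ℝ≥0∞) * ((1 / 2 : ℝ≥0∞) ^ n * C0) * (2 * (1 / 2)) := by
                rw [h4, mul_one]
            _ = _ := by rw [pow_succ]; ring
      _ ≤ _ := mul_le_mul' le_add_self le_rfl

end Pool.Agent.PB
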