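import Pool.Agent.PB.Mix.Contr
import Pool.Agent.PB.Mix.EpowBd
import Pool.Agent.PB.P.Expl

/-!
# PB / Mix / KerB: bounds for the powers of the restricted kernel at `p_c`, and `ψ = 1 - E ψ`
`Epow_bd` comes from 4.2/4.3 (helper58, diagram lemma at `p_c`): `ER ≤ Ecal` because for `v ∉ K`, `K = C(O\e,y)`: `EPrime (del1 O e) y u A ↔ EPrime O y u A`
(helper88 D5; if `u ∉ K` then neither holds for ... `EPrime (del1 O e) y u A` implies `u ∈ K`), so `kerR ≤ ker`, and `Epow n ≤` the iterates of `Ecal` on 1: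
`(Ecal^n 1)(A,y) ≤ Σ_{a∈V(A)} (τ*b_{n-1})(a-y) ≤ |V(A)| ‖b_{n-1}‖_1 ≤ |V(A)| 2 d p B_3 ρ^{n-1}`, `ρ ≤ 4 B_4 s_3 ≤ 1/25`.
`psi_eq`: instance of `Contr.psiA_eq` with `St = Del × V`, `T = Tr d`, `Contr.pow = Epow` (`ENNReal.tsum_prod`).
`psi_D0`: `Epow 1 D0 y = 0`: `EPrime _ y u D0` is impossible (`ClA D0 O y = Cl O y`), and all higher powers vanish as well.
-/

set_option autoImplicit false
open MeasureTheory Filter Topology
open scoped ENNReal BigOperators

namespace Pool.Agent.PB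

variable {d : ℕ}

/-- the kernel as a kernel system -/
noncomputable def wK (σ : Del (V d) × V d) (q : Tr d) : ℝ≥0∞ :=
  kerR (pc d) σ.1 σ.2 q.1 q.2.1 q.2.2

/-- target of the jump -/
def tK (q : Tr d) : Del (V d) × V d := (Del.ofSet (q.2.2 : Set (V d)), q.2.1)

/-- good states -/
def GoodK (σ : Del (V d) × V d) : Prop := σ.1.Finite ∧ σ.2 ∉ σ.1.S

theorem tsum_tr (f : Tr d → ℝ≥0∞) :
    ∑' q : Tr d, f q = ∑' u : V d, ∑' v : V d, ∑' K : Finset (V d), f (u, v, K) := by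
  rw [ENNReal.tsum_prod']
  refine tsum_congr fun u => ?_
  rw [ENNReal.tsum_prod']

theorem pow_wK (n : ℕ) (A : Del (V d)) (y : V d) :
    Contr.pow (wK (d := d)) tK n (A, y) = Epow d n A y := by
  induction n generalizing A y with
  | zero => rfl
  | succ n ih =>
    show ∑' q : Tr d, wK (A, y) q * Contr.pow (wK (d := d)) tK n (tK q) = _
    rw [tsum_tr]
    show _ = ER (pc d) (fun K v => Epow d n (Del.ofSet (K : Set (V d))) v) A y
    unfold ER
    refine tsum_congr fun u => tsum_congr fun v => tsum_congr fun K => ?_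
    show kerR (pc d) A y u v K * Contr.pow (wK (d := d)) tK n (Del.ofSet (K : Set (V d)), v) = _
    rw [ih]

theorem goodK (σ : Del (V d) × V d) (hσ : GoodK σ) (q : Tr d) (hq : wK σ q ≠ 0) :
    GoodK (tK q) := by
  obtain ⟨u, v, K⟩ := q
  refine ⟨Del.ofSet_finite K.finite_toSet, ?_⟩
  show v ∉ (K : Set (V d))
  intro hv
  apply hq
  show kerR (pc d) σ.1 σ.2 u v K = 0
  unfold kerR
  have : {ω : Om d | EPrime (del1 (opn (pc d) ω) s(u, v)) σ.2 u σ.1 ∧
      Cl (del1 (opn (pc d) ω) s(u, v)) σ.2 = (K : Set (V d)) ∧ v ∉ K} = ∅ := by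
    ext ω
    simp only [Set.mem_ofPred_eq, Set.mem_empty_iff_false, iff_false]
    rintro ⟨_, _, h⟩
    exact h (Finset.mem_coe.1 hv)
  rw [this, measure_empty, mul_zero]

theorem sum_Epow (hC : Crit d) (A : Del (V d)) (y : V d) (hA : A.Finite) :
    ∑' n, Epow d n A y ≠ ⊤ := by
  obtain ⟨C, hCt, h⟩ := Epow_bd hC
  have h1 : ∑' n, Epow d n A y ≤
      ∑' n : ℕ, (1 + C * (A.verts.ncard : ℝ≥0∞)) * (1 / 2 : ℝ≥0∞) ^ n :=
    ENNReal.tsum_le_tsum fun n => h n A y hA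
  refine ne_top_of_le_ne_top ?_ h1
  rw [ENNReal.tsum_mul_left, ENNReal.tsum_geometric]
  have h2 : (1 - 1 / 2 : ℝ≥0∞)⁻¹ ≠ ⊤ := by
    rw [ENNReal.inv_ne_top]
    intro h0
    rw [tsub_eq_zero_iff_le] at h0
    have : (1 / 2 : ℝ≥0∞) < 1 := by
      rw [ENNReal.div_lt_iff (Or.inl two_ne_zero) (Or.inl ENNReal.ofNat_ne_top), one_mul]
      exact ENNReal.one_lt_two
    exact absurd h0 (not_le.2 this)
  refine ENNReal.mul_ne_top ?_ h2
  exact ENNReal.add_ne_top.2 ⟨ENNReal.one_ne_top, ENNReal.mul_ne_top hCt (ENNReal.natCast_ne_top _)⟩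

theorem sumK (hC : Crit d) (σ : Del (V d) × V d) (hσ : GoodK σ) :
    ∑' n, Contr.pow (wK (d := d)) tK n σ ≠ ⊤ := by
  obtain ⟨A, y⟩ := σ
  have : (fun n => Contr.pow (wK (d := d)) tK n (A, y)) = fun n => Epow d n A y := by
    funext n; exact pow_wK n A y
  rw [this]
  exact sum_Epow hC A y hσ.1

theorem psiA_wK (A : Del (V d)) (y : V d) : Contr.psiA (wK (d := d)) tK (A, y) = psi A y := by
  unfold Contr.psiA psi
  refine tsum_congr fun n => ?_
  rw [pow_wK]

theorem psi_eq (hC : Crit d) (A : Del (V d)) (y : V d) (hA : A.Finite) (hy : y ∉ A.S) :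
    Summable (fun q : Tr d => kw A y q * psi (Del.ofSet (q.2.2 : Set (V d))) q.2.1) ∧
      psi A y = 1 - ∑' q : Tr d, kw A y q * psi (Del.ofSet (q.2.2 : Set (V d))) q.2.1 := by
  have h := Contr.psiA_eq (wK (d := d)) tK GoodK goodK (sumK hC) (A, y) ⟨hA, hy⟩
  have h1 : (fun q : Tr d => (wK (A, y) q).toReal * Contr.psiA (wK (d := d)) tK (tK q)) =
      fun q : Tr d => kw A y q * psi (Del.ofSet (q.2.2 : Set (V d))) q.2.1 := by
    funext q
    have h2 : tK q = (Del.ofSet (q.2.2 : Set (V d)), q.2.1) := rfl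
    rw [h2, psiA_wK]
    rfl
  rw [h1, psiA_wK] at h
  exact h

theorem kw_summable (hC : Crit d) (A : Del (V d)) (y : V d) (hA : A.Finite) (hy : y ∉ A.S) :
    Summable (fun q : Tr d => kw A y q) := by
  show Summable (fun q : Tr d => (wK (A, y) q).toReal)
  refine ENNReal.summable_toReal ?_
  have h1 : ∑' q : Tr d, wK (A, y) q = Epow d 1 A y := by
    rw [← pow_wK]
    show _ = ∑' q : Tr d, wK (A, y) q * Contr.pow (wK (d := d)) tK 0 (tK q)
    refine tsum_congr fun q => ?_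
    show _ = wK (A, y) q * 1
    rw [mul_one]
  rw [h1]
  exact ne_top_of_le_ne_top (sum_Epow hC A y hA) (ENNReal.le_tsum 1)

theorem Epow_D0 (n : ℕ) (y : V d) : Epow d (n + 1) (D0 : Del (V d)) y = 0 := by
  show ER (pc d) (fun K v => Epow d n (Del.ofSet (K : Set (V d))) v) D0 y = 0
  unfold ER
  rw [ENNReal.tsum_eq_zero]
  intro u
  rw [ENNReal.tsum_eq_zero]
  intro v
  rw [ENNReal.tsum_eq_zero]
  intro K
  have : kerR (pc d) (D0 : Del (V d)) y u v K = 0 := by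
    unfold kerR
    have : {ω : Om d | EPrime (del1 (opn (pc d) ω) s(u, v)) y u D0 ∧
        Cl (del1 (opn (pc d) ω) s(u, v)) y = (K : Set (V d)) ∧ v ∉ K} = ∅ := by
      ext ω
      simp only [Set.mem_ofPred_eq, Set.mem_empty_iff_false, iff_false]
      rintro ⟨⟨h1, h2, _⟩, _, _⟩
      apply h2
      refine ⟨by simp [D0, Del.ofSet], ?_⟩
      have h3 : (D0 : Del (V d)).rem (del1 (opn (pc d) ω) s(u, v)) =
          del1 (opn (pc d) ω) s(u, v) := by
        ext e; simp [D0, Del.rem, Del.ofSet]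
      rw [h3]
      exact h1
    rw [this, measure_empty, mul_zero]
  rw [this, zero_mul]

theorem psi_D0' (y : V d) : psi (D0 : Del (V d)) y = 1 := by
  unfold psi
  rw [tsum_eq_single 0]
  · show (-1 : ℝ) ^ 0 * ((1 : ℝ≥0∞)).toReal = 1
    simp
  · intro n hn
    obtain ⟨m, rfl⟩ := Nat.exists_eq_succ_of_ne_zero hn
    rw [Epow_D0]
    simp

end Pool.Agent.PB
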