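import Pool.Agent.PB.Mix.SmallG

/-!
# PB / Mix / MainT: the main term of 6.3 (e)
The event `KC (Oc ω) y A G u v K` is the intersection of
 E1 = {s(u,v) ∈ Oc ω} (label of `e`), E2 = {EPrime (del1 O e) y u A, Cl (del1 O e) y = K, v ∉ K} (labels of the edges touching `K` except `e`),
 E3 = {K ∩ G = ∅} (ghosts in `K`), E4 = {RchT ((ofSet K).rem O) v G} (labels of edges not touching `K`, ghosts outside `K`).
`WA W s (ofSet K) (Oc ω) v` depends on the labels of the edges not touching `K`. Independence: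
`E[1_KC · WA] = Pr E1 · Pr E2 · e^{-σ|K|} · E[1_E4 · WA]`, and `Pr E1 · Pr E2 = kerR`.
`|E[1_E4 WA] - EW| ≤ E[1{¬ E4} |WA|] ≤ C √κ √s` (`smallG`), `|1 - e^{-x}| ≤ x`, `|WA| ≤ c`.
-/

set_option autoImplicit false
open MeasureTheory Filter Topology
open scoped ENNReal BigOperators

namespace Pool.Agent.PB

variable {d : ℕ}

/-! ### `EPrime` only depends on the edges touching the cluster -/

private theorem mt_eprime_touch {W : Type*} {O : Set (Sym2 W)} {K : Set W} {y u : W} (A : Del W)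
    (hK : Cl O y = K) : EPrime O y u A ↔ EPrime (O ∩ touch K) y u A := by
  have hy : y ∈ K := by rw [← hK]; exact self_mem_Cl O y
  have hKP : Cl (O ∩ touch K) y = K := Cl_eq_iff_touch.1 hK
  have h1 : Rch O y u ↔ Rch (O ∩ touch K) y u := by
    have : u ∈ Cl O y ↔ u ∈ Cl (O ∩ touch K) y := by rw [hK, hKP]
    exact this
  have h2 : ∀ x, x ∈ ClA A O y ↔ x ∈ ClA A (O ∩ touch K) y := by
    intro x
    rw [mem_ClA, mem_ClA, rem_inter, ← Rch_sub_touch hK (Del.rem_subset A O) hy]
  have h3 : ∀ (e : Sym2 W) (x : W), Rch (del1 O e) y x ↔ Rch (del1 (O ∩ touch K) e) y x := by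
    intro e x
    rw [del1_inter, ← Rch_sub_touch hK (fun f hf => hf.1) hy]
  unfold EPrime
  rw [← h1, ← h2 u]
  constructor
  · rintro ⟨hu, hA, hs⟩
    refine ⟨hu, hA, fun e he u' hu' hr => ?_⟩
    rw [← h2]
    refine hs e ⟨he.1.1, ?_⟩ u' hu' ((h3 e u').2 hr)
    rintro ⟨t, ht, h⟩
    exact he.2 ⟨t, ht, (h3 e t).1 h⟩
  · rintro ⟨hu, hA, hs⟩
    refine ⟨hu, hA, fun e he u' hu' hr => ?_⟩
    rw [h2]
    have heT : e ∈ touch K := by
      by_contra heT
      refine he.2 ⟨u, rfl, ?_⟩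
      rw [h3]
      have h4 : del1 (O ∩ touch K) e = O ∩ touch K := by
        ext f
        constructor
        · exact fun hf => hf.1
        · intro hf
          refine ⟨hf, ?_⟩
          rintro rfl
          exact heT hf.2
      rw [h4]
      exact h1.1 hu
    refine hs e ⟨⟨he.1, heT⟩, ?_⟩ u' hu' ((h3 e u').1 hr)
    rintro ⟨t, ht, h⟩
    exact he.2 ⟨t, ht, (h3 e t).2 h⟩

/-! ### Independence, real form -/

private theorem mt_indep {S T : Set (Ix d)} (hST : Disjoint S T) {f g : Om d → ℝ}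
    (hf : Measurable f) (hg : Measurable g) (hfS : DependsOn f S) (hgT : DependsOn g T) :
    ∫ ω, f ω * g ω ∂(Pr d) = (∫ ω, f ω ∂(Pr d)) * ∫ ω, g ω ∂(Pr d) := by
  have h1 : ∫ ω, f ω * g ω ∂(Pr d) =
      ∫ q, (fun ω => f ω * g ω) (mix S q.1 q.2) ∂((PrI (Ix d)).prod (PrI (Ix d))) := by
    have h2 := (mix_mp (ι := Ix d) S).map_eq
    rw [Pr_eq]
    conv_lhs => rw [← h2]
    exact integral_map (measurable_mix S).aemeasurable
      (hf.mul hg).aestronglyMeasurable
  rw [h1]
  have h2 : ∀ q : Om d × Om d, (fun ω => f ω * g ω) (mix S q.1 q.2) = f q.1 * g q.2 := by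
    intro q
    change f (mix S q.1 q.2) * g (mix S q.1 q.2) = _
    rw [DependsOn.mix_left hfS subset_rfl, DependsOn.mix_right hgT hST.symm]
  simp_rw [h2]
  exact integral_prod_mul f g

private theorem mt_dep_disj (h : ℝ) (K : Set (V d)) :
    DependsOn (fun ω : Om d => ω ∈ {ω : Om d | ∀ x ∈ K, x ∉ ghost false h ω})
      {i | ∃ v ∈ K, i = Sum.inr (v, false)} := by
  have h1 := dep_ghost (d := d) false h K (S := {i | ∃ v ∈ K, i = Sum.inr (v, false)})
    (fun v hv => ⟨v, hv, rfl⟩)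
  have h2 := dep_comp h1 (fun G : Set (V d) => ∀ x ∈ K, x ∉ G)
  have h3 : ∀ ω : Om d, (∀ x ∈ K, x ∉ ghost false h ω) ↔ (∀ x ∈ K, x ∉ ghost false h ω ∩ K) := by
    intro ω
    exact ⟨fun hh a ha hb => hh a ha hb.1, fun hh a ha hb => hh a ha ⟨hb, ha⟩⟩
  intro ω ω' hω
  have h4 := h2 hω
  simp only [eq_iff_iff] at h4 ⊢
  simp only [Set.mem_ofPred_eq]
  rw [h3, h3]
  exact h4

theorem mainTerm (hC : Crit d) (h5 : Out5 d) {W : ℝ → Set (Sym2 (V d)) → V d → ℝ} {c : ℝ}
    (hW : IsLSF W c) : ∃ C : ℝ, 0 < C ∧ ∀ κ s : ℝ, 0 < κ → κ ≤ 1 → 0 < s → s ≤ κ →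
      ∀ (A : Del (V d)) (y : V d), A.Finite → y ∉ A.S →
      ∀ (u v : V d) (K : Finset (V d)), s(u, v) ∈ (lat d).edgeSet →
        |(∫ ω, Set.indicator {ω : Om d | KC (Oc ω) y A (ghost false (s / κ) ω) u v
            (K : Set (V d))} (fun ω => WA W s (Del.ofSet (K : Set (V d))) (Oc ω) v) ω ∂(Pr d)) -
          kw A y (u, v, K) * EW W s (Del.ofSet (K : Set (V d))) v| ≤
        kw A y (u, v, K) * (C * (Real.sqrt κ * Real.sqrt s) + c * (s / κ) * (K.card : ℝ)) := by
  classical
  obtain ⟨C, hC0, hsm⟩ := smallG hC h5 hW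
  refine ⟨C, hC0, ?_⟩
  intro κ s hκ hκ1 hs hsκ A y hA hy u v K he
  have hs1 : s ≤ 1 := hsκ.trans hκ1
  set σ := s / κ with hσ
  have hσ0 : 0 < σ := div_pos hs hκ
  set p := pc d with hp
  have hp0 : 0 < p := hC.pc_pos
  have hp1 : p < 1 := hC.pc_lt
  -- the trivial cases
  by_cases hcase : u ∈ K ∧ v ∉ K
  swap
  · have h1 : kw A y (u, v, K) = 0 := by
      unfold kw kerR
      have : {ω : Om d | EPrime (del1 (opn (pc d) ω) s(u, v)) y u A ∧
          Cl (del1 (opn (pc d) ω) s(u, v)) y = (K : Set (V d)) ∧ v ∉ K} = ∅ := by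
        ext ω
        simp only [Set.mem_ofPred_eq, Set.mem_empty_iff_false, iff_false]
        rintro ⟨h1, h2, h3⟩
        refine hcase ⟨?_, h3⟩
        have : u ∈ Cl (del1 (opn (pc d) ω) s(u, v)) y := h1.1
        rw [h2] at this
        exact_mod_cast this
      simp only [this, measure_empty, mul_zero, ENNReal.toReal_zero]
    have h2 : {ω : Om d | KC (Oc ω) y A (ghost false σ ω) u v (K : Set (V d))} = ∅ := by
      ext ω
      simp only [Set.mem_ofPred_eq, Set.mem_empty_iff_false, iff_false]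
      rintro ⟨-, h2, h3, h4, -⟩
      refine hcase ⟨?_, by exact_mod_cast h3⟩
      have : u ∈ Cl (del1 (Oc ω) s(u, v)) y := h4.1
      rw [h2] at this
      exact_mod_cast this
    rw [h1, h2]
    simp
  obtain ⟨hu, hv⟩ := hcase
  have huK : u ∈ (K : Set (V d)) := by exact_mod_cast hu
  have hvK : v ∉ (K : Set (V d)) := by exact_mod_cast hv
  have heT : s(u, v) ∈ touch (K : Set (V d)) := mem_touch_left huK
  -- the events
  set A1 : Set (Om d) := {ω | EPrime (del1 (opn p ω) s(u, v)) y u A ∧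
    Cl (del1 (opn p ω) s(u, v)) y = (K : Set (V d))} with hA1
  set A2 : Set (Om d) := {ω | ∀ x ∈ (K : Set (V d)), x ∉ ghost false σ ω} with hA2
  set A0 : Set (Om d) := {ω | s(u, v) ∈ opn p ω} with hA0
  have m0 : MeasurableSet A0 := opn_MES p _
  have m1 : MeasurableSet A1 := (((opn_MES p).del1 _).eprime y u A).inter
    ((((opn_MES p).del1 _).cl y).eq_set _)
  have m2 : MeasurableSet A2 := by
    have : A2 = {ω : Om d | Disjoint (K : Set (V d)) (ghost false σ ω)} := by
      ext ω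
      simp only [hA2, Set.mem_ofPred_eq, Set.disjoint_left]
    rw [this]
    exact measurable_disj (MVS.const _) false σ
  set E4 : Set (Om d) := {ω | RchA (Del.ofSet (K : Set (V d))) (opn p ω) v (ghost false σ ω)}
    with hE4
  have m4 : MeasurableSet E4 := (opn_MES p).rchA (ghost_MVS false σ) _ v
  have hKC : {ω : Om d | KC (Oc ω) y A (ghost false σ ω) u v (K : Set (V d))} =
      (A0 ∩ (A1 ∩ A2)) ∩ E4 := by
    ext ω
    have h1 : RchT ((Del.ofSet (K : Set (V d))).rem (opn p ω)) v (ghost false σ ω) ↔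
        RchA (Del.ofSet (K : Set (V d))) (opn p ω) v (ghost false σ ω) := by
      constructor
      · rintro ⟨t, ht, h⟩; exact ⟨t, ht, hvK, h⟩
      · rintro ⟨t, ht, -, h⟩; exact ⟨t, ht, h⟩
    simp only [KC, Oc, Set.mem_ofPred_eq, Set.mem_inter_iff, hA0, hA1, hA2, hE4]
    rw [← h1]
    constructor
    · rintro ⟨h2, h3, h4, h5, h6, h7⟩
      exact ⟨⟨h2, ⟨h5, h3⟩, h6⟩, h7⟩
    · rintro ⟨⟨h2, ⟨h5, h3⟩, h6⟩, h7⟩
      exact ⟨h2, h3, hvK, h5, h6, h7⟩
  -- dependences
  let S1 : Set (Ix d) := {i | ∃ f ∈ touch (K : Set (V d)) \ {s(u, v)}, i = Sum.inl f}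
  let S2 : Set (Ix d) := {i | ∃ w ∈ (K : Set (V d)), i = Sum.inr (w, false)}
  have d1 : DependsOn (fun ω : Om d => ω ∈ A1) S1 := by
    have h := dep_opn (d := d) p (touch (K : Set (V d)) \ {s(u, v)}) (S := S1)
      fun f hf => ⟨f, hf, rfl⟩
    intro ω ω' hω
    have h1 := h hω
    have h2 : ∀ O : Set (Sym2 (V d)), del1 O s(u, v) ∩ touch (K : Set (V d)) =
        O ∩ (touch (K : Set (V d)) \ {s(u, v)}) := by
      intro O
      ext f; simp only [del1, Set.mem_inter_iff, Set.mem_sdiff]; tauto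
    have h3 : del1 (opn p ω) s(u, v) ∩ touch (K : Set (V d)) =
        del1 (opn p ω') s(u, v) ∩ touch (K : Set (V d)) := by
      rw [h2, h2]; exact h1
    simp only [eq_iff_iff, hA1, Set.mem_ofPred_eq]
    constructor
    · rintro ⟨h4, h5⟩
      have h6 := (Cl_eq_congr h3).1 h5
      refine ⟨?_, h6⟩
      rw [mt_eprime_touch A h6, ← h3, ← mt_eprime_touch A h5]
      exact h4
    · rintro ⟨h4, h5⟩
      have h6 := (Cl_eq_congr h3).2 h5
      refine ⟨?_, h6⟩
      rw [mt_eprime_touch A h6, h3, ← mt_eprime_touch A h5]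
      exact h4
  have d2 : DependsOn (fun ω : Om d => ω ∈ A2) S2 := mt_dep_disj σ (K : Set (V d))
  have d0 : DependsOn (fun ω : Om d => ω ∈ A0) {Sum.inl s(u, v)} := dep_mem_opn p _
  have h12 : Pr d (A1 ∩ A2) = Pr d A1 * Pr d A2 := by
    refine Pr_inter_dep (S := S1) (T := S2) ?_ m1 m2 d1 d2
    rw [Set.disjoint_left]
    rintro i ⟨f, _, rfl⟩ ⟨w, _, hw⟩
    cases hw
  have h012 : Pr d (A0 ∩ (A1 ∩ A2)) = ENNReal.ofReal p * (Pr d A1 *
      ENNReal.ofReal (Real.exp (-(σ * (K.card : ℝ))))) := by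
    have h1 : Pr d A2 = ENNReal.ofReal (Real.exp (-(σ * (K.card : ℝ)))) := by
      rw [← Pr_ghost_fin false hσ0.le K]
      rfl
    rw [← h1, ← h12]
    have h2 : Pr d A0 = ENNReal.ofReal p := by
      rw [hA0, Pr_edge p he, min_eq_left hp1.le]
    rw [← h2]
    refine Pr_inter_dep (S := {Sum.inl s(u, v)}) (T := S1 ∪ S2) ?_ m0 (m1.inter m2) d0
      (dep_inter (d1.mono Set.subset_union_left) (d2.mono Set.subset_union_right))
    rw [Set.disjoint_left]
    intro i hi
    rw [Set.mem_singleton_iff] at hi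
    subst hi
    rintro (⟨f, hf, hf'⟩ | ⟨w, _, hw⟩)
    · exact hf.2 (Sum.inl_injective hf').symm
    · cases hw
  have dE : DependsOn (fun ω : Om d => ω ∈ A0 ∩ (A1 ∩ A2)) (tI (K : Set (V d))) := by
    refine dep_inter (d0.mono ?_) (dep_inter (d1.mono ?_) (d2.mono ?_))
    · intro i hi
      rw [Set.mem_singleton_iff] at hi
      subst hi
      exact inl_mem_tI.2 heT
    · rintro i ⟨f, hf, rfl⟩
      exact inl_mem_tI.2 hf.1
    · rintro i ⟨w, hw, rfl⟩
      exact inr_mem_tI.2 hw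
  have dE4 : DependsOn (fun ω : Om d => ω ∈ E4) (tI (K : Set (V d)))ᶜ :=
    dep_RchA_ghost p σ false v (K : Set (V d))
  set wf : Om d → ℝ := fun ω => WA W s (Del.ofSet (K : Set (V d))) (Oc ω) v with hwf
  have hwm : Measurable wf := WA_measurable hW hs hs1 _ v
  have dW : DependsOn wf (tI (K : Set (V d)))ᶜ := by
    have h1 := dep_rem_ofSet (d := d) p 0 0 (K : Set (V d)) (fun R _ _ => W s R v)
    intro ω ω' hω
    have h2 := h1 hω
    have h3 : ∀ ω : Om d, wf ω = W s ((Del.ofSet (K : Set (V d))).rem (opn p ω)) v := by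
      intro ω
      simp only [hwf, WA, Oc]
      rw [if_neg (by simpa [Del.ofSet] using hv)]
    rw [h3, h3]
    exact h2
  -- the product formula
  have hprod : ∫ ω, Set.indicator {ω : Om d | KC (Oc ω) y A (ghost false σ ω) u v
      (K : Set (V d))} wf ω ∂(Pr d) =
      (Pr d (A0 ∩ (A1 ∩ A2))).toReal * ∫ ω, Set.indicator E4 wf ω ∂(Pr d) := by
    have h1 : ∀ ω, Set.indicator {ω : Om d | KC (Oc ω) y A (ghost false σ ω) u v
        (K : Set (V d))} wf ω =
        Set.indicator (A0 ∩ (A1 ∩ A2)) (fun _ => (1 : ℝ)) ω * Set.indicator E4 wf ω := by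
      intro ω
      rw [hKC]
      by_cases h1 : ω ∈ A0 ∩ (A1 ∩ A2)
      · by_cases h2 : ω ∈ E4
        · have h12' : ω ∈ A0 ∩ (A1 ∩ A2) ∩ E4 := ⟨h1, h2⟩
          rw [Set.indicator_of_mem h12', Set.indicator_of_mem h1, Set.indicator_of_mem h2,
            one_mul]
        · rw [Set.indicator_of_notMem (fun h => h2 h.2), Set.indicator_of_notMem h2, mul_zero]
      · rw [Set.indicator_of_notMem (fun h => h1 h.1), Set.indicator_of_notMem h1, zero_mul]
    simp_rw [h1]
    rw [mt_indep (S := tI (K : Set (V d))) (T := (tI (K : Set (V d)))ᶜ) disjoint_compl_right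
      (measurable_const.indicator (m0.inter (m1.inter m2))) (hwm.indicator m4)]
    · congr 1
      rw [integral_indicator_const _ (m0.inter (m1.inter m2))]
      simp [Measure.real]
    · intro ω ω' hω
      have h3 := dE hω
      simp only [eq_iff_iff] at h3
      simp only [Set.indicator_apply, h3]
    · intro ω ω' hω
      have h3 := dE4 hω
      simp only [eq_iff_iff] at h3
      have h4 := dW hω
      simp only [Set.indicator_apply, h3, h4]
  have hJ : J p (v - u) = ENNReal.ofReal p := by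
    have : l1 (v - u) = 1 := he
    simp [J, this]
  have hkw : (Pr d (A0 ∩ (A1 ∩ A2))).toReal =
      kw A y (u, v, K) * Real.exp (-(σ * (K.card : ℝ))) := by
    rw [h012, ← mul_assoc, ENNReal.toReal_mul, ENNReal.toReal_ofReal (Real.exp_pos _).le]
    congr 1
    unfold kw kerR
    change _ = (J p (v - u) * _).toReal
    rw [hJ]
    congr 3
    ext ω
    simp only [hA1, Set.mem_ofPred_eq]
    tauto
  rw [hprod, hkw]
  set k := kw A y (u, v, K) with hk
  have hk0 : 0 ≤ k := ENNReal.toReal_nonneg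
  set x := σ * (K.card : ℝ) with hx
  have hx0 : 0 ≤ x := by positivity
  set g := ∫ ω, Set.indicator E4 wf ω ∂(Pr d) with hg
  set w := EW W s (Del.ofSet (K : Set (V d))) v with hw
  have hint : Integrable wf (Pr d) := WA_integrable hW hs hs1 _ v
  have h1 : |g - w| ≤ C * (Real.sqrt κ * Real.sqrt s) := by
    have h2 : w - g = ∫ ω, Set.indicator E4ᶜ wf ω ∂(Pr d) := by
      have h3 : w = ∫ ω, (Set.indicator E4 wf ω + Set.indicator E4ᶜ wf ω) ∂(Pr d) := by
        rw [hw]
        unfold EW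
        refine integral_congr_ae (Filter.Eventually.of_forall fun ω => ?_)
        change wf ω = Set.indicator E4 wf ω + Set.indicator E4ᶜ wf ω
        by_cases h : ω ∈ E4
        · rw [Set.indicator_of_mem h, Set.indicator_of_notMem (by simpa using h), add_zero]
        · rw [Set.indicator_of_notMem h, Set.indicator_of_mem (by simpa using h), zero_add]
      rw [h3, integral_add (hint.indicator m4) (hint.indicator m4.compl)]
      ring
    rw [abs_sub_comm, h2]
    refine (abs_integral_le_integral_abs).trans ?_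
    refine le_trans (le_of_eq ?_) (hsm κ s hκ hκ1 hs hsκ (Del.ofSet (K : Set (V d))) v)
    refine integral_congr_ae (Filter.Eventually.of_forall fun ω => ?_)
    change |Set.indicator E4ᶜ wf ω| = Set.indicator E4ᶜ (fun ω => |wf ω|) ω
    by_cases h : ω ∈ E4ᶜ
    · rw [Set.indicator_of_mem h, Set.indicator_of_mem h]
    · rw [Set.indicator_of_notMem h, Set.indicator_of_notMem h, abs_zero]
  have h2 : |w| ≤ c := by
    have := norm_integral_le_of_norm_le_const (μ := Pr d) (f := wf) (C := c)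
      (Filter.Eventually.of_forall fun ω => WA_le_c hW hs hs1 _ _ v)
    rw [Real.norm_eq_abs] at this
    have h4 : w = ∫ ω, wf ω ∂(Pr d) := rfl
    rw [h4]
    simpa [Measure.real] using this
  have h3 : |Real.exp (-x) - 1| ≤ x := by
    have h4 := Real.add_one_le_exp (-x)
    have h5 : Real.exp (-x) ≤ 1 := Real.exp_le_one_iff.2 (by linarith)
    rw [abs_le]
    constructor <;> linarith
  have h4 : Real.exp (-x) ≤ 1 := Real.exp_le_one_iff.2 (by linarith)
  have h5 : k * Real.exp (-x) * g - k * w =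
      k * (Real.exp (-x) * (g - w) + (Real.exp (-x) - 1) * w) := by ring
  rw [h5, abs_mul, abs_of_nonneg hk0]
  refine mul_le_mul_of_nonneg_left ?_ hk0
  have hc0 : 0 ≤ c := zero_le_one.trans hW.one_le
  calc |Real.exp (-x) * (g - w) + (Real.exp (-x) - 1) * w| ≤
      |Real.exp (-x) * (g - w)| + |(Real.exp (-x) - 1) * w| := abs_add_le _ _
    _ = Real.exp (-x) * |g - w| + |Real.exp (-x) - 1| * |w| := by
        rw [abs_mul, abs_mul, abs_of_pos (Real.exp_pos _)]
    _ ≤ 1 * (C * (Real.sqrt κ * Real.sqrt s)) + x * c := by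
        refine add_le_add (mul_le_mul h4 h1 (abs_nonneg _) zero_le_one)
          (mul_le_mul h3 h2 (abs_nonneg _) hx0)
    _ = C * (Real.sqrt κ * Real.sqrt s) + c * σ * (K.card : ℝ) := by
        rw [hx]; ring

end Pool.Agent.PB
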