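import Pool.Agent.PB.Outs
import Pool.Agent.PB.Basic
import Pool.Agent.PB.Meas
import Pool.Agent.PB.BK
import Pool.Agent.PB.P.Expl
import Pool.Agent.PB.P.Act

/-!
# PB / Mix / NlP: 6.3 (d)
`r` = a radius with `Vs A y ⊆ bx r y`.
(1) first kind: `{a → (bx (R1-r) a)ᶜ} ∘ {a' → G}`: BK and translation; sum over the finitely many `a, a'`.
(2) second kind: BK: `{y → (bx R2 y)ᶜ} ∘ {v → G}` (the witness of the first inside `K`, of the second
off `K`); the number of `v` is at most `(2 R1 + 3)^d`.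
-/

set_option autoImplicit false
open MeasureTheory Filter Topology
open scoped ENNReal BigOperators

namespace Pool.Agent.PB

variable {d : ℕ}

/-- the box of two events from disjoint edge sets -/
private theorem nl_box {p σ : ℝ} {ω : Om d} {a a' : V d} {T : Set (V d)}
    {S1 S2 : Set (Sym2 (V d))} (h1 : S1 ⊆ opn p ω) (h2 : S2 ⊆ opn p ω) (hd : Disjoint S1 S2)
    (hR1 : RchT S1 a T) (hR2 : RchT S2 a' (ghost false σ ω)) :
    ω ∈ box {ω : Om d | RchT (opn p ω) a T} {ω : Om d | RchT (opn p ω) a' (ghost false σ ω)} := by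
  classical
  obtain ⟨t, ht, hR1⟩ := hR1
  obtain ⟨g, hg, hR2⟩ := hR2
  obtain ⟨F1, hF1, hfin1, hR1⟩ := hR1.exists_finite
  obtain ⟨F2, hF2, hfin2, hR2⟩ := hR2.exists_finite
  refine ⟨hfin1.toFinset.image Sum.inl, insert (Sum.inr (g, false)) (hfin2.toFinset.image Sum.inl),
    ?_, ?_, ?_⟩
  · rw [Finset.disjoint_left]
    intro i hi hi'
    obtain ⟨e, he, rfl⟩ := Finset.mem_image.1 hi
    rw [Finset.mem_insert] at hi'
    rcases hi' with h | h
    · cases h
    · obtain ⟨e', he', hee⟩ := Finset.mem_image.1 h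
      have hee' : e' = e := Sum.inl_injective hee
      subst hee'
      rw [Set.Finite.mem_toFinset] at he he'
      exact Set.disjoint_left.1 hd (hF1 he) (hF2 he')
  · refine ⟨t, ht, hR1.mono fun e he => ?_⟩
    have h := h1 (hF1 he)
    refine ⟨h.1, ?_⟩
    rw [restr_of_mem _ (by
      rw [Finset.mem_coe, Finset.mem_image]
      exact ⟨e, hfin1.mem_toFinset.2 he, rfl⟩)]
    exact h.2
  · refine ⟨g, ?_, hR2.mono fun e he => ?_⟩
    · change ((restr _ ω (Sum.inr (g, false)) : unitInterval) : ℝ) ≤ _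
      rw [restr_of_mem _ (by
        rw [Finset.mem_coe]; exact Finset.mem_insert_self _ _)]
      exact hg
    · have h := h2 (hF2 he)
      refine ⟨h.1, ?_⟩
      rw [restr_of_mem _ (by
        rw [Finset.mem_coe, Finset.mem_insert, Finset.mem_image]
        exact Or.inr ⟨e, hfin2.mem_toFinset.2 he, rfl⟩)]
      exact h.2

private theorem pr_box (p σ : ℝ) (a a' : V d) (T : Set (V d)) :
    Pr d (box {ω : Om d | RchT (opn p ω) a T} {ω : Om d | RchT (opn p ω) a' (ghost false σ ω)}) ≤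
      Pr d {ω : Om d | RchT (opn p ω) a T} * Mg d p σ := by
  rw [← Mg_shift p σ a']
  refine bk2_Pr ((opn_MES p).rchT (MVS.const T) a) ((opn_MES p).rchT (ghost_MVS false σ) a') ?_ ?_
  · rintro ω ω' hle ⟨t, ht, h⟩
    refine ⟨t, ht, Rch.mono (fun e he => ?_) h⟩
    have h1 : ((ω' (Sum.inl e) : unitInterval) : ℝ) ≤ ((ω (Sum.inl e) : unitInterval) : ℝ) := by
      exact_mod_cast hle (Sum.inl e)
    exact ⟨he.1, h1.trans he.2⟩
  · rintro ω ω' hle ⟨t, ht, h⟩
    refine ⟨t, ?_, Rch.mono (fun e he => ?_) h⟩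
    · have h1 : ((ω' (Sum.inr (t, false)) : unitInterval) : ℝ) ≤
          ((ω (Sum.inr (t, false)) : unitInterval) : ℝ) := by
        exact_mod_cast hle (Sum.inr (t, false))
      exact h1.trans ht
    · have h1 : ((ω' (Sum.inl e) : unitInterval) : ℝ) ≤ ((ω (Sum.inl e) : unitInterval) : ℝ) := by
        exact_mod_cast hle (Sum.inl e)
      exact ⟨he.1, h1.trans he.2⟩

private theorem piR_shift (R : ℕ) (a : V d) :
    Pr d {ω : Om d | RchT (opn (pc d) ω) a (bx R a)ᶜ} = piR d R := by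
  unfold piR Oc
  rw [← Pr_act (trI a) {ω : Om d | RchT (opn (pc d) ω) 0 (bx R 0)ᶜ}]
  congr 1
  ext ω
  simp only [Set.mem_ofPred_eq, RchT, Rch_act (trI_aut a)]
  constructor
  · rintro ⟨t, ht, h⟩
    refine ⟨t - a, ?_, by simpa [trI_apply] using h⟩
    intro h'
    refine ht fun i => ?_
    have := h' i
    simpa using this
  · rintro ⟨t, ht, h⟩
    refine ⟨t + a, ?_, by simpa [trI_apply] using h⟩
    intro h'
    refine ht fun i => ?_
    have := h' i
    simpa using this

/-- the boxes are finite -/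
private theorem bx_finite (R : ℕ) (x : V d) : (bx R x).Finite := by
  have : bx R x ⊆ Set.pi Set.univ (fun i => Set.Icc (x i - R) (x i + R)) := by
    intro y hy i _
    have := hy i
    rw [abs_le] at this
    exact ⟨by linarith [this.1], by linarith [this.2]⟩
  exact (Set.Finite.pi' fun i => Set.finite_Icc _ _).subset fun y hy i => this hy i (Set.mem_univ i)

private theorem bx_card (R : ℕ) (x : V d) : (bx_finite R x).toFinset.card ≤ (2 * R + 1) ^ d := by
  classical
  have h1 : (bx_finite R x).toFinset ⊆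
      Fintype.piFinset (fun i => Finset.Icc (x i - R) (x i + R)) := by
    intro y hy
    rw [Set.Finite.mem_toFinset] at hy
    rw [Fintype.mem_piFinset]
    intro i
    have := hy i
    rw [abs_le] at this
    rw [Finset.mem_Icc]
    exact ⟨by linarith [this.1], by linarith [this.2]⟩
  refine (Finset.card_le_card h1).trans (le_of_eq ?_)
  rw [Fintype.card_piFinset]
  have h2 : ∀ i : Fin d, (Finset.Icc (x i - R) (x i + R)).card = 2 * R + 1 := by
    intro i
    rw [Int.card_Icc]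
    have : x i + R + 1 - (x i - R) = ((2 * R + 1 : ℕ) : ℤ) := by push_cast; ring
    rw [this, Int.toNat_natCast]
  rw [Finset.prod_congr rfl fun i _ => h2 i]
  simp

private theorem adj_le {x y : V d} (h : (lat d).Adj x y) (i : Fin d) : |y i - x i| ≤ 1 := by
  have h1 : l1 (y - x) = 1 := h
  unfold l1 at h1
  calc |y i - x i| = |(y - x) i| := rfl
    _ ≤ ∑ j, |(y - x) j| :=
        Finset.single_le_sum (f := fun j => |(y - x) j|) (fun j _ => abs_nonneg _)
          (Finset.mem_univ i)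
    _ = 1 := h1

theorem NlP (hC : Crit d) (h5 : Out5 d) (A : Del (V d)) (hA : A.Finite) (y : V d) :
    ∃ (r : ℕ) (C : ℝ), 0 < C ∧ ∀ (R1 R2 : ℕ), r ≤ R1 → ∀ σ : ℝ, 0 < σ → σ ≤ 1 →
      (Pr d {ω : Om d | Nl (Oc ω) y A (ghost false σ ω) R1 R2}).toReal ≤
        C * ((piR d (R1 - r)).toReal + (2 * (R1 : ℝ) + 1) ^ d * (piR d R2).toReal) *
          Real.sqrt σ := by
  classical
  have hVfin : (Vs A y).Finite := (Del.verts_finite hA).union (Set.finite_singleton y)
  set VF : Finset (V d) := hVfin.toFinset with hVF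
  -- the radius
  obtain ⟨r, hr⟩ : ∃ r : ℕ, ∀ a ∈ Vs A y, a ∈ bx r y := by
    refine ⟨∑ a ∈ VF, ∑ i, (a i - y i).natAbs, fun a ha i => ?_⟩
    have h1 : (a i - y i).natAbs ≤ ∑ a ∈ VF, ∑ i, (a i - y i).natAbs :=
      (Finset.single_le_sum (f := fun i => (a i - y i).natAbs) (fun _ _ => Nat.zero_le _)
        (Finset.mem_univ i)).trans
        (Finset.single_le_sum (f := fun a : V d => ∑ i, (a i - y i).natAbs)
          (fun _ _ => Nat.zero_le _) (hVfin.mem_toFinset.2 ha))
    rw [Int.abs_eq_natAbs]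
    exact_mod_cast h1
  obtain ⟨C0, hC0, hb⟩ := h5.bounds
  refine ⟨r, C0 * ((VF.card : ℝ) ^ 2 + 3 ^ d) , by positivity, ?_⟩
  intro R1 R2 hR1 σ hσ hσ1
  set O : Om d → Set (Sym2 (V d)) := fun ω => opn (pc d) ω with hO
  -- the inclusion
  have hsub : {ω : Om d | Nl (Oc ω) y A (ghost false σ ω) R1 R2} ⊆
      (⋃ a ∈ VF, ⋃ a' ∈ VF, box {ω : Om d | RchT (opn (pc d) ω) a (bx (R1 - r) a)ᶜ}
        {ω : Om d | RchT (opn (pc d) ω) a' (ghost false σ ω)}) ∪
      ⋃ v ∈ (bx_finite (R1 + 1) y).toFinset,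
        box {ω : Om d | RchT (opn (pc d) ω) y (bx R2 y)ᶜ}
          {ω : Om d | RchT (opn (pc d) ω) v (ghost false σ ω)} := by
    rintro ω ⟨u, v, he, hu, hv, hG, hor⟩
    set e := s(u, v) with hedef
    set K := Cl (del1 (Oc ω) e) y with hK
    obtain ⟨g, hg, hvg⟩ := hG
    have hdelO : del1 (Oc ω) e ⊆ opn (pc d) ω := fun f hf => hf.1
    have hremO : (Del.ofSet K).rem (Oc ω) ⊆ opn (pc d) ω := Del.rem_subset _ _
    rcases hor with ⟨huR, a, ha, a', ha', S, hS, hdis, hRS⟩ | ⟨huR, hKR⟩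
    · left
      simp only [Set.mem_iUnion]
      refine ⟨a, hVfin.mem_toFinset.2 ha, a', hVfin.mem_toFinset.2 ha', ?_⟩
      have hRa : Rch (S 0) a u := hRS 0
      have hRa' : Rch (S 1) a' u := hRS 1
      have hd01 : Disjoint (S 0) (S 1) := hdis (by decide)
      -- the first connection inside its cluster
      have h3 : ∀ z ∈ Cl (S 0) a, z ∈ K := by
        intro z hz
        have h4 : Rch (S 0) u z := hRa.symm.trans hz
        exact Rch.trans hu (h4.mono (hS 0))
      refine nl_box (S1 := {f ∈ S 0 | ∀ z ∈ f, z ∈ Cl (S 0) a})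
        (S2 := S 1 ∪ {e} ∪ (Del.ofSet K).rem (Oc ω)) ?_ ?_ ?_ ?_ ?_
      · exact fun f hf => hdelO (hS 0 hf.1)
      · rintro f ((hf | hf) | hf)
        · exact hdelO (hS 1 hf)
        · rw [Set.mem_singleton_iff] at hf; subst hf; exact he
        · exact hremO hf
      · rw [Set.disjoint_left]
        rintro f ⟨hf0, hfK⟩ ((hf | hf) | hf)
        · exact Set.disjoint_left.1 hd01 hf0 hf
        · have := (hS 0 hf0).2
          exact this hf
        · rw [Del.ofSet_rem] at hf
          induction f using Sym2.ind with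
          | _ b c =>
            exact hf.2 b (Sym2.mem_mk_left b c) (h3 b (hfK b (Sym2.mem_mk_left b c)))
      · refine ⟨u, ?_, hRa.inside⟩
        intro hub
        refine huR fun i => ?_
        have h5 := hub i
        have h6 := hr a ha i
        have h7 : |u i - y i| ≤ |u i - a i| + |a i - y i| := by
          have := abs_sub_le (u i) (a i) (y i); exact this
        have h8 : ((R1 - r : ℕ) : ℤ) = (R1 : ℤ) - r := by push_cast [hR1]; ring
        rw [h8] at h5
        linarith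
      · refine ⟨g, hg, ?_⟩
        refine (hRa'.mono (fun f hf => Or.inl (Or.inl hf))).trans ?_
        refine Rch.head (y := v) (Or.inl (Or.inr rfl)) ?_
        exact hvg.mono fun f hf => Or.inr hf
    · right
      simp only [Set.mem_iUnion]
      have hadj : (lat d).Adj u v := he.1
      refine ⟨v, ?_, ?_⟩
      · rw [Set.Finite.mem_toFinset]
        intro i
        have h1 := adj_le hadj i
        have h2 := huR i
        have h3 : |v i - y i| ≤ |v i - u i| + |u i - y i| := abs_sub_le _ _ _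
        push_cast
        linarith
      · obtain ⟨x, hxK, hx⟩ := Set.not_subset.1 hKR
        refine nl_box (S1 := {f ∈ del1 (Oc ω) e | ∀ z ∈ f, z ∈ Cl (del1 (Oc ω) e) y})
          (S2 := (Del.ofSet K).rem (Oc ω)) ?_ hremO ?_ ?_ ⟨g, hg, hvg⟩
        · exact fun f hf => hdelO hf.1
        · rw [Set.disjoint_left]
          rintro f ⟨hf0, hfK⟩ hf
          rw [Del.ofSet_rem] at hf
          induction f using Sym2.ind with
          | _ b c =>
            exact hf.2 b (Sym2.mem_mk_left b c) (hfK b (Sym2.mem_mk_left b c))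
        · exact ⟨x, hx, Rch.inside hxK⟩
  -- the probabilities
  have hM : Mg d (pc d) σ ≤ ENNReal.ofReal (C0 * Real.sqrt σ) := by
    have h1 := (hb σ hσ hσ1).1
    unfold Mr at h1
    rw [← ENNReal.ofReal_toReal (a := Mg d (pc d) σ) (by
      exact ne_top_of_le_ne_top ENNReal.one_ne_top prob_le_one)]
    exact ENNReal.ofReal_le_ofReal h1
  have hpi : ∀ R : ℕ, piR d R ≠ ⊤ := fun R =>
    ne_top_of_le_ne_top ENNReal.one_ne_top prob_le_one
  have hP : Pr d {ω : Om d | Nl (Oc ω) y A (ghost false σ ω) R1 R2} ≤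
      ((VF.card : ℝ≥0∞) * VF.card * piR d (R1 - r) +
        ((2 * (R1 + 1) + 1 : ℕ) : ℝ≥0∞) ^ d * piR d R2) * ENNReal.ofReal (C0 * Real.sqrt σ) := by
    refine (measure_mono hsub).trans ((measure_union_le _ _).trans ?_)
    rw [add_mul]
    refine add_le_add ?_ ?_
    · refine (measure_biUnion_finset_le _ _).trans ?_
      have h1 : ∀ a ∈ VF, Pr d (⋃ a' ∈ VF, box {ω : Om d | RchT (opn (pc d) ω) a (bx (R1 - r) a)ᶜ}
          {ω : Om d | RchT (opn (pc d) ω) a' (ghost false σ ω)}) ≤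
          VF.card * (piR d (R1 - r) * ENNReal.ofReal (C0 * Real.sqrt σ)) := by
        intro a _
        refine (measure_biUnion_finset_le _ _).trans ?_
        refine (Finset.sum_le_card_nsmul _ _ (piR d (R1 - r) * ENNReal.ofReal (C0 * Real.sqrt σ))
          fun a' _ => ?_).trans (le_of_eq (by rw [nsmul_eq_mul]))
        refine (pr_box (pc d) σ a a' _).trans ?_
        rw [piR_shift]
        gcongr
      refine (Finset.sum_le_card_nsmul _ _ _ h1).trans (le_of_eq ?_)
      rw [nsmul_eq_mul]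
      ring
    · refine (measure_biUnion_finset_le _ _).trans ?_
      refine (Finset.sum_le_card_nsmul _ _ (piR d R2 * ENNReal.ofReal (C0 * Real.sqrt σ))
          fun v _ => ?_).trans ?_
      · refine (pr_box (pc d) σ y v _).trans ?_
        rw [piR_shift]
        gcongr
      · rw [nsmul_eq_mul, mul_assoc]
        gcongr
        exact_mod_cast bx_card (R1 + 1) y
  have hC00 : 0 ≤ C0 * Real.sqrt σ := by positivity
  have hfin : ((VF.card : ℝ≥0∞) * VF.card * piR d (R1 - r) +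
        ((2 * (R1 + 1) + 1 : ℕ) : ℝ≥0∞) ^ d * piR d R2) * ENNReal.ofReal (C0 * Real.sqrt σ) ≠ ⊤ := by
    refine ENNReal.mul_ne_top (ENNReal.add_ne_top.2 ⟨?_, ?_⟩) ENNReal.ofReal_ne_top
    · exact ENNReal.mul_ne_top (ENNReal.mul_ne_top (ENNReal.natCast_ne_top _)
        (ENNReal.natCast_ne_top _)) (hpi _)
    · exact ENNReal.mul_ne_top (ENNReal.pow_ne_top (ENNReal.natCast_ne_top _)) (hpi _)
  refine (ENNReal.toReal_mono hfin hP).trans ?_
  rw [ENNReal.toReal_mul, ENNReal.toReal_add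
    (ENNReal.mul_ne_top (ENNReal.mul_ne_top (ENNReal.natCast_ne_top _)
        (ENNReal.natCast_ne_top _)) (hpi _))
    (ENNReal.mul_ne_top (ENNReal.pow_ne_top (ENNReal.natCast_ne_top _)) (hpi _)),
    ENNReal.toReal_mul, ENNReal.toReal_mul, ENNReal.toReal_mul, ENNReal.toReal_pow,
    ENNReal.toReal_natCast, ENNReal.toReal_natCast, ENNReal.toReal_ofReal hC00]
  set α := (piR d (R1 - r)).toReal with hα
  set β := (piR d R2).toReal with hβ
  have hα0 : 0 ≤ α := ENNReal.toReal_nonneg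
  have hβ0 : 0 ≤ β := ENNReal.toReal_nonneg
  have h3 : ((2 * (R1 + 1) + 1 : ℕ) : ℝ) ^ d ≤ 3 ^ d * (2 * (R1 : ℝ) + 1) ^ d := by
    rw [← mul_pow]
    refine pow_le_pow_left₀ (by positivity) ?_ d
    push_cast
    have : (0 : ℝ) ≤ R1 := Nat.cast_nonneg _
    linarith
  have h4 : (VF.card : ℝ) * VF.card * α + ((2 * (R1 + 1) + 1 : ℕ) : ℝ) ^ d * β ≤
      ((VF.card : ℝ) ^ 2 + 3 ^ d) * (α + (2 * (R1 : ℝ) + 1) ^ d * β) := by
    have h5 : ((2 * (R1 + 1) + 1 : ℕ) : ℝ) ^ d * β ≤ 3 ^ d * (2 * (R1 : ℝ) + 1) ^ d * β :=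
      mul_le_mul_of_nonneg_right h3 hβ0
    have h6 : 0 ≤ (VF.card : ℝ) ^ 2 * ((2 * (R1 : ℝ) + 1) ^ d * β) := by positivity
    have h7 : (0 : ℝ) ≤ 3 ^ d * α := by positivity
    nlinarith
  calc ((VF.card : ℝ) * VF.card * α + ((2 * (R1 + 1) + 1 : ℕ) : ℝ) ^ d * β) *
        (C0 * Real.sqrt σ) ≤
      (((VF.card : ℝ) ^ 2 + 3 ^ d) * (α + (2 * (R1 : ℝ) + 1) ^ d * β)) * (C0 * Real.sqrt σ) :=
        mul_le_mul_of_nonneg_right h4 hC00
    _ = C0 * ((VF.card : ℝ) ^ 2 + 3 ^ d) * (α + (2 * (R1 : ℝ) + 1) ^ d * β) * Real.sqrt σ := by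
        ring

/-- `π(R) → 0` -/
theorem piR_tendsto (hC : Crit d) (h5 : Out5 d) :
    Tendsto (fun R : ℕ => (piR d R).toReal) atTop (𝓝 0) := by
  have hpi : ∀ R : ℕ, piR d R ≠ ⊤ := fun R =>
    ne_top_of_le_ne_top ENNReal.one_ne_top prob_le_one
  have h1 : Tendsto (fun R : ℕ => piR d R) atTop (𝓝 0) := by
    have h2 : Tendsto (fun R : ℕ => Pr d {ω : Om d | RchT (Oc ω) (0 : V d) (bx R 0)ᶜ}) atTop
        (𝓝 (Pr d (⋂ R : ℕ, {ω : Om d | RchT (Oc ω) (0 : V d) (bx R 0)ᶜ}))) := by
      refine tendsto_measure_iInter_atTop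
        (fun R => ((opn_MES (pc d)).rchT (MVS.const _) 0).nullMeasurableSet) ?_
        ⟨0, measure_ne_top _ _⟩
      intro R R' hRR ω hω
      obtain ⟨t, ht, h⟩ := hω
      refine ⟨t, fun ht' => ht fun i => (ht' i).trans (by exact_mod_cast hRR), h⟩
    have h3 : Pr d (⋂ R : ℕ, {ω : Om d | RchT (Oc ω) (0 : V d) (bx R 0)ᶜ}) = 0 := by
      refine measure_mono_null ?_ h5.theta_pc
      intro ω hω
      rw [Set.mem_iInter] at hω
      change (Cl (opn (pc d) ω) 0).Infinite
      intro hfin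
      obtain ⟨t, ht, h⟩ := hω (∑ a ∈ hfin.toFinset, ∑ i, (a i).natAbs)
      refine ht fun i => ?_
      have h4 : (t i).natAbs ≤ ∑ a ∈ hfin.toFinset, ∑ i, (a i).natAbs :=
        (Finset.single_le_sum (f := fun i => (t i).natAbs) (fun _ _ => Nat.zero_le _)
          (Finset.mem_univ i)).trans
          (Finset.single_le_sum (f := fun a : V d => ∑ i, (a i).natAbs)
            (fun _ _ => Nat.zero_le _) (hfin.mem_toFinset.2 h))
      have h5 : |t i - (0 : V d) i| = ((t i).natAbs : ℤ) := by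
        rw [Pi.zero_apply, sub_zero, Int.abs_eq_natAbs]
      rw [h5]
      exact_mod_cast h4
    rw [h3] at h2
    exact h2
  have := (ENNReal.tendsto_toReal ENNReal.zero_ne_top).comp h1
  rw [ENNReal.toReal_zero] at this
  exact this

end Pool.Agent.PB
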