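import Pool.Agent.PB.Mix.FunB
import Pool.Agent.PB.P.Expl
import Pool.Agent.PB.P.Act

/-!
# PB / Mix / SmallG: 6.3 (a)
Plan. `s/κ =: σ ≤ 1`. `|WA| ≤ c s N_A` with `N_A = Nc (A.rem O) y` (FunB.WA_abs_le). Given the edge labels, the ghost labels are independent:
`E[f 1{C_A(y) ∩ G_σ = ∅}] = E[f e^{-σ N_A}]` for `f ≥ 0` a function of the edge labels on `{C_A(y) finite}` (helper93's P/Expl: `Pr{S disjoint from ghost}`,
or directly: sum over the countably many finite `K = C_A(y)`; ghost labels of `K` are independent of the edge labels and each is not green with probability `e^{-σ}`).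
At `p_c` clusters are finite a.s. (`h5.theta_pc`, all `y` by translation). `s N e^{-σN} = κ (x e^{-x}) ≤ κ (1 - e^{-x})`, `x = σ N_A ≤ σ N`;
`E[1 - e^{-σ N(y)}] = E[1-e^{-σN(0)}] = Mr d (pc d) σ ≤ C √σ` (ghost integration again, `h5.bounds`), and `κ √(s/κ) = √κ √s`.
-/

set_option autoImplicit false
open MeasureTheory Filter Topology
open scoped ENNReal BigOperators

namespace Pool.Agent.PB

variable {d : ℕ}

/-! ### Auxiliary facts -/

theorem sg_not_rchA_iff (A : Del (V d)) (O : Set (Sym2 (V d))) (y : V d) (T : Set (V d)) :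
    ¬ RchA A O y T ↔ Disjoint (ClA A O y) T := by
  unfold RchA
  rw [Set.disjoint_left]
  constructor
  · intro h x hx hT
    exact h ⟨x, hT, hx⟩
  · rintro h ⟨t, hT, ht⟩
    exact h ht hT

theorem sg_ClA_eq {A : Del (V d)} {y : V d} (hy : y ∉ A.S) (O : Set (Sym2 (V d))) :
    ClA A O y = Cl (A.rem O) y := by
  ext x
  simp [ClA, Cl, hy]

theorem sg_dep_opn (p : ℝ) (ω ω' : Om d) (h : ∀ e, ω (Sum.inl e) = ω' (Sum.inl e)) :
    opn p ω = opn p ω' := by
  ext e
  simp only [opn, Set.mem_ofPred_eq, h e]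

theorem sg_dep_gI {β : Type*} (b : Bool) (f : Om d → β)
    (hdep : ∀ ω ω' : Om d, (∀ e, ω (Sum.inl e) = ω' (Sum.inl e)) → f ω = f ω') :
    DependsOn f (gI d b)ᶜ := by
  intro ω ω' h
  refine hdep ω ω' fun e => h _ ?_
  simp [gI]

theorem sg_ae_fin (h5 : Out5 d) (y : V d) : ∀ᵐ ω ∂(Pr d), (Cl (Oc ω) y).Finite := by
  have h1 : Pr d {ω : Om d | (Cl (Oc ω) y).Infinite} = 0 := by
    have := theta_shift (d := d) (pc d) y
    rw [h5.theta_pc] at this
    exact this
  rw [ae_iff]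
  exact h1

theorem sg_Nc_measurable (A : Del (V d)) (y : V d) :
    Measurable (fun ω : Om d => (Nc (A.rem (Oc ω)) y : ℝ)) := by
  have h1 : MVS (fun ω : Om d => Cl (A.rem (Oc ω)) y) := ((opn_MES (pc d)).rem A).cl y
  have h2 : (fun ω : Om d => (Nc (A.rem (Oc ω)) y : ℝ)) =
      (fun n : ℕ∞ => (n.toNat : ℝ)) ∘ fun ω => (Cl (A.rem (Oc ω)) y).encard := rfl
  rw [h2]
  exact (measurable_of_countable _).comp h1.encard

/-- the weight `e^{-σ N_A}` -/
noncomputable def sgE (A : Del (V d)) (y : V d) (σ : ℝ) (ω : Om d) : ℝ := by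
  classical exact if y ∈ A.S then 1 else Real.exp (-(σ * (Nc (A.rem (Oc ω)) y : ℝ)))

theorem sgE_nonneg (A : Del (V d)) (y : V d) (σ : ℝ) (ω : Om d) : 0 ≤ sgE A y σ ω := by
  unfold sgE
  split_ifs
  · exact zero_le_one
  · exact (Real.exp_pos _).le

theorem sgE_le_one (A : Del (V d)) (y : V d) {σ : ℝ} (hσ : 0 < σ) (ω : Om d) :
    sgE A y σ ω ≤ 1 := by
  unfold sgE
  split_ifs
  · exact le_rfl
  · refine Real.exp_le_one_iff.2 ?_
    have : 0 ≤ σ * (Nc (A.rem (Oc ω)) y : ℝ) := by positivity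
    linarith

theorem sgE_measurable (A : Del (V d)) (y : V d) (σ : ℝ) : Measurable (sgE A y σ) := by
  classical
  by_cases hy : y ∈ A.S
  · have : sgE A y σ = fun _ => 1 := by
      funext ω; simp [sgE, hy]
    rw [this]; exact measurable_const
  · have : sgE A y σ = fun ω => Real.exp (-(σ * (Nc (A.rem (Oc ω)) y : ℝ))) := by
      funext ω; simp [sgE, hy]
    rw [this]
    exact Real.measurable_exp.comp (((sg_Nc_measurable A y).const_mul σ).neg)

theorem sgE_eq_ex (h5 : Out5 d) (A : Del (V d)) (y : V d) (σ : ℝ) :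
    ∀ᵐ ω ∂(Pr d), ex σ (ClA A (Oc ω) y) = ENNReal.ofReal (sgE A y σ ω) := by
  filter_upwards [sg_ae_fin h5 y] with ω hω
  have hf : (ClA A (Oc ω) y).Finite := hω.subset (ClA_subset_Cl A _ y)
  rw [ex_fin σ hf]
  unfold sgE
  split_ifs with hy
  · rw [ClA_eq_empty hy]; simp
  · rw [sg_ClA_eq hy]; rfl

theorem sg_bdd_integrable {f : Om d → ℝ} (hf : Measurable f) {B : ℝ} (hB : ∀ ω, |f ω| ≤ B) :
    Integrable f (Pr d) := by
  refine Integrable.of_bound hf.aestronglyMeasurable B (ae_of_all _ fun ω => ?_)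
  rw [Real.norm_eq_abs]
  exact hB ω

theorem sg_ghost_set_measurable (A : Del (V d)) (y : V d) (σ : ℝ) :
    MeasurableSet {ω : Om d | ¬ RchA A (Oc ω) y (ghost false σ ω)} := by
  have h := ((opn_MES (d := d) (pc d)).rchA (ghost_MVS false σ) A y).compl
  exact h

theorem sg_ghost_nonneg (h5 : Out5 d) (A : Del (V d)) (y : V d) (σ : ℝ) (hσ : 0 < σ)
    (f : Om d → ℝ) (hf : Measurable f) (h0 : ∀ ω, 0 ≤ f ω)
    (hdep : ∀ ω ω' : Om d, (∀ e, ω (Sum.inl e) = ω' (Sum.inl e)) → f ω = f ω') :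
    ∫ ω, Set.indicator {ω : Om d | ¬ RchA A (Oc ω) y (ghost false σ ω)} f ω ∂(Pr d) =
      ∫ ω, f ω * sgE A y σ ω ∂(Pr d) := by
  have hS := sg_ghost_set_measurable A y σ
  rw [integral_eq_lintegral_of_nonneg_ae, integral_eq_lintegral_of_nonneg_ae]
  · congr 1
    have h1 : ∀ ω, ENNReal.ofReal (Set.indicator
        {ω : Om d | ¬ RchA A (Oc ω) y (ghost false σ ω)} f ω) =
        Set.indicator {ω : Om d | ¬ RchA A (Oc ω) y (ghost false σ ω)}
          (fun ω => ENNReal.ofReal (f ω)) ω := by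
      intro ω
      by_cases h : ω ∈ {ω : Om d | ¬ RchA A (Oc ω) y (ghost false σ ω)}
      · rw [Set.indicator_of_mem h, Set.indicator_of_mem h]
      · rw [Set.indicator_of_notMem h, Set.indicator_of_notMem h, ENNReal.ofReal_zero]
    simp only [h1]
    rw [lintegral_indicator hS]
    have h2 : {ω : Om d | ¬ RchA A (Oc ω) y (ghost false σ ω)} =
        {ω : Om d | Disjoint (ClA A (Oc ω) y) (ghost false σ ω)} := by
      ext ω
      exact sg_not_rchA_iff A _ y _
    rw [h2, lintegral_ghost (d := d) false hσ (C := fun ω => ClA A (Oc ω) y)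
      ((opn_MES (pc d)).clA A y)
      (sg_dep_gI false _ fun ω ω' h => by
        show ClA A (opn (pc d) ω) y = ClA A (opn (pc d) ω') y
        rw [sg_dep_opn (pc d) ω ω' h])
      (F := fun ω => ENNReal.ofReal (f ω))
      (ENNReal.measurable_ofReal.comp hf)
      (sg_dep_gI false _ fun ω ω' h => by
        show ENNReal.ofReal (f ω) = ENNReal.ofReal (f ω')
        rw [hdep ω ω' h])]
    refine lintegral_congr_ae ?_
    filter_upwards [sgE_eq_ex h5 A y σ] with ω hω
    rw [ENNReal.ofReal_mul (h0 ω)]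
    show ENNReal.ofReal (f ω) * ex σ (ClA A (Oc ω) y) = _
    rw [hω]
  · exact ae_of_all _ fun ω => mul_nonneg (h0 ω) (sgE_nonneg A y σ ω)
  · exact (hf.mul (sgE_measurable A y σ)).aestronglyMeasurable
  · exact ae_of_all _ fun ω => Set.indicator_nonneg (fun ω _ => h0 ω) ω
  · exact (hf.indicator hS).aestronglyMeasurable

open Classical in
/-- ghost integration, real form: `f` is a function of the edge set -/
theorem ghost_int (hC : Crit d) (h5 : Out5 d) (A : Del (V d)) (y : V d) (σ : ℝ) (hσ : 0 < σ)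
    (f : Om d → ℝ) (hf : Measurable f) (hb : ∃ B, ∀ ω, |f ω| ≤ B)
    (hdep : ∀ ω ω' : Om d, (∀ e, ω (Sum.inl e) = ω' (Sum.inl e)) → f ω = f ω') :
    ∫ ω, Set.indicator {ω : Om d | ¬ RchA A (Oc ω) y (ghost false σ ω)} f ω ∂(Pr d) =
      ∫ ω, f ω * (if y ∈ A.S then 1 else
        Real.exp (-(σ * (Nc (A.rem (Oc ω)) y : ℝ)))) ∂(Pr d) := by
  obtain ⟨B, hB⟩ := hb
  have hS := sg_ghost_set_measurable A y σ
  have hE : ∀ ω, (if y ∈ A.S then (1 : ℝ) else
        Real.exp (-(σ * (Nc (A.rem (Oc ω)) y : ℝ)))) = sgE A y σ ω := by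
    intro ω
    unfold sgE
    split_ifs <;> rfl
  simp only [hE]
  have hB0 : 0 ≤ B := (abs_nonneg _).trans (hB fun _ => 0)
  have h1 := sg_ghost_nonneg h5 A y σ hσ (fun ω => f ω + B) (hf.add_const B)
    (fun ω => by have := (abs_le.1 (hB ω)).1; linarith)
    (fun ω ω' h => by show f ω + B = f ω' + B; rw [hdep ω ω' h])
  have h2 := sg_ghost_nonneg h5 A y σ hσ (fun _ => B) measurable_const
    (fun ω => hB0) (fun ω ω' h => rfl)
  have hi1 : Integrable (Set.indicator {ω : Om d | ¬ RchA A (Oc ω) y (ghost false σ ω)}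
      (fun ω => f ω + B)) (Pr d) :=
    ((sg_bdd_integrable hf hB).add (integrable_const B)).indicator hS
  have hi2 : Integrable (Set.indicator {ω : Om d | ¬ RchA A (Oc ω) y (ghost false σ ω)}
      (fun _ => B)) (Pr d) := (integrable_const B).indicator hS
  have hEi : Integrable (sgE A y σ) (Pr d) :=
    sg_bdd_integrable (sgE_measurable A y σ) (B := 1) fun ω => by
      rw [abs_of_nonneg (sgE_nonneg A y σ ω)]; exact sgE_le_one A y hσ ω
  have hj0 : Integrable (fun ω => f ω * sgE A y σ ω) (Pr d) := by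
    refine sg_bdd_integrable (hf.mul (sgE_measurable A y σ)) (B := B) fun ω => ?_
    rw [abs_mul, abs_of_nonneg (sgE_nonneg A y σ ω)]
    calc |f ω| * sgE A y σ ω ≤ B * 1 :=
          mul_le_mul (hB ω) (sgE_le_one A y hσ ω) (sgE_nonneg A y σ ω) hB0
      _ = B := mul_one B
  have hj2 : Integrable (fun ω => B * sgE A y σ ω) (Pr d) := hEi.const_mul B
  have hj1 : Integrable (fun ω => (f ω + B) * sgE A y σ ω) (Pr d) := by
    have := hj0.add hj2
    refine this.congr (ae_of_all _ fun ω => ?_)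
    simp only [Pi.add_apply]
    ring
  calc ∫ ω, Set.indicator {ω : Om d | ¬ RchA A (Oc ω) y (ghost false σ ω)} f ω ∂(Pr d)
      = ∫ ω, (Set.indicator {ω : Om d | ¬ RchA A (Oc ω) y (ghost false σ ω)}
          (fun ω => f ω + B) ω - Set.indicator {ω : Om d | ¬ RchA A (Oc ω) y (ghost false σ ω)}
          (fun _ => B) ω) ∂(Pr d) := by
        refine integral_congr_ae (ae_of_all _ fun ω => ?_)
        simp only
        by_cases h : ω ∈ {ω : Om d | ¬ RchA A (Oc ω) y (ghost false σ ω)}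
        · rw [Set.indicator_of_mem h, Set.indicator_of_mem h, Set.indicator_of_mem h]; ring
        · rw [Set.indicator_of_notMem h, Set.indicator_of_notMem h, Set.indicator_of_notMem h]
          ring
    _ = ∫ ω, (f ω + B) * sgE A y σ ω ∂(Pr d) - ∫ ω, B * sgE A y σ ω ∂(Pr d) := by
        rw [integral_sub hi1 hi2, h1, h2]
    _ = ∫ ω, f ω * sgE A y σ ω ∂(Pr d) := by
        rw [← integral_sub hj1 hj2]
        refine integral_congr_ae (ae_of_all _ fun ω => ?_)
        simp only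
        ring

theorem sg_D0_rem (O : Set (Sym2 (V d))) : (D0 : Del (V d)).rem O = O := by
  ext e
  simp [Del.rem, D0, Del.ofSet]

theorem sg_W1 (s : ℝ) (O : Set (Sym2 (V d))) (y : V d) :
    WA W1 s (D0 : Del (V d)) O y = 1 - Real.exp (-(s * (Nc O y : ℝ))) := by
  unfold WA W1
  rw [if_neg (by simp [D0, Del.ofSet]), sg_D0_rem]

theorem sg_exp_integral (hC : Crit d) (h5 : Out5 d) (s : ℝ) (hs : 0 < s) (y : V d) :
    ∫ ω, Real.exp (-(s * (Nc (Oc ω) y : ℝ))) ∂(Pr d) = 1 - Mr d (pc d) s := by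
  classical
  have h1 := ghost_int hC h5 (D0 : Del (V d)) y s hs (fun _ => 1) measurable_const
    ⟨1, fun _ => by simp⟩ (fun _ _ _ => rfl)
  have hS := sg_ghost_set_measurable (D0 : Del (V d)) y s
  have h2 : ∀ ω : Om d, (1 : ℝ) * (if y ∈ (D0 : Del (V d)).S then 1 else
        Real.exp (-(s * (Nc ((D0 : Del (V d)).rem (Oc ω)) y : ℝ)))) =
      Real.exp (-(s * (Nc (Oc ω) y : ℝ))) := by
    intro ω
    rw [if_neg (by simp [D0, Del.ofSet]), sg_D0_rem, one_mul]
  simp only [h2] at h1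
  rw [← h1, integral_indicator hS]
  simp only [integral_const, smul_eq_mul, mul_one]
  have h3 : {ω : Om d | ¬ RchA (D0 : Del (V d)) (Oc ω) y (ghost false s ω)} =
      {ω : Om d | RchT (opn (pc d) ω) y (ghost false s ω)}ᶜ := by
    ext ω
    have : RchA (D0 : Del (V d)) (Oc ω) y (ghost false s ω) ↔
        RchT (opn (pc d) ω) y (ghost false s ω) := by
      unfold RchA RchT
      rw [sg_ClA_eq (by simp [D0, Del.ofSet]), sg_D0_rem]
      rfl
    simp only [Set.mem_ofPred_eq, Set.mem_compl_iff, this]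
  have hT : MeasurableSet {ω : Om d | RchT (opn (pc d) ω) y (ghost false s ω)} :=
    (opn_MES (d := d) (pc d)).rchT (ghost_MVS false s) y
  rw [h3]
  have h4 : (Pr d).real {ω : Om d | RchT (opn (pc d) ω) y (ghost false s ω)} = Mr d (pc d) s := by
    unfold Mr
    rw [← Mg_shift (pc d) s y]
    rfl
  rw [measureReal_restrict_apply MeasurableSet.univ, Set.univ_inter,
    probReal_compl_eq_one_sub hT, h4]

theorem sg_exp_integrable (s : ℝ) (hs : 0 < s) (y : V d) :
    Integrable (fun ω : Om d => Real.exp (-(s * (Nc (Oc ω) y : ℝ)))) (Pr d) := by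
  have h0 := sg_Nc_measurable (D0 : Del (V d)) y
  simp only [sg_D0_rem] at h0
  refine sg_bdd_integrable (B := 1) (Real.measurable_exp.comp ((h0.const_mul s).neg)) fun ω => ?_
  rw [abs_of_pos (Real.exp_pos _)]
  refine Real.exp_le_one_iff.2 ?_
  have : 0 ≤ s * (Nc (Oc ω) y : ℝ) := by positivity
  linarith

theorem sg_one_sub_integral (hC : Crit d) (h5 : Out5 d) (s : ℝ) (hs : 0 < s) (y : V d) :
    ∫ ω, (1 - Real.exp (-(s * (Nc (Oc ω) y : ℝ)))) ∂(Pr d) = Mr d (pc d) s := by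
  rw [integral_sub (integrable_const 1) (sg_exp_integrable s hs y),
    sg_exp_integral hC h5 s hs y]
  simp

/-- `E[1-e^{-sN}] = M(s)` at `p_c` (any vertex) -/
theorem EW1_eq (hC : Crit d) (h5 : Out5 d) (s : ℝ) (hs : 0 < s) (y : V d) :
    EW W1 s (D0 : Del (V d)) y = Mr d (pc d) s := by
  unfold EW
  simp only [sg_W1]
  exact sg_one_sub_integral hC h5 s hs y

theorem sg_xexp {x : ℝ} (hx : 0 ≤ x) : x * Real.exp (-x) ≤ 1 - Real.exp (-x) := by
  have h1 : x + 1 ≤ Real.exp x := Real.add_one_le_exp x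
  have h2 : Real.exp x * Real.exp (-x) = 1 := by rw [← Real.exp_add]; simp
  have h3 : 0 < Real.exp (-x) := Real.exp_pos _
  nlinarith

theorem smallG (hC : Crit d) (h5 : Out5 d) {W : ℝ → Set (Sym2 (V d)) → V d → ℝ} {c : ℝ}
    (hW : IsLSF W c) : ∃ C : ℝ, 0 < C ∧ ∀ κ s : ℝ, 0 < κ → κ ≤ 1 → 0 < s → s ≤ κ →
      ∀ (A : Del (V d)) (y : V d),
        ∫ ω, Set.indicator {ω : Om d | ¬ RchA A (Oc ω) y (ghost false (s / κ) ω)}
          (fun ω => |WA W s A (Oc ω) y|) ω ∂(Pr d) ≤ C * (Real.sqrt κ * Real.sqrt s) := by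
  classical
  obtain ⟨C', hC', hb⟩ := h5.bounds
  have hc := hW.one_le
  refine ⟨c * C', by positivity, ?_⟩
  intro κ s hκ hκ1 hs hsκ A y
  have hs1 : s ≤ 1 := hsκ.trans hκ1
  have hσ : 0 < s / κ := div_pos hs hκ
  have hσ1 : s / κ ≤ 1 := by rw [div_le_one hκ]; exact hsκ
  have hmeas : Measurable (fun ω : Om d => |WA W s A (Oc ω) y|) := by
    have := (WA_measurable hW hs hs1 A y).norm
    simpa only [Real.norm_eq_abs] using this
  rw [ghost_int hC h5 A y (s / κ) hσ (fun ω => |WA W s A (Oc ω) y|) hmeas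
    ⟨c, fun ω => by rw [abs_abs]; exact WA_le_c hW hs hs1 A _ y⟩
    (fun ω ω' h => by
      show |WA W s A (opn (pc d) ω) y| = |WA W s A (opn (pc d) ω') y|
      rw [sg_dep_opn (pc d) ω ω' h])]
  have hpt : ∀ᵐ ω ∂(Pr d), |WA W s A (Oc ω) y| * (if y ∈ A.S then 1 else
        Real.exp (-(s / κ * (Nc (A.rem (Oc ω)) y : ℝ)))) ≤
      (c * κ) * (1 - Real.exp (-(s / κ * (Nc (Oc ω) y : ℝ)))) := by
    filter_upwards [sg_ae_fin h5 y] with ω hω
    have hpos : 0 ≤ 1 - Real.exp (-(s / κ * (Nc (Oc ω) y : ℝ))) := by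
      have h1 : 0 ≤ s / κ * (Nc (Oc ω) y : ℝ) := by positivity
      have h2 : Real.exp (-(s / κ * (Nc (Oc ω) y : ℝ))) ≤ 1 :=
        Real.exp_le_one_iff.2 (by linarith)
      linarith
    by_cases hy : y ∈ A.S
    · have h0 : WA W s A (Oc ω) y = 0 := by simp [WA, hy]
      rw [h0, abs_zero, zero_mul]
      positivity
    · rw [if_neg hy]
      set N : ℝ := (Nc (A.rem (Oc ω)) y : ℝ) with hN
      have hN0 : 0 ≤ N := Nat.cast_nonneg _
      have hNle : N ≤ (Nc (Oc ω) y : ℝ) := by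
        rw [hN]
        exact Nat.cast_le.2 (Nc_rem_le A (Oc ω) y hω)
      have hx : 0 ≤ s / κ * N := by positivity
      have h1 : |WA W s A (Oc ω) y| ≤ (c * κ) * (s / κ * N) := by
        have e1 : (c * κ) * (s / κ * N) = c * (s * N) := by
          field_simp
        rw [e1]
        refine (WA_abs_le hW hs hs1 A _ y).trans ?_
        exact mul_le_mul_of_nonneg_left (min_le_right _ _) (by linarith)
      have hck : 0 ≤ c * κ := by positivity
      calc |WA W s A (Oc ω) y| * Real.exp (-(s / κ * N))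
          ≤ (c * κ) * (s / κ * N) * Real.exp (-(s / κ * N)) :=
            mul_le_mul_of_nonneg_right h1 (Real.exp_pos _).le
        _ = (c * κ) * ((s / κ * N) * Real.exp (-(s / κ * N))) := by ring
        _ ≤ (c * κ) * (1 - Real.exp (-(s / κ * N))) :=
            mul_le_mul_of_nonneg_left (sg_xexp hx) hck
        _ ≤ (c * κ) * (1 - Real.exp (-(s / κ * (Nc (Oc ω) y : ℝ)))) := by
            refine mul_le_mul_of_nonneg_left ?_ hck
            have h3 : Real.exp (-(s / κ * (Nc (Oc ω) y : ℝ))) ≤ Real.exp (-(s / κ * N)) := by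
              refine Real.exp_le_exp.2 ?_
              have := mul_le_mul_of_nonneg_left hNle hσ.le
              linarith
            linarith
  have hint : Integrable (fun ω : Om d =>
      (c * κ) * (1 - Real.exp (-(s / κ * (Nc (Oc ω) y : ℝ))))) (Pr d) :=
    ((integrable_const 1).sub (sg_exp_integrable (s / κ) hσ y)).const_mul _
  have h0 : 0 ≤ᵐ[Pr d] fun ω => |WA W s A (Oc ω) y| * (if y ∈ A.S then 1 else
        Real.exp (-(s / κ * (Nc (A.rem (Oc ω)) y : ℝ)))) := by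
    refine ae_of_all _ fun ω => mul_nonneg (abs_nonneg _) ?_
    split_ifs
    · exact zero_le_one
    · exact (Real.exp_pos _).le
  refine (integral_mono_of_nonneg h0 hint hpt).trans ?_
  rw [integral_const_mul, sg_one_sub_integral hC h5 (s / κ) hσ y]
  have h2 := (hb (s / κ) hσ hσ1).1
  have h3 : κ * Real.sqrt (s / κ) = Real.sqrt κ * Real.sqrt s := by
    rw [Real.sqrt_div hs.le]
    have hk : 0 < Real.sqrt κ := Real.sqrt_pos.2 hκ
    have hkk : Real.sqrt κ * Real.sqrt κ = κ := Real.mul_self_sqrt hκ.le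
    field_simp
    nlinarith
  calc c * κ * Mr d (pc d) (s / κ) ≤ c * κ * (C' * Real.sqrt (s / κ)) :=
        mul_le_mul_of_nonneg_left h2 (by positivity)
    _ = c * C' * (κ * Real.sqrt (s / κ)) := by ring
    _ = c * C' * (Real.sqrt κ * Real.sqrt s) := by rw [h3]

/-- in particular `|EW| ≤ C √s` uniformly in `A, y` -/
theorem EW_le_sqrt (hC : Crit d) (h5 : Out5 d) {W : ℝ → Set (Sym2 (V d)) → V d → ℝ} {c : ℝ}
    (hW : IsLSF W c) : ∃ C : ℝ, 0 < C ∧ ∀ s : ℝ, 0 < s → s ≤ 1 →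
      ∀ (A : Del (V d)) (y : V d), |EW W s A y| ≤ C * Real.sqrt s := by
  obtain ⟨C', hC', hb⟩ := h5.bounds
  have hc := hW.one_le
  refine ⟨2 * c * C', by positivity, ?_⟩
  intro s hs hs1 A y
  refine EW_abs_le hW h5.theta_pc (C := C') ?_ hs hs1 A y
  intro s hs hs1
  rw [sg_one_sub_integral hC h5 s hs 0]
  exact (hb s hs hs1).1

end Pool.Agent.PB
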