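import Pool.Agent.PB.Mix.Pt
import Pool.Agent.PB.Mix.SmallG
import Pool.Agent.PB.Mix.D2P
import Pool.Agent.PB.Mix.NlP
import Pool.Agent.PB.Mix.MainT
import Pool.Agent.PB.Mix.KerB
import Pool.Agent.PB.Mix.GF
import Pool.Agent.PB.P.Act

/-!
# PB / Mix / DecompFin: 6.3 (e), finite form
The deterministic facts of Section 2 are in `gfacts` (GF.lean).

Plan. Take expectations in `pointwise` (Pt) with `T = ghost false (s/κ) ω`, a.s. finite cluster (`h5.theta_pc`), `Oc ω ⊆ lat` edges, and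
`Q = Q(R1,R2)` = the finite set of all local triples. With `mainTerm`, `smallG` (for `D0` and for `A`; `RchT O y T ↔ RchA D0 O y T`), `D2P`, `NlP`:
 `|EW D0 y - EW A y - Σ_{q∈Q} kw q EW(K_q,v_q)| ≤ 2 C √κ √s + 2c C_A s/κ + 2c C_A (π(R1-r) + (2R1+1)^d π(R2)) √(s/κ) + 2 c s |bx R2| + Σ_{q∈Q} kw q (C √κ √s + c (s/κ)|K_q|)`.
Tail: `|Σ'_q kw q EW_q - Σ_{q∈Q}| ≤ (Σ'_{q∉Q} kw q) C √s` (`EW_le_sqrt`), and `Q(R1,R2)` exhausts all `q` with `kw q ≠ 0` as `R1, R2 → ∞` (kw q ≠ 0 implies `v` adjacent to `u`; for `R1` fixed the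
triples with `u ∈ bx R1 y` are exhausted as `R2 → ∞`; use summability). `EW D0 y = EW D0 0` (translation: `IsLSF.transl` and invariance of `Pr d`).
Given `ε`: choose `κ`, then `R1`, then `R2`, then `s` small. Divide by `√s`.
-/

set_option autoImplicit false
open MeasureTheory Filter Topology
open scoped ENNReal BigOperators

namespace Pool.Agent.PB

variable {d : ℕ}

theorem bx_finite (R : ℕ) (x : V d) : (bx R x).Finite := by
  have h : bx R x ⊆ Set.pi Set.univ (fun i => Set.Icc (x i - R) (x i + R)) := by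
    intro y hy i _
    have := hy i
    rw [abs_le] at this
    constructor <;> linarith [this.1, this.2]
  exact (Set.Finite.pi fun i => Set.finite_Icc _ _).subset h

theorem rem_D0 (O : Set (Sym2 (V d))) : (D0 : Del (V d)).rem O = O := by
  ext e; simp [D0, Del.rem, Del.ofSet]

theorem WA_D0 (W : ℝ → Set (Sym2 (V d)) → V d → ℝ) (s : ℝ) (O : Set (Sym2 (V d))) (y : V d) :
    WA W s D0 O y = W s O y := by
  unfold WA
  rw [if_neg (by simp [D0, Del.ofSet]), rem_D0]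

theorem RchA_D0_iff (O : Set (Sym2 (V d))) (y : V d) (T : Set (V d)) :
    RchA D0 O y T ↔ RchT O y T := by
  unfold RchA RchT
  simp only [mem_ClA, rem_D0]
  simp [D0, Del.ofSet]

/-- translation invariance -/
theorem EW_shift {W : ℝ → Set (Sym2 (V d)) → V d → ℝ} {c : ℝ} (hW : IsLSF W c) (s : ℝ)
    (y : V d) : EW W s D0 y = EW W s D0 0 := by
  unfold EW
  have key : ∀ ω : Om d, WA W s D0 (Oc (act (trI y) ω)) 0 = WA W s D0 (Oc ω) y := by
    intro ω
    rw [WA_D0, WA_D0]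
    have h1 : shE y (Oc (act (trI y) ω)) = Oc ω := by
      ext e
      unfold shE Oc
      rw [opn_act (trI_aut y)]
      constructor
      · rintro ⟨f, hf, rfl⟩
        exact hf
      · intro he
        refine ⟨Sym2.map (fun x => x - y) e, ?_, ?_⟩
        · show Sym2.map (trI y) (Sym2.map (fun x => x - y) e) ∈ opn (pc d) ω
          rw [Sym2.map_map]
          have : (trI y) ∘ (fun x => x - y) = id := by funext x; simp [trI_apply]
          rw [this, Sym2.map_id]; exact he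
        · rw [Sym2.map_map]
          have : (fun x : V d => x + y) ∘ (fun x => x - y) = id := by funext x; simp
          rw [this, Sym2.map_id]; rfl
    rw [← hW.transl s (Oc (act (trI y) ω)) 0 y, h1, zero_add]
  rw [← integral_congr_ae (Filter.Eventually.of_forall key)]
  exact (act_mp (trI y)).integral_comp (relab (autI (trI y))).measurableEmbedding
    (fun ω => WA W s D0 (Oc ω) 0)

/-! ### measurability -/

theorem Oc_MES : MES (fun ω : Om d => Oc ω) := opn_MES (pc d)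

theorem meas_KC (A : Del (V d)) (y u v : V d) (K : Set (V d)) (σ : ℝ) :
    MeasurableSet {ω : Om d | KC (Oc ω) y A (ghost false σ ω) u v K} := by
  have : {ω : Om d | KC (Oc ω) y A (ghost false σ ω) u v K} =
      {ω | s(u, v) ∈ Oc ω} ∩ ({ω | Cl (del1 (Oc ω) s(u, v)) y = K} ∩ ({_ω | v ∉ K} ∩
      ({ω | EPrime (del1 (Oc ω) s(u, v)) y u A} ∩
      ((⋂ x : V d, ⋂ _ : x ∈ K, {ω | x ∈ ghost false σ ω}ᶜ) ∩
      {ω | RchT ((Del.ofSet K).rem (Oc ω)) v (ghost false σ ω)})))) := by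
    ext ω
    simp only [KC, Set.mem_ofPred_eq, Set.mem_inter_iff, Set.mem_iInter, Set.mem_compl_iff]
  rw [this]
  refine (Oc_MES _).inter (((Oc_MES.del1 _).cl y).eq_set K |>.inter ((MeasurableSet.const _).inter
    (((Oc_MES.del1 _).eprime y u A).inter (MeasurableSet.inter ?_
      ((Oc_MES.rem _).rchT (ghost_MVS false σ) v)))))
  exact MeasurableSet.iInter fun x => MeasurableSet.iInter fun _ => (ghost_MVS false σ x).compl

theorem meas_D2 (A : Del (V d)) (y : V d) (σ : ℝ) :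
    MeasurableSet {ω : Om d | D2 (Oc ω) y A (ghost false σ ω)} := by
  have : {ω : Om d | D2 (Oc ω) y A (ghost false σ ω)} =
      ⋃ a : V d, ⋃ _ : a ∈ Vs A y, ⋃ a' : V d, ⋃ _ : a' ∈ Vs A y, ⋃ g : V d, ⋃ g' : V d,
        ({ω | g ∈ ghost false σ ω} ∩ ({ω | g' ∈ ghost false σ ω} ∩
          {ω | DisjConn (Oc ω) ![(a, g), (a', g')]})) := by
    ext ω
    simp only [D2, Set.mem_ofPred_eq, Set.mem_iUnion, Set.mem_inter_iff, exists_prop]
    constructor
    · rintro ⟨a, ha, a', ha', g, hg, g', hg', h⟩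
      exact ⟨a, ha, a', ha', g, g', hg, hg', h⟩
    · rintro ⟨a, ha, a', ha', g, g', hg, hg', h⟩
      exact ⟨a, ha, a', ha', g, hg, g', hg', h⟩
  rw [this]
  refine MeasurableSet.iUnion fun a => MeasurableSet.iUnion fun _ => MeasurableSet.iUnion fun a' =>
    MeasurableSet.iUnion fun _ => MeasurableSet.iUnion fun g => MeasurableSet.iUnion fun g' => ?_
  exact (ghost_MVS false σ g).inter ((ghost_MVS false σ g').inter (Oc_MES.disjConn _))

/-- the random deletion of a random cluster -/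
theorem MES.remSet {Ω W' : Type*} [MeasurableSpace Ω] [Countable W'] {S : Ω → Set (Sym2 W')}
    (hS : MES S) {C : Ω → Set W'} (hC : MVS C) :
    MES (fun ω => (Del.ofSet (C ω)).rem (S ω)) := fun f => by
  have : {ω | f ∈ (Del.ofSet (C ω)).rem (S ω)} =
      {ω | f ∈ S ω} ∩ ⋂ x : W', ⋂ _ : x ∈ f, {ω | x ∈ C ω}ᶜ := by
    ext ω
    simp only [Del.ofSet_rem, Set.mem_ofPred_eq, Set.mem_inter_iff, Set.mem_iInter,
      Set.mem_compl_iff]
  rw [this]
  exact (hS f).inter (MeasurableSet.iInter fun x => MeasurableSet.iInter fun _ => (hC x).compl)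

theorem meas_Nl (A : Del (V d)) (y : V d) (R1 R2 : ℕ) (σ : ℝ) :
    MeasurableSet {ω : Om d | Nl (Oc ω) y A (ghost false σ ω) R1 R2} := by
  have : {ω : Om d | Nl (Oc ω) y A (ghost false σ ω) R1 R2} =
      ⋃ u : V d, ⋃ v : V d, ({ω | s(u, v) ∈ Oc ω} ∩
        ({ω | u ∈ Cl (del1 (Oc ω) s(u, v)) y} ∩ ({ω | v ∈ Cl (del1 (Oc ω) s(u, v)) y}ᶜ ∩
        ({ω | RchT ((Del.ofSet (Cl (del1 (Oc ω) s(u, v)) y)).rem (Oc ω)) v (ghost false σ ω)} ∩
        (({_ω | u ∉ bx R1 y} ∩ ⋃ a : V d, ⋃ _ : a ∈ Vs A y, ⋃ a' : V d, ⋃ _ : a' ∈ Vs A y,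
            {ω | DisjConn (del1 (Oc ω) s(u, v)) ![(a, u), (a', u)]}) ∪
          ({_ω | u ∈ bx R1 y} ∩ {ω | Cl (del1 (Oc ω) s(u, v)) y ⊆ bx R2 y}ᶜ)))))) := by
    ext ω
    simp only [Nl, Set.mem_ofPred_eq, Set.mem_iUnion, Set.mem_inter_iff, exists_prop,
      Set.mem_compl_iff, Set.mem_union]
  rw [this]
  refine MeasurableSet.iUnion fun u => MeasurableSet.iUnion fun v => ?_
  refine (Oc_MES _).inter (((Oc_MES.del1 _).cl y u).inter (((Oc_MES.del1 _).cl y v).compl.inter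
    (MeasurableSet.inter ?_ (MeasurableSet.union ?_ ?_))))
  · exact (Oc_MES.remSet ((Oc_MES.del1 _).cl y)).rchT (ghost_MVS false σ) v
  · refine (MeasurableSet.const _).inter (MeasurableSet.iUnion fun a => MeasurableSet.iUnion
      fun _ => MeasurableSet.iUnion fun a' => MeasurableSet.iUnion fun _ => ?_)
    exact (Oc_MES.del1 _).disjConn _
  · exact (MeasurableSet.const _).inter (((Oc_MES.del1 _).cl y).subset_set _).compl

theorem ind_unit {P : Prop} (x : ℝ) {Ω : Type*} (S : Set Ω) (f : Ω → ℝ) (ω : Ω)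
    (h : ω ∈ S ↔ P) (hf : f ω = x) :
    Set.indicator {_x : Unit | P} (fun _ => x) () = Set.indicator S f ω := by
  classical
  rw [Set.indicator_apply, Set.indicator_apply]
  by_cases hP : P
  · rw [if_pos (h.2 hP), if_pos (by exact hP), hf]
  · rw [if_neg (fun h' => hP (h.1 h')), if_neg (by exact hP)]

theorem kw_nonneg (A : Del (V d)) (y : V d) (q : Tr d) : 0 ≤ kw A y q := ENNReal.toReal_nonneg

theorem integral_ind_const {S : Set (Om d)} (hS : MeasurableSet S) (x : ℝ) :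
    ∫ ω, Set.indicator S (fun _ => x) ω ∂(Pr d) = x * (Pr d S).toReal := by
  rw [integral_indicator_const x hS, smul_eq_mul, mul_comm]
  rfl

/-- almost surely the critical cluster of `y` is finite -/
theorem ae_finite (h5 : Out5 d) (y : V d) : ∀ᵐ ω ∂(Pr d), (Cl (Oc ω) y).Finite := by
  rw [ae_iff]
  have := theta_shift (pc d) y
  rw [h5.theta_pc] at this
  exact this

theorem int_add5 {f1 f2 f3 f4 f5 : Om d → ℝ} (h1 : Integrable f1 (Pr d))
    (h2 : Integrable f2 (Pr d)) (h3 : Integrable f3 (Pr d)) (h4 : Integrable f4 (Pr d))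
    (h5 : Integrable f5 (Pr d)) :
    ∫ ω, (f1 ω + f2 ω + f3 ω + f4 ω + f5 ω) ∂(Pr d) =
      (∫ ω, f1 ω ∂(Pr d)) + (∫ ω, f2 ω ∂(Pr d)) + (∫ ω, f3 ω ∂(Pr d)) + (∫ ω, f4 ω ∂(Pr d)) +
        (∫ ω, f5 ω ∂(Pr d)) := by
  rw [integral_add (f := fun ω => f1 ω + f2 ω + f3 ω + f4 ω) (((h1.add h2).add h3).add h4) h5,
    integral_add (f := fun ω => f1 ω + f2 ω + f3 ω) ((h1.add h2).add h3) h4,
    integral_add (f := fun ω => f1 ω + f2 ω) (h1.add h2) h3, integral_add h1 h2]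

theorem int_sub3 {ι : Type*} (Q : Finset ι) {f1 f2 : Om d → ℝ} {g : ι → Om d → ℝ}
    (h1 : Integrable f1 (Pr d)) (h2 : Integrable f2 (Pr d))
    (h3 : ∀ q ∈ Q, Integrable (g q) (Pr d)) :
    ∫ ω, (f1 ω - f2 ω - ∑ q ∈ Q, g q ω) ∂(Pr d) =
      (∫ ω, f1 ω ∂(Pr d)) - (∫ ω, f2 ω ∂(Pr d)) - ∑ q ∈ Q, ∫ ω, g q ω ∂(Pr d) := by
  rw [integral_sub (f := fun ω => f1 ω - f2 ω) (h1.sub h2) (integrable_finsetSum _ h3),
    integral_sub h1 h2, integral_finsetSum _ h3]

/-- the integrated pointwise inequality -/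
theorem decomp_int (h5 : Out5 d) {W : ℝ → Set (Sym2 (V d)) → V d → ℝ} {c : ℝ}
    (hW : IsLSF W c) (A : Del (V d)) (y : V d) (hA : A.Finite) (hy : y ∉ A.S) (R1 R2 : ℕ)
    {s : ℝ} (hs : 0 < s) (hs1 : s ≤ 1) (σ : ℝ) (Q : Finset (Tr d))
    (hQ : ∀ u v K, (u, v, K) ∈ Q ↔
        u ∈ bx R1 y ∧ (K : Set (V d)) ⊆ bx R2 y ∧ s(u, v) ∈ (lat d).edgeSet) :
    |EW W s D0 y - EW W s A y - ∑ q ∈ Q, ∫ ω, Set.indicator {ω : Om d |
        KC (Oc ω) y A (ghost false σ ω) q.1 q.2.1 (q.2.2 : Set (V d))}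
          (fun ω => WA W s (Del.ofSet (q.2.2 : Set (V d))) (Oc ω) q.2.1) ω ∂(Pr d)| ≤
      (∫ ω, Set.indicator {ω : Om d | ¬ RchA D0 (Oc ω) y (ghost false σ ω)}
          (fun ω => |WA W s D0 (Oc ω) y|) ω ∂(Pr d)) +
      (∫ ω, Set.indicator {ω : Om d | ¬ RchA A (Oc ω) y (ghost false σ ω)}
          (fun ω => |WA W s A (Oc ω) y|) ω ∂(Pr d)) +
      2 * c * (Pr d {ω : Om d | D2 (Oc ω) y A (ghost false σ ω)}).toReal +
      2 * c * (Pr d {ω : Om d | Nl (Oc ω) y A (ghost false σ ω) R1 R2}).toReal +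
      2 * c * s * ((bx R2 y).ncard : ℝ) := by
  have hD := gfacts d
  -- integrability
  have i1 : Integrable (fun ω : Om d => WA W s D0 (Oc ω) y) (Pr d) := WA_integrable hW hs hs1 D0 y
  have i2 : Integrable (fun ω : Om d => WA W s A (Oc ω) y) (Pr d) := WA_integrable hW hs hs1 A y
  have i3 : ∀ q ∈ Q, Integrable (fun ω : Om d => Set.indicator {ω : Om d |
        KC (Oc ω) y A (ghost false σ ω) q.1 q.2.1 (q.2.2 : Set (V d))}
          (fun ω => WA W s (Del.ofSet (q.2.2 : Set (V d))) (Oc ω) q.2.1) ω) (Pr d) := fun q _ =>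
    (WA_integrable hW hs hs1 _ _).indicator (meas_KC A y q.1 q.2.1 _ σ)
  have m1 : MeasurableSet {ω : Om d | ¬ RchA D0 (Oc ω) y (ghost false σ ω)} :=
    (Oc_MES.rchA (ghost_MVS false σ) D0 y).compl
  have m2 : MeasurableSet {ω : Om d | ¬ RchA A (Oc ω) y (ghost false σ ω)} :=
    (Oc_MES.rchA (ghost_MVS false σ) A y).compl
  have j1 : Integrable (fun ω : Om d => Set.indicator
      {ω : Om d | ¬ RchA D0 (Oc ω) y (ghost false σ ω)}
          (fun ω => |WA W s D0 (Oc ω) y|) ω) (Pr d) := i1.abs.indicator m1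
  have j2 : Integrable (fun ω : Om d => Set.indicator
      {ω : Om d | ¬ RchA A (Oc ω) y (ghost false σ ω)}
          (fun ω => |WA W s A (Oc ω) y|) ω) (Pr d) := i2.abs.indicator m2
  have j3 : Integrable (fun ω : Om d => Set.indicator
      {ω : Om d | D2 (Oc ω) y A (ghost false σ ω)} (fun _ => 2 * c) ω) (Pr d) :=
    (integrable_const _).indicator (meas_D2 A y σ)
  have j4 : Integrable (fun ω : Om d => Set.indicator
      {ω : Om d | Nl (Oc ω) y A (ghost false σ ω) R1 R2} (fun _ => 2 * c) ω) (Pr d) :=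
    (integrable_const _).indicator (meas_Nl A y R1 R2 σ)
  have j5 : Integrable (fun _ : Om d => 2 * c * s * ((bx R2 y).ncard : ℝ)) (Pr d) :=
    integrable_const _
  -- left side as an integral
  have hL : EW W s D0 y - EW W s A y - ∑ q ∈ Q, ∫ ω, Set.indicator {ω : Om d |
        KC (Oc ω) y A (ghost false σ ω) q.1 q.2.1 (q.2.2 : Set (V d))}
          (fun ω => WA W s (Del.ofSet (q.2.2 : Set (V d))) (Oc ω) q.2.1) ω ∂(Pr d) =
      ∫ ω, (WA W s D0 (Oc ω) y - WA W s A (Oc ω) y - ∑ q ∈ Q, Set.indicator {ω : Om d |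
        KC (Oc ω) y A (ghost false σ ω) q.1 q.2.1 (q.2.2 : Set (V d))}
          (fun ω => WA W s (Del.ofSet (q.2.2 : Set (V d))) (Oc ω) q.2.1) ω) ∂(Pr d) := by
    rw [int_sub3 Q i1 i2 i3]
    rfl
  rw [hL]
  refine (abs_integral_le_integral_abs).trans ?_
  have hR : (∫ ω, Set.indicator {ω : Om d | ¬ RchA D0 (Oc ω) y (ghost false σ ω)}
          (fun ω => |WA W s D0 (Oc ω) y|) ω ∂(Pr d)) +
      (∫ ω, Set.indicator {ω : Om d | ¬ RchA A (Oc ω) y (ghost false σ ω)}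
          (fun ω => |WA W s A (Oc ω) y|) ω ∂(Pr d)) +
      2 * c * (Pr d {ω : Om d | D2 (Oc ω) y A (ghost false σ ω)}).toReal +
      2 * c * (Pr d {ω : Om d | Nl (Oc ω) y A (ghost false σ ω) R1 R2}).toReal +
      2 * c * s * ((bx R2 y).ncard : ℝ) =
      ∫ ω, (Set.indicator {ω : Om d | ¬ RchA D0 (Oc ω) y (ghost false σ ω)}
          (fun ω => |WA W s D0 (Oc ω) y|) ω +
        Set.indicator {ω : Om d | ¬ RchA A (Oc ω) y (ghost false σ ω)}
          (fun ω => |WA W s A (Oc ω) y|) ω +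
        Set.indicator {ω : Om d | D2 (Oc ω) y A (ghost false σ ω)} (fun _ => 2 * c) ω +
        Set.indicator {ω : Om d | Nl (Oc ω) y A (ghost false σ ω) R1 R2} (fun _ => 2 * c) ω +
        2 * c * s * ((bx R2 y).ncard : ℝ)) ∂(Pr d) := by
    rw [int_add5 j1 j2 j3 j4 j5, integral_ind_const (meas_D2 A y σ),
      integral_ind_const (meas_Nl A y R1 R2 σ), integral_const, probReal_univ, one_smul]
  rw [hR]
  refine integral_mono_ae ((i1.sub i2).sub (integrable_finsetSum _ i3)).abs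
    ((((j1.add j2).add j3).add j4).add j5) ?_
  filter_upwards [ae_finite h5 y] with ω hω
  have hO : Oc ω ⊆ (lat d).edgeSet := fun e he => he.1
  have := pointwise hW hs hs1 hO hy (T := ghost false σ ω) hω R1 R2 Q hQ
    (hD.dec _ A y _ hy hA hω) (hD.conv _ A y _) (hD.uniq _ A y _)
    (hD.first _ A y _ hy hA hω) (fun u v K => hD.nosep _ A y _ u v K hω)
  have e1 : Set.indicator {_x : Unit | ¬ RchT (Oc ω) y (ghost false σ ω)}
      (fun _ => |WA W s D0 (Oc ω) y|) () =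
      Set.indicator {ω : Om d | ¬ RchA D0 (Oc ω) y (ghost false σ ω)}
          (fun ω => |WA W s D0 (Oc ω) y|) ω :=
    ind_unit _ _ _ _ (by
      show ¬ RchA D0 (Oc ω) y (ghost false σ ω) ↔ _
      rw [RchA_D0_iff]) rfl
  have e2 : Set.indicator {_x : Unit | ¬ RchA A (Oc ω) y (ghost false σ ω)}
      (fun _ => |WA W s A (Oc ω) y|) () =
      Set.indicator {ω : Om d | ¬ RchA A (Oc ω) y (ghost false σ ω)}
          (fun ω => |WA W s A (Oc ω) y|) ω :=
    ind_unit _ _ _ _ Iff.rfl rfl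
  have e3 : Set.indicator {_x : Unit | D2 (Oc ω) y A (ghost false σ ω)} (fun _ => 2 * c) () =
      Set.indicator {ω : Om d | D2 (Oc ω) y A (ghost false σ ω)} (fun _ => 2 * c) ω :=
    ind_unit _ _ _ _ Iff.rfl rfl
  have e4 : Set.indicator {_x : Unit | Nl (Oc ω) y A (ghost false σ ω) R1 R2}
      (fun _ => 2 * c) () =
      Set.indicator {ω : Om d | Nl (Oc ω) y A (ghost false σ ω) R1 R2} (fun _ => 2 * c) ω :=
    ind_unit _ _ _ _ Iff.rfl rfl
  have e5 : ∀ q : Tr d, Set.indicator {q : Tr d | KC (Oc ω) y A (ghost false σ ω) q.1 q.2.1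
      (q.2.2 : Set (V d))} (fun q => WA W s (Del.ofSet (q.2.2 : Set (V d))) (Oc ω) q.2.1) q =
      Set.indicator {ω : Om d | KC (Oc ω) y A (ghost false σ ω) q.1 q.2.1 (q.2.2 : Set (V d))}
          (fun ω => WA W s (Del.ofSet (q.2.2 : Set (V d))) (Oc ω) q.2.1) ω := by
    intro q
    classical
    rw [Set.indicator_apply, Set.indicator_apply]
    rfl
  rw [e1, e2, e3, e4, Finset.sum_congr rfl fun q _ => e5 q] at this
  exact this

/-- 6.3 (e) with finite sums -/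
theorem decomp_fin (hC : Crit d) (h5 : Out5 d) {W : ℝ → Set (Sym2 (V d)) → V d → ℝ} {c : ℝ}
    (hW : IsLSF W c) (A : Del (V d)) (y : V d) (hA : A.Finite) (hy : y ∉ A.S) :
    ∃ (r : ℕ) (C : ℝ), 0 < C ∧ ∀ (R1 R2 : ℕ), r ≤ R1 → ∃ C' : ℝ, ∀ κ s : ℝ,
      0 < κ → κ ≤ 1 → 0 < s → s ≤ κ → ∀ Q : Finset (Tr d),
      (∀ u v K, (u, v, K) ∈ Q ↔
        u ∈ bx R1 y ∧ (K : Set (V d)) ⊆ bx R2 y ∧ s(u, v) ∈ (lat d).edgeSet) →
      |EW W s D0 y - EW W s A y -
          ∑ q ∈ Q, kw A y q * EW W s (Del.ofSet (q.2.2 : Set (V d))) q.2.1| ≤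
        C * (Real.sqrt κ * Real.sqrt s) + C' * (s / κ) +
        C * ((piR d (R1 - r)).toReal + (2 * (R1 : ℝ) + 1) ^ d * (piR d R2).toReal) *
          Real.sqrt (s / κ) := by
  obtain ⟨C1, hC1, H1⟩ := mainTerm hC h5 hW
  obtain ⟨C2, hC2, H2⟩ := smallG hC h5 hW
  obtain ⟨C3, hC3, H3⟩ := D2P hC h5 A hA y
  obtain ⟨r, C4, hC4, H4⟩ := NlP hC h5 A hA y
  have hc : 1 ≤ c := hW.one_le
  have hc0 : 0 ≤ c := zero_le_one.trans hc
  have hKs := kw_summable hC A y hA hy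
  set Kw : ℝ := ∑' q : Tr d, kw A y q with hKw
  have hKw0 : 0 ≤ Kw := tsum_nonneg fun q => kw_nonneg A y q
  refine ⟨r, C1 * Kw + 2 * C2 + 2 * c * C4, by positivity, fun R1 R2 hR1 => ?_⟩
  set B : ℝ := ((bx R2 y).ncard : ℝ) with hB
  have hB0 : 0 ≤ B := Nat.cast_nonneg _
  refine ⟨2 * c * C3 + 2 * c * B + Kw * c * B, fun κ s hκ hκ1 hs hsκ Q hQ => ?_⟩
  have hs1 : s ≤ 1 := hsκ.trans hκ1
  have hσ : 0 < s / κ := div_pos hs hκ
  have hσ1 : s / κ ≤ 1 := (div_le_one hκ).2 hsκ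
  have hsσ : s ≤ s / κ := by
    rw [le_div_iff₀ hκ]; nlinarith
  have hint := decomp_int h5 hW A y hA hy R1 R2 hs hs1 (s / κ) Q hQ
  have a1 := H2 κ s hκ hκ1 hs hsκ D0 y
  have a2 := H2 κ s hκ hκ1 hs hsκ A y
  have a3 := H3 (s / κ) hσ hσ1
  have a4 := H4 R1 R2 hR1 (s / κ) hσ hσ1
  -- the main terms
  have hmain : |∑ q ∈ Q, ((∫ ω, Set.indicator {ω : Om d |
        KC (Oc ω) y A (ghost false (s / κ) ω) q.1 q.2.1 (q.2.2 : Set (V d))}
          (fun ω => WA W s (Del.ofSet (q.2.2 : Set (V d))) (Oc ω) q.2.1) ω ∂(Pr d)) -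
        kw A y q * EW W s (Del.ofSet (q.2.2 : Set (V d))) q.2.1)| ≤
      Kw * (C1 * (Real.sqrt κ * Real.sqrt s) + c * (s / κ) * B) := by
    refine (Finset.abs_sum_le_sum_abs _ _).trans ?_
    calc _ ≤ ∑ q ∈ Q, kw A y q * (C1 * (Real.sqrt κ * Real.sqrt s) + c * (s / κ) * B) := by
          refine Finset.sum_le_sum fun q hq => ?_
          obtain ⟨u, v, K⟩ := q
          obtain ⟨hu, hK, he⟩ := (hQ u v K).1 hq
          refine (H1 κ s hκ hκ1 hs hsκ A y hA hy u v K he).trans ?_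
          refine mul_le_mul_of_nonneg_left ?_ (kw_nonneg A y _)
          refine add_le_add le_rfl (mul_le_mul_of_nonneg_left ?_ (by positivity))
          rw [hB]
          have : K.card ≤ (bx R2 y).ncard := by
            rw [← Set.ncard_coe_finset]
            exact Set.ncard_le_ncard hK (bx_finite R2 y)
          exact_mod_cast this
      _ = (∑ q ∈ Q, kw A y q) * (C1 * (Real.sqrt κ * Real.sqrt s) + c * (s / κ) * B) := by
          rw [Finset.sum_mul]
      _ ≤ _ := by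
          refine mul_le_mul_of_nonneg_right ?_ (by positivity)
          exact hKs.sum_le_tsum Q fun q _ => kw_nonneg A y q
  rw [Finset.sum_sub_distrib] at hmain
  have htri : |EW W s D0 y - EW W s A y -
      ∑ q ∈ Q, kw A y q * EW W s (Del.ofSet (q.2.2 : Set (V d))) q.2.1| ≤
      |EW W s D0 y - EW W s A y - ∑ q ∈ Q, ∫ ω, Set.indicator {ω : Om d |
        KC (Oc ω) y A (ghost false (s / κ) ω) q.1 q.2.1 (q.2.2 : Set (V d))}
          (fun ω => WA W s (Del.ofSet (q.2.2 : Set (V d))) (Oc ω) q.2.1) ω ∂(Pr d)| +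
      |(∑ q ∈ Q, ∫ ω, Set.indicator {ω : Om d |
        KC (Oc ω) y A (ghost false (s / κ) ω) q.1 q.2.1 (q.2.2 : Set (V d))}
          (fun ω => WA W s (Del.ofSet (q.2.2 : Set (V d))) (Oc ω) q.2.1) ω ∂(Pr d)) -
        ∑ q ∈ Q, kw A y q * EW W s (Del.ofSet (q.2.2 : Set (V d))) q.2.1| := by
    refine le_trans (le_of_eq ?_) (abs_add_le _ _)
    congr 1
    ring
  set P : ℝ := (piR d (R1 - r)).toReal + (2 * (R1 : ℝ) + 1) ^ d * (piR d R2).toReal with hP
  have hP0 : 0 ≤ P := by positivity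
  set X : ℝ := Real.sqrt κ * Real.sqrt s with hX
  have hX0 : 0 ≤ X := by positivity
  have hS0 : 0 ≤ Real.sqrt (s / κ) := Real.sqrt_nonneg _
  have b3 : 2 * c * (Pr d {ω : Om d | D2 (Oc ω) y A (ghost false (s / κ) ω)}).toReal ≤
      2 * c * (C3 * (s / κ)) := mul_le_mul_of_nonneg_left a3 (by positivity)
  have b4 : 2 * c * (Pr d {ω : Om d | Nl (Oc ω) y A (ghost false (s / κ) ω) R1 R2}).toReal ≤
      2 * c * (C4 * P * Real.sqrt (s / κ)) := mul_le_mul_of_nonneg_left a4 (by positivity)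
  have b5 : 2 * c * s * B ≤ 2 * c * B * (s / κ) := by
    have : 2 * c * s * B = 2 * c * B * s := by ring
    rw [this]
    exact mul_le_mul_of_nonneg_left hsσ (by positivity)
  have b6 : 0 ≤ (C1 * Kw + 2 * C2) * P * Real.sqrt (s / κ) := by positivity
  have b7 : 0 ≤ 2 * c * C4 * X := by positivity
  calc _ ≤ _ := htri
    _ ≤ (C2 * X + C2 * X + 2 * c * (C3 * (s / κ)) + 2 * c * (C4 * P * Real.sqrt (s / κ)) +
        2 * c * B * (s / κ)) + Kw * (C1 * X + c * (s / κ) * B) := by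
        refine add_le_add (hint.trans ?_) hmain
        exact add_le_add (add_le_add (add_le_add (add_le_add a1 a2) b3) b4) b5
    _ ≤ _ := by nlinarith [b6, b7]

end Pool.Agent.PB
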