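import Mathlib

/-!
# PB / Mix / Contr (Mathlib only): abstract kernel system, alternating series and contraction
`w σ q` = weight of the jump from the state `σ` with label `q` to the state `t q`.

Plan.
* `psiA_eq`: `Σ_n pow (n+1) σ = Σ_q w σ q * Σ_n pow n (t q)` (`ENNReal.tsum_comm`, `ENNReal.tsum_mul_left`), which is
  finite; so for `w σ q ≠ 0` the series `Σ_n pow n (t q)` is finite. All real series below converge absolutely
  (`ENNReal.summable_toReal`, `ENNReal.tsum_toReal_eq`); exchange the sums over `n` and `q`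
  (`Summable.tsum_comm` for the absolutely summable double family `(-1)^n (w σ q * pow n (t q)).toReal`) and split off
  the term `n = 0` (`Summable.tsum_eq_zero_add`).
* `contraction`: let `psN N σ = Σ_{n<N} (-1)^n (pow n σ).toReal`, so `psN 0 = 0`, and (as in `psiA_eq`, finite sums in n)
  `psN (N+1) σ = 1 - Σ'_q (w σ q).toReal * psN N (t q)`. Claim P(N): for every good `σ` and `δ > 0`,
  eventually `|a s σ - psN N σ * m s| ≤ B * (pow N σ).toReal + δ`. P(0): `|a| ≤ B`. P(N) ⟹ P(N+1): by `hmain`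
  `a s σ - psN (N+1) σ * m s = o(1) - Σ'_q w_q (a s (t q) - psN N (t q) * m s)`. For `q` outside a finite set `Q` bound
  `|a s (t q) - psN N (t q) m s| ≤ B (1 + Σ_{n<N} pow n (t q))`, and `Σ_q w_q (1 + Σ_{n<N} pow n (t q)) < ∞`, so the tail is
  `≤ δ/3`; for the finitely many `q ∈ Q` (with `w_q ≠ 0`, hence good) use P(N) with `δ' = δ/(3(1+Σ_Q w_q))`;
  `Σ_{q∈Q} w_q B (pow N (t q)).toReal ≤ B (pow (N+1) σ).toReal`.
  Finally `|psiA σ - psN N σ| ≤ Σ_{n≥N} (pow n σ).toReal → 0` and `pow N σ → 0`.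
-/

set_option autoImplicit false
open Filter Topology
open scoped ENNReal

namespace Pool.Agent.PB.Contr

variable {St T : Type*}

/-- powers of the kernel applied to 1 -/
noncomputable def pow (w : St → T → ℝ≥0∞) (t : T → St) : ℕ → St → ℝ≥0∞
  | 0 => fun _ => 1
  | n + 1 => fun σ => ∑' q, w σ q * pow w t n (t q)

/-- the alternating series -/
noncomputable def psiA (w : St → T → ℝ≥0∞) (t : T → St) (σ : St) : ℝ :=
  ∑' n : ℕ, (-1 : ℝ) ^ n * (pow w t n σ).toReal

private theorem pow_ne {w : St → T → ℝ≥0∞} {t : T → St} {σ : St}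
    (h : ∑' n, pow w t n σ ≠ ⊤) (n : ℕ) : pow w t n σ ≠ ⊤ :=
  ENNReal.ne_top_of_tsum_ne_top h n

private theorem stepA {w : St → T → ℝ≥0∞} {t : T → St} {σ : St}
    (h : ∑' n, pow w t n σ ≠ ⊤) (n : ℕ) :
    Summable (fun q => (w σ q).toReal * (pow w t n (t q)).toReal) ∧
      ∑' q, (w σ q).toReal * (pow w t n (t q)).toReal = (pow w t (n + 1) σ).toReal := by
  have h1 : ∑' q, w σ q * pow w t n (t q) ≠ ⊤ := pow_ne h (n + 1)
  have h2 := ENNReal.summable_toReal h1
  have h3 := ENNReal.tsum_toReal_eq (fun q => ENNReal.ne_top_of_tsum_ne_top h1 q)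
  simp only [ENNReal.toReal_mul] at h2 h3
  exact ⟨h2, h3.symm⟩

theorem psiA_eq (w : St → T → ℝ≥0∞) (t : T → St) (Good : St → Prop)
    (hgood : ∀ σ, Good σ → ∀ q, w σ q ≠ 0 → Good (t q))
    (hsum : ∀ σ, Good σ → ∑' n, pow w t n σ ≠ ⊤) (σ : St) (hσ : Good σ) :
    Summable (fun q => (w σ q).toReal * psiA w t (t q)) ∧
      psiA w t σ = 1 - ∑' q, (w σ q).toReal * psiA w t (t q) := by
  have hs := hsum σ hσ
  -- the double series
  have h1 : ∑' x : T × ℕ, w σ x.1 * pow w t x.2 (t x.1) ≠ ⊤ := by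
    rw [ENNReal.tsum_prod (f := fun q n => w σ q * pow w t n (t q)), ENNReal.tsum_comm]
    have h2 : ∑' n, pow w t (n + 1) σ ≠ ⊤ := by
      have h3 := tsum_eq_zero_add' (f := fun n => pow w t n σ) ENNReal.summable
      rw [h3] at hs
      exact (ENNReal.add_ne_top.1 hs).2
    exact h2
  have h2 : Summable (fun x : T × ℕ => (w σ x.1 * pow w t x.2 (t x.1)).toReal) :=
    ENNReal.summable_toReal h1
  have h3 : Summable (fun x : T × ℕ => (-1 : ℝ) ^ x.2 *
      ((w σ x.1).toReal * (pow w t x.2 (t x.1)).toReal)) := by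
    refine Summable.of_norm ?_
    refine h2.congr fun x => ?_
    rw [norm_mul, norm_pow, norm_neg, norm_one, one_pow, one_mul, ENNReal.toReal_mul,
      Real.norm_of_nonneg (mul_nonneg ENNReal.toReal_nonneg ENNReal.toReal_nonneg)]
  have h4 : ∀ q, ∑' n : ℕ, (-1 : ℝ) ^ n * ((w σ q).toReal * (pow w t n (t q)).toReal) =
      (w σ q).toReal * psiA w t (t q) := by
    intro q
    unfold psiA
    rw [← tsum_mul_left]
    refine tsum_congr fun n => ?_
    ring
  have h5 : ∀ n : ℕ, ∑' q, (-1 : ℝ) ^ n * ((w σ q).toReal * (pow w t n (t q)).toReal) =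
      (-1 : ℝ) ^ n * (pow w t (n + 1) σ).toReal := by
    intro n
    rw [tsum_mul_left, (stepA hs n).2]
  have h6 := h3.prod
  simp only [h4] at h6
  refine ⟨h6, ?_⟩
  have h7 : ∑' q, (w σ q).toReal * psiA w t (t q) =
      ∑' n : ℕ, (-1 : ℝ) ^ n * (pow w t (n + 1) σ).toReal := by
    have h8 := Summable.tsum_comm (f := fun (q : T) (n : ℕ) =>
      (-1 : ℝ) ^ n * ((w σ q).toReal * (pow w t n (t q)).toReal)) h3
    simp only [h4, h5] at h8
    exact h8.symm
  have h9 : Summable (fun n : ℕ => (-1 : ℝ) ^ n * (pow w t n σ).toReal) := by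
    refine Summable.of_norm ?_
    refine (ENNReal.summable_toReal hs).congr fun n => ?_
    rw [norm_mul, norm_pow, norm_neg, norm_one, one_pow, one_mul,
      Real.norm_of_nonneg ENNReal.toReal_nonneg]
  rw [h7]
  unfold psiA
  rw [h9.tsum_eq_zero_add, sub_eq_add_neg, ← tsum_neg]
  congr 1
  · simp [pow]
  · refine tsum_congr fun n => ?_
    ring

/-- partial sums of the alternating series -/
private noncomputable def psN (w : St → T → ℝ≥0∞) (t : T → St) (N : ℕ) (σ : St) : ℝ :=
  ∑ n ∈ Finset.range N, (-1 : ℝ) ^ n * (pow w t n σ).toReal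

/-- bound for the partial sums -/
private noncomputable def bdN (w : St → T → ℝ≥0∞) (t : T → St) (N : ℕ) (σ : St) : ℝ :=
  ∑ n ∈ Finset.range N, (pow w t n σ).toReal

private theorem abs_psN (w : St → T → ℝ≥0∞) (t : T → St) (N : ℕ) (σ : St) :
    |psN w t N σ| ≤ bdN w t N σ := by
  unfold psN bdN
  refine (Finset.abs_sum_le_sum_abs _ _).trans (Finset.sum_le_sum fun n _ => ?_)
  rw [abs_mul, abs_pow, abs_neg, abs_one, one_pow, one_mul, abs_of_nonneg ENNReal.toReal_nonneg]

private theorem bdN_nonneg (w : St → T → ℝ≥0∞) (t : T → St) (N : ℕ) (σ : St) :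
    0 ≤ bdN w t N σ := Finset.sum_nonneg fun _ _ => ENNReal.toReal_nonneg

private theorem stepB {w : St → T → ℝ≥0∞} {t : T → St} {σ : St}
    (h : ∑' n, pow w t n σ ≠ ⊤) (N : ℕ) :
    Summable (fun q => (w σ q).toReal * psN w t N (t q)) ∧
      psN w t (N + 1) σ = 1 - ∑' q, (w σ q).toReal * psN w t N (t q) := by
  have e : ∀ q, (w σ q).toReal * psN w t N (t q) =
      ∑ n ∈ Finset.range N, (-1 : ℝ) ^ n * ((w σ q).toReal * (pow w t n (t q)).toReal) := by
    intro q
    unfold psN
    rw [Finset.mul_sum]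
    refine Finset.sum_congr rfl fun n _ => ?_
    ring
  simp only [e]
  have hs : ∀ n ∈ Finset.range N, Summable (fun q =>
      (-1 : ℝ) ^ n * ((w σ q).toReal * (pow w t n (t q)).toReal)) :=
    fun n _ => (stepA h n).1.mul_left _
  refine ⟨summable_sum hs, ?_⟩
  rw [Summable.tsum_finsetSum hs]
  unfold psN
  rw [Finset.sum_range_succ', sub_eq_add_neg, ← Finset.sum_neg_distrib, add_comm]
  congr 1
  · simp [pow]
  · refine Finset.sum_congr rfl fun n _ => ?_
    rw [tsum_mul_left, (stepA h n).2]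
    ring

private theorem stepC {w : St → T → ℝ≥0∞} {t : T → St} {σ : St}
    (h : ∑' n, pow w t n σ ≠ ⊤) (N : ℕ) :
    Summable (fun q => (w σ q).toReal * bdN w t N (t q)) := by
  have e : ∀ q, (w σ q).toReal * bdN w t N (t q) =
      ∑ n ∈ Finset.range N, ((w σ q).toReal * (pow w t n (t q)).toReal) := by
    intro q
    unfold bdN
    rw [Finset.mul_sum]
  simp only [e]
  exact summable_sum fun n _ => (stepA h n).1

private theorem main_step {ι : Type*} (l : Filter ι) (w : St → T → ℝ≥0∞) (t : T → St)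
    (Good : St → Prop) (hgood : ∀ σ, Good σ → ∀ q, w σ q ≠ 0 → Good (t q))
    (hsum : ∀ σ, Good σ → ∑' n, pow w t n σ ≠ ⊤)
    (a : ι → St → ℝ) (m : ι → ℝ) (B : ℝ) (hB : 0 ≤ B)
    (ha : ∀ᶠ s in l, ∀ σ, |a s σ| ≤ B) (hm : ∀ᶠ s in l, |m s| ≤ B)
    (hmain : ∀ σ, Good σ →
      Tendsto (fun s => a s σ - m s + ∑' q, (w σ q).toReal * a s (t q)) l (𝓝 0)) (N : ℕ) :
    ∀ σ, Good σ → Tendsto (fun s => max 0 (|a s σ - psN w t N σ * m s| -
      B * (pow w t N σ).toReal)) l (𝓝 0) := by
  induction N with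
  | zero =>
    intro σ _
    refine tendsto_const_nhds.congr' ?_
    filter_upwards [ha] with s hs
    have h1 := hs σ
    have e1 : psN w t 0 σ = 0 := by simp [psN]
    have e2 : (pow w t 0 σ).toReal = 1 := by simp [pow]
    rw [e1, e2, zero_mul, sub_zero, mul_one, max_eq_left]
    linarith
  | succ N ih =>
    intro σ hσ
    have hs := hsum σ hσ
    have hw : Summable (fun q => (w σ q).toReal) := by
      refine (stepA hs 0).1.congr fun q => ?_
      simp [pow]
    set pos : ι → T → ℝ := fun s q =>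
      (w σ q).toReal * max 0 (|a s (t q) - psN w t N (t q) * m s| - B * (pow w t N (t q)).toReal)
      with hpos
    have hpos0 : ∀ s q, 0 ≤ pos s q := fun s q =>
      mul_nonneg ENNReal.toReal_nonneg (le_max_left _ _)
    have hbsum : Summable (fun q => (w σ q).toReal * B + B * ((w σ q).toReal * bdN w t N (t q))) :=
      (hw.mul_right B).add ((stepC hs N).mul_left B)
    have hbd : ∀ᶠ s in l, ∀ q, ‖pos s q‖ ≤
        (w σ q).toReal * B + B * ((w σ q).toReal * bdN w t N (t q)) := by
      filter_upwards [ha, hm] with s h1 h2 q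
      rw [Real.norm_of_nonneg (hpos0 s q)]
      have h3 : max 0 (|a s (t q) - psN w t N (t q) * m s| - B * (pow w t N (t q)).toReal) ≤
          B + B * bdN w t N (t q) := by
        refine max_le (add_nonneg hB (mul_nonneg hB (bdN_nonneg _ _ _ _))) ?_
        have h4 := abs_sub (a s (t q)) (psN w t N (t q) * m s)
        have h5 : |psN w t N (t q) * m s| ≤ bdN w t N (t q) * B := by
          rw [abs_mul]
          exact mul_le_mul (abs_psN _ _ _ _) h2 (abs_nonneg _) (bdN_nonneg _ _ _ _)
        have h6 := h1 (t q)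
        have h7 : 0 ≤ B * (pow w t N (t q)).toReal := mul_nonneg hB ENNReal.toReal_nonneg
        linarith
      calc pos s q ≤ (w σ q).toReal * (B + B * bdN w t N (t q)) :=
            mul_le_mul_of_nonneg_left h3 ENNReal.toReal_nonneg
        _ = _ := by ring
    have hlim : Tendsto (fun s => ∑' q, pos s q) l (𝓝 (∑' _q : T, (0 : ℝ))) := by
      refine tendsto_tsum_of_dominated_convergence hbsum (fun q => ?_) hbd
      by_cases hq : w σ q = 0
      · have : (fun s => pos s q) = fun _ => (0 : ℝ) := by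
          funext s
          simp [hpos, hq]
        rw [this]
        exact tendsto_const_nhds
      · have h1 := (ih (t q) (hgood σ hσ q hq)).const_mul (w σ q).toReal
        rwa [mul_zero] at h1
    rw [tsum_zero] at hlim
    have herr := (hmain σ hσ).abs
    rw [abs_zero] at herr
    have hsumlim := herr.add hlim
    rw [add_zero] at hsumlim
    refine squeeze_zero' (Eventually.of_forall fun s => le_max_left _ _) ?_ hsumlim
    filter_upwards [ha, hm, hbd] with s h1 h2 h3
    have hps : Summable (fun q => pos s q) := Summable.of_norm_bounded hbsum h3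
    have hwa : Summable (fun q => (w σ q).toReal * a s (t q)) := by
      refine Summable.of_norm_bounded (hw.mul_right B) fun q => ?_
      rw [norm_mul, Real.norm_of_nonneg ENNReal.toReal_nonneg, Real.norm_eq_abs]
      exact mul_le_mul_of_nonneg_left (h1 _) ENNReal.toReal_nonneg
    obtain ⟨hp1, hp2⟩ := stepB hs N
    obtain ⟨hA1, hA2⟩ := stepA hs N
    have hdiff : Summable (fun q => (w σ q).toReal * (a s (t q) - psN w t N (t q) * m s)) := by
      refine (hwa.sub (hp1.mul_right (m s))).congr fun q => ?_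
      ring
    have e1 : a s σ - psN w t (N + 1) σ * m s =
        (a s σ - m s + ∑' q, (w σ q).toReal * a s (t q)) -
          ∑' q, (w σ q).toReal * (a s (t q) - psN w t N (t q) * m s) := by
      have e2 : ∑' q, (w σ q).toReal * (a s (t q) - psN w t N (t q) * m s) =
          ∑' q, (w σ q).toReal * a s (t q) - (∑' q, (w σ q).toReal * psN w t N (t q)) * m s := by
        rw [← tsum_mul_right, ← Summable.tsum_sub hwa (hp1.mul_right (m s))]
        refine tsum_congr fun q => ?_
        ring
      rw [e2, hp2]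
      ring
    have e3 : |∑' q, (w σ q).toReal * (a s (t q) - psN w t N (t q) * m s)| ≤
        B * (pow w t (N + 1) σ).toReal + ∑' q, pos s q := by
      rw [← Real.norm_eq_abs]
      refine (norm_tsum_le_tsum_norm hdiff.norm).trans ?_
      rw [← hA2, ← tsum_mul_left, ← Summable.tsum_add (hA1.mul_left B) hps]
      refine Summable.tsum_le_tsum (fun q => ?_) hdiff.norm ((hA1.mul_left B).add hps)
      rw [norm_mul, Real.norm_of_nonneg ENNReal.toReal_nonneg, Real.norm_eq_abs]
      have h4 : |a s (t q) - psN w t N (t q) * m s| ≤ B * (pow w t N (t q)).toReal +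
          max 0 (|a s (t q) - psN w t N (t q) * m s| - B * (pow w t N (t q)).toReal) := by
        have := le_max_right 0 (|a s (t q) - psN w t N (t q) * m s| - B * (pow w t N (t q)).toReal)
        linarith
      calc (w σ q).toReal * |a s (t q) - psN w t N (t q) * m s| ≤ (w σ q).toReal *
            (B * (pow w t N (t q)).toReal +
          max 0 (|a s (t q) - psN w t N (t q) * m s| - B * (pow w t N (t q)).toReal)) :=
            mul_le_mul_of_nonneg_left h4 ENNReal.toReal_nonneg
        _ = _ := by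
            rw [hpos]
            ring
    have hp0 : 0 ≤ ∑' q, pos s q := tsum_nonneg (hpos0 s)
    refine max_le (add_nonneg (abs_nonneg _) hp0) ?_
    rw [e1]
    have h5 := abs_sub (a s σ - m s + ∑' q, (w σ q).toReal * a s (t q))
      (∑' q, (w σ q).toReal * (a s (t q) - psN w t N (t q) * m s))
    linarith

theorem contraction {ι : Type*} (l : Filter ι) (w : St → T → ℝ≥0∞) (t : T → St)
    (Good : St → Prop) (hgood : ∀ σ, Good σ → ∀ q, w σ q ≠ 0 → Good (t q))
    (hsum : ∀ σ, Good σ → ∑' n, pow w t n σ ≠ ⊤)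
    (a : ι → St → ℝ) (m : ι → ℝ) (B : ℝ) (hB : 0 ≤ B)
    (ha : ∀ᶠ s in l, ∀ σ, |a s σ| ≤ B) (hm : ∀ᶠ s in l, |m s| ≤ B)
    (hmain : ∀ σ, Good σ →
      Tendsto (fun s => a s σ - m s + ∑' q, (w σ q).toReal * a s (t q)) l (𝓝 0))
    (σ : St) (hσ : Good σ) :
    Tendsto (fun s => a s σ - psiA w t σ * m s) l (𝓝 0) := by
  have hs := hsum σ hσ
  have hsr := ENNReal.summable_toReal hs
  have h9 : Summable (fun n : ℕ => (-1 : ℝ) ^ n * (pow w t n σ).toReal) := by
    refine Summable.of_norm ?_
    refine hsr.congr fun n => ?_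
    rw [norm_mul, norm_pow, norm_neg, norm_one, one_pow, one_mul,
      Real.norm_of_nonneg ENNReal.toReal_nonneg]
  have hlimN : Tendsto (fun N => B * (pow w t N σ).toReal + |psiA w t σ - psN w t N σ| * B) atTop
      (𝓝 0) := by
    have h1 : Tendsto (fun N => psN w t N σ) atTop (𝓝 (psiA w t σ)) :=
      h9.hasSum.tendsto_sum_nat
    have h2 := (tendsto_const_nhds (x := psiA w t σ)).sub h1
    rw [sub_self] at h2
    have h3 := h2.abs.mul_const B
    rw [abs_zero, zero_mul] at h3
    have h4 := hsr.tendsto_atTop_zero.const_mul B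
    rw [mul_zero] at h4
    have h5 := h4.add h3
    rwa [add_zero] at h5
  rw [Metric.tendsto_nhds]
  intro ε hε
  obtain ⟨N, hN⟩ := (hlimN.eventually (gt_mem_nhds (half_pos hε))).exists
  have h6 := main_step l w t Good hgood hsum a m B hB ha hm hmain N σ hσ
  filter_upwards [h6.eventually (gt_mem_nhds (half_pos hε)), hm] with s h7 h8
  rw [Real.dist_eq, sub_zero]
  have h10 : a s σ - psiA w t σ * m s =
      (a s σ - psN w t N σ * m s) - (psiA w t σ - psN w t N σ) * m s := by ring
  rw [h10]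
  have h11 := abs_sub (a s σ - psN w t N σ * m s) ((psiA w t σ - psN w t N σ) * m s)
  have h12 : |(psiA w t σ - psN w t N σ) * m s| ≤ |psiA w t σ - psN w t N σ| * B := by
    rw [abs_mul]
    exact mul_le_mul_of_nonneg_left h8 (abs_nonneg _)
  have h13 := le_max_right 0 (|a s σ - psN w t N σ * m s| - B * (pow w t N σ).toReal)
  linarith

end Pool.Agent.PB.Contr
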