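import Pool.Agent.PB.Mix.FunW

/-!
# PB / Mix / CutA (deterministic; second half of 6.2)
Setting: `e = s(u,v) ∈ O`, `K = Cl (del1 O e) y`, `u ∈ K`, `v ∉ K`, `Cl O y` finite; `T` a set with `y → T` off `A`, `K ∩ T = ∅`, and no vertex
of `V(A) ∪ {y}` is joined to `T` without `e` (`hsep`). Claim: `|W s (A.rem O) y - W s ((ofSet K).rem O) v| ≤ c s |K|`.
Plan. Let `O' = A.rem O`, `Z = Cl ((ofSet K).rem O) v`.
(1) `y → T` in `O'`, `T ∩ K = ∅`; `del1 O' e ⊆ del1 O e` so `Cl (del1 O' e) y ⊆ K`; hence `e ∈ O'` (otherwise `Cl O' y ⊆ K` misses `T`) and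
    by `Rch.del1_or` / `Cl_split` `u ∈ Cl (del1 O' e) y =: K'`, `v ∉ K'`.
(2) `Z` contains a point of `T`: the path from `y` to `T` in `O' ⊆ O` ends in `Cl O y \ K = Z`. So `Z ∩ V(A) = ∅`: `a ∈ V(A) ∩ Z` would be joined to that
    point of `T` inside `(ofSet K).rem O ⊆ del1 O e`, against `hsep`.
(3) Every `f ∈ O`, `f ≠ e`, touching `Z` has both ends in `Z` (an end in `K` would give `v ∈ K`); so for `f` touching `Z`:
    `f ∈ (ofSet K).rem O ↔ f ∈ (ofSet K').rem O'` (use (2): `f ∉ A.F` as its ends would be in `V(A)`, and no end in `A.S`). So the clusters of `v` agree and by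
    `IsLSF.loc`, `W s ((ofSet K').rem O') v = W s ((ofSet K).rem O) v`. `Z` is finite.
(4) `IsLSF.cut` for `O'`: `|W s O' y - W s ((ofSet K').rem O') v| ≤ c s |K'| ≤ c s |K|`.
-/

set_option autoImplicit false
open MeasureTheory Filter Topology
open scoped ENNReal BigOperators

namespace Pool.Agent.PB

variable {d : ℕ}

theorem cutA {W : ℝ → Set (Sym2 (V d)) → V d → ℝ} {c : ℝ} (hW : IsLSF W c) {s : ℝ}
    (hs : 0 < s) (hs1 : s ≤ 1) {O : Set (Sym2 (V d))} {A : Del (V d)} {y u v : V d}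
    {T : Set (V d)} (hfin : (Cl O y).Finite) (he : s(u, v) ∈ O)
    (hu : u ∈ Cl (del1 O s(u, v)) y) (hv : v ∉ Cl (del1 O s(u, v)) y)
    (hsep : ∀ a ∈ Vs A y, ¬ RchT (del1 O s(u, v)) a T) (hT : RchA A O y T) :
    |W s (A.rem O) y - W s ((Del.ofSet (Cl (del1 O s(u, v)) y)).rem O) v| ≤
      c * s * ((Cl (del1 O s(u, v)) y).ncard : ℝ) := by
  obtain ⟨t, htT, hyS, hyt⟩ := hT
  have hc0 : 0 ≤ c := le_trans zero_le_one hW.one_le
  obtain ⟨hsp, hdis⟩ := Cl_split he hu hv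
  have hsub : del1 (A.rem O) s(u, v) ⊆ del1 O s(u, v) := del1_mono (A.rem_subset O) _
  have hK'K : Cl (del1 (A.rem O) s(u, v)) y ⊆ Cl (del1 O s(u, v)) y := Cl_mono hsub y
  have hKfin : (Cl (del1 O s(u, v)) y).Finite := hfin.subset (Cl_mono (del1_subset _ _) y)
  have htK : t ∉ Cl (del1 O s(u, v)) y := fun h =>
    hsep y (Or.inr rfl) ⟨t, htT, h⟩
  -- (1)
  have h1 : s(u, v) ∈ A.rem O ∧ u ∈ Cl (del1 (A.rem O) s(u, v)) y := by
    obtain ⟨a, b, ha, hb, hab, _⟩ := Rch.exists_cross (Cl (del1 (A.rem O) s(u, v)) y)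
      (self_mem_Cl _ _) (fun h => htK (hK'K h)) hyt
    by_cases hE : s(a, b) = s(u, v)
    · rcases Sym2.eq_iff.1 hE with ⟨rfl, rfl⟩ | ⟨rfl, rfl⟩
      · exact ⟨hab, ha⟩
      · exact absurd (hK'K ha) hv
    · exact absurd (Cl_closed ha ⟨hab, hE⟩) hb
  have hv' : v ∉ Cl (del1 (A.rem O) s(u, v)) y := fun h => hv (hK'K h)
  -- (2)
  have htZ : t ∈ Cl ((Del.ofSet (Cl (del1 O s(u, v)) y)).rem O) v := by
    have : t ∈ Cl O y := Rch.mono (A.rem_subset O) hyt
    rw [hsp] at this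
    exact this.resolve_left htK
  have hremsub : (Del.ofSet (Cl (del1 O s(u, v)) y)).rem O ⊆ del1 O s(u, v) := by
    intro f hf
    refine ⟨hf.1, ?_⟩
    rintro rfl
    exact hf.2.2 u (Sym2.mem_mk_left u v) hu
  have hZV : ∀ a ∈ A.verts, a ∉ Cl ((Del.ofSet (Cl (del1 O s(u, v)) y)).rem O) v := by
    intro a ha haZ
    refine hsep a (Or.inl ha) ⟨t, htT, Rch.mono hremsub ?_⟩
    exact Rch.trans (Rch.symm haZ) htZ
  -- (3)
  have h3 : ∀ f ∈ touch (Cl ((Del.ofSet (Cl (del1 O s(u, v)) y)).rem O) v),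
      (f ∈ (Del.ofSet (Cl (del1 O s(u, v)) y)).rem O ↔
        f ∈ (Del.ofSet (Cl (del1 (A.rem O) s(u, v)) y)).rem (A.rem O)) := by
    rintro f ⟨z, hzf, hzZ⟩
    obtain ⟨w, rfl⟩ := Sym2.mem_iff_exists.1 hzf
    constructor
    · intro hf
      have hwZ : w ∈ Cl ((Del.ofSet (Cl (del1 O s(u, v)) y)).rem O) v := Cl_closed hzZ hf
      have hzV : z ∉ A.verts := fun h => hZV z h hzZ
      have hwV : w ∉ A.verts := fun h => hZV w h hwZ
      refine ⟨⟨hf.1, ?_, ?_⟩, ?_, ?_⟩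
      · intro hF
        exact hzV (Or.inr ⟨_, hF, hzf⟩)
      · intro x hx hxS
        rcases Sym2.mem_iff.1 hx with rfl | rfl
        · exact hzV (Or.inl hxS)
        · exact hwV (Or.inl hxS)
      · simp [Del.ofSet]
      · intro x hx hxK
        exact hf.2.2 x hx (hK'K hxK)
    · intro hf
      have hzK : z ∉ Cl (del1 O s(u, v)) y := fun h => Set.disjoint_left.1 hdis h hzZ
      have hne : s(z, w) ≠ s(u, v) := by
        intro hE
        exact hf.2.2 u (hE ▸ Sym2.mem_mk_left u v) h1.2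
      refine ⟨hf.1.1, by simp [Del.ofSet], ?_⟩
      intro x hx hxK
      rcases Sym2.mem_iff.1 hx with rfl | rfl
      · exact hzK hxK
      · have hxz : s(x, z) ∈ del1 O s(u, v) := by
          rw [Sym2.eq_swap (a := x) (b := z)]
          exact ⟨hf.1.1, hne⟩
        exact hzK (Cl_closed (b := z) hxK hxz)
  -- (4)
  have hZfin : (Cl ((Del.ofSet (Cl (del1 O s(u, v)) y)).rem O) v).Finite := by
    refine hfin.subset ?_
    rw [hsp]
    exact Set.subset_union_right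
  have h4 := hW.loc s _ _ v hZfin h3
  have hO'fin : (Cl (A.rem O) y).Finite := hfin.subset (Cl_mono (A.rem_subset O) y)
  have h5 := hW.cut s hs hs1 (A.rem O) y u v h1.1 hO'fin h1.2 hv'
  rw [h4]
  refine h5.trans ?_
  have h6 : ((Cl (del1 (A.rem O) s(u, v)) y).ncard : ℝ) ≤
      ((Cl (del1 O s(u, v)) y).ncard : ℝ) := by
    exact_mod_cast Set.ncard_le_ncard hK'K hKfin
  exact mul_le_mul_of_nonneg_left h6 (by positivity)

end Pool.Agent.PB
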