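import Pool.Agent.PB.Mix.DecompFin

/-!
# PB / Mix / DecompLim: 6.3 (e) in the limit form
(from `decomp_fin`)

Plan. Take expectations in `pointwise` (Pt) with `T = ghost false (s/κ) ω`, a.s. finite cluster (`h5.theta_pc`), `Oc ω ⊆ lat` edges, and
`Q = Q(R1,R2)` = the finite set of all local triples. With `mainTerm`, `smallG` (for `D0` and for `A`; `RchT O y T ↔ RchA D0 O y T`), `D2P`, `NlP`:
 `|EW D0 y - EW A y - Σ_{q∈Q} kw q EW(K_q,v_q)| ≤ 2 C √κ √s + 2c C_A s/κ + 2c C_A (π(R1-r) + (2R1+1)^d π(R2)) √(s/κ) + 2 c s |bx R2| + Σ_{q∈Q} kw q (C √κ √s + c (s/κ)|K_q|)`.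
Tail: `|Σ'_q kw q EW_q - Σ_{q∈Q}| ≤ (Σ'_{q∉Q} kw q) C √s` (`EW_le_sqrt`), and `Q(R1,R2)` exhausts all `q` with `kw q ≠ 0` as `R1, R2 → ∞` (kw q ≠ 0 implies `v` adjacent to `u`; for `R1` fixed the
triples with `u ∈ bx R1 y` are exhausted as `R2 → ∞`; use summability). `EW D0 y = EW D0 0` (translation: `IsLSF.transl` and invariance of `Pr d`).
Given `ε`: choose `κ`, then `R1`, then `R2`, then `s` small. Divide by `√s`.
-/

set_option autoImplicit false
open MeasureTheory Filter Topology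
open scoped ENNReal BigOperators

namespace Pool.Agent.PB

variable {d : ℕ}

/-- tail of an absolutely summable weight against a bounded function -/
private theorem tail_bd {T : Type*} (k : T → ℝ) (hk0 : ∀ q, 0 ≤ k q) (hk : Summable k)
    {δ : ℝ} (hδ : 0 < δ) : ∃ Q0 : Finset T, ∀ Q : Finset T, (∀ q ∈ Q0, k q ≠ 0 → q ∈ Q) →
      ∀ (F : T → ℝ) (B : ℝ), 0 ≤ B → (∀ q, |F q| ≤ B) →
        |∑' q, k q * F q - ∑ q ∈ Q, k q * F q| ≤ δ * B := by
  classical
  obtain ⟨Q0, hQ0⟩ := (Metric.tendsto_atTop.1 hk.hasSum) δ hδ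
  refine ⟨Q0, fun Q hQ F B hB hF => ?_⟩
  have hsum : Summable (fun q => k q * F q) := by
    refine Summable.of_norm_bounded (hk.mul_right B) fun q => ?_
    rw [Real.norm_eq_abs, abs_mul, abs_of_nonneg (hk0 q)]
    exact mul_le_mul_of_nonneg_left (hF q) (hk0 q)
  have e1 : ∑' q, k q * F q - ∑ q ∈ Q, k q * F q =
      ∑' q : {q // q ∉ Q}, k q * F q := by
    rw [← hsum.sum_add_tsum_subtype_compl Q]; ring
  have e2 : ∑' q, k q - ∑ q ∈ Q, k q = ∑' q : {q // q ∉ Q}, k q := by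
    rw [← hk.sum_add_tsum_subtype_compl Q]; ring
  have hk' : Summable (fun q : {q // q ∉ Q} => k q) := hk.subtype _
  have hs' : Summable (fun q : {q // q ∉ Q} => k q * F q) := hsum.subtype _
  have hQ' : ∑ q ∈ Q ∪ Q0, k q = ∑ q ∈ Q, k q := by
    symm
    refine Finset.sum_subset Finset.subset_union_left fun q hq hq' => ?_
    rcases Finset.mem_union.1 hq with h | h
    · exact absurd h hq'
    · by_contra h0
      exact hq' (hQ q h h0)
  have h3 := hQ0 (Q ∪ Q0) Finset.subset_union_right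
  rw [hQ', Real.dist_eq, abs_sub_comm, e2] at h3
  rw [e1]
  calc |∑' q : {q // q ∉ Q}, k q * F q| ≤ ∑' q : {q // q ∉ Q}, k q * B := by
        rw [← Real.norm_eq_abs]
        refine tsum_of_norm_bounded (hk'.mul_right B).hasSum fun q => ?_
        rw [Real.norm_eq_abs, abs_mul, abs_of_nonneg (hk0 q)]
        exact mul_le_mul_of_nonneg_left (hF q) (hk0 q)
    _ = (∑' q : {q // q ∉ Q}, k q) * B := tsum_mul_right
    _ ≤ δ * B := mul_le_mul_of_nonneg_right ((le_abs_self _).trans h3.le) hB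

private theorem bx_mono {R R' : ℕ} (h : R ≤ R') (x : V d) : bx R x ⊆ bx R' x := by
  intro y hy i
  have h1 : ((R : ℕ) : ℤ) ≤ ((R' : ℕ) : ℤ) := by exact_mod_cast h
  exact (hy i).trans h1

private theorem finite_subset_bx {S : Set (V d)} (hS : S.Finite) (x : V d) :
    ∃ R : ℕ, S ⊆ bx R x := by
  classical
  refine ⟨∑ z ∈ hS.toFinset, ∑ i, (z i - x i).natAbs, fun z hz i => ?_⟩
  have h1 : (z i - x i).natAbs ≤ ∑ i, (z i - x i).natAbs :=
    Finset.single_le_sum (f := fun i => (z i - x i).natAbs) (fun _ _ => Nat.zero_le _)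
      (Finset.mem_univ i)
  have h2 : ∑ i, (z i - x i).natAbs ≤ ∑ z ∈ hS.toFinset, ∑ i, (z i - x i).natAbs :=
    Finset.single_le_sum (f := fun z : V d => ∑ i, (z i - x i).natAbs)
      (fun _ _ => Nat.zero_le _) (hS.mem_toFinset.2 hz)
  rw [Int.abs_eq_natAbs]
  exact_mod_cast h1.trans h2

private theorem exists_Q (R1 R2 : ℕ) (y : V d) : ∃ Q : Finset (Tr d), ∀ u v K, (u, v, K) ∈ Q ↔
    u ∈ bx R1 y ∧ (K : Set (V d)) ⊆ bx R2 y ∧ s(u, v) ∈ (lat d).edgeSet := by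
  classical
  have hfin : {q : Tr d | q.1 ∈ bx R1 y ∧ (q.2.2 : Set (V d)) ⊆ bx R2 y ∧
      s(q.1, q.2.1) ∈ (lat d).edgeSet}.Finite := by
    refine ((bx_finite R1 y).prod ((bx_finite (R1 + 1) y).prod
      ((bx_finite R2 y).toFinset.powerset : Finset (Finset (V d))).finite_toSet)).subset ?_
    rintro ⟨u, v, K⟩ ⟨h1, h2, h3⟩
    refine ⟨h1, ?_, ?_⟩
    · intro i
      have h3' : l1 (v - u) = 1 := (SimpleGraph.mem_edgeSet _).1 h3
      have h4 : |v i - u i| ≤ 1 := by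
        rw [← h3']
        unfold l1
        exact Finset.single_le_sum (f := fun i => |(v - u) i|) (fun _ _ => abs_nonneg _)
          (Finset.mem_univ i)
      have h5 := h1 i
      show |v i - y i| ≤ ((R1 + 1 : ℕ) : ℤ)
      calc |v i - y i| = |(v i - u i) + (u i - y i)| := by ring_nf
        _ ≤ |v i - u i| + |u i - y i| := abs_add_le _ _
        _ ≤ 1 + (R1 : ℤ) := add_le_add h4 h5
        _ = ((R1 + 1 : ℕ) : ℤ) := by push_cast; ring
    · simp only [Finset.mem_coe, Finset.mem_powerset]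
      intro z hz
      exact (bx_finite R2 y).mem_toFinset.2 (h2 hz)
  refine ⟨hfin.toFinset, fun u v K => ?_⟩
  rw [Set.Finite.mem_toFinset]
  rfl

private theorem edge_of_kw_ne_zero {A : Del (V d)} {y : V d} {q : Tr d} (h : kw A y q ≠ 0) :
    s(q.1, q.2.1) ∈ (lat d).edgeSet := by
  by_contra hcon
  apply h
  unfold kw kerR
  have : J (pc d) (q.2.1 - q.1) = 0 := by
    unfold J
    rw [if_neg]
    intro h1
    exact hcon ((SimpleGraph.mem_edgeSet _).2 h1)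
  rw [this, zero_mul, ENNReal.toReal_zero]

theorem decomp_lim (hC : Crit d) (h5 : Out5 d) {W : ℝ → Set (Sym2 (V d)) → V d → ℝ} {c : ℝ}
    (hW : IsLSF W c) (A : Del (V d)) (y : V d) (hA : A.Finite) (hy : y ∉ A.S) :
    Tendsto (fun s : ℝ => (EW W s A y - EW W s D0 0 +
        ∑' q : Tr d, kw A y q * EW W s (Del.ofSet (q.2.2 : Set (V d))) q.2.1) / Real.sqrt s)
      (𝓝[>] 0) (𝓝 0) := by
  classical
  obtain ⟨C2, hC2, hEW⟩ := EW_le_sqrt hC h5 hW
  obtain ⟨r, C, hC0, hfin⟩ := decomp_fin hC h5 hW A y hA hy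
  have hkw := kw_summable hC A y hA hy
  have hkw0 : ∀ q : Tr d, 0 ≤ kw A y q := fun q => ENNReal.toReal_nonneg
  rw [Metric.tendsto_nhds]
  intro ε hε
  -- choice of κ
  obtain ⟨κ, hκ0, hκ1, hκ⟩ : ∃ κ : ℝ, 0 < κ ∧ κ ≤ 1 ∧ C * Real.sqrt κ ≤ ε / 6 := by
    refine ⟨min 1 ((ε / (6 * C)) ^ 2), lt_min one_pos (by positivity), min_le_left _ _, ?_⟩
    have h1 : Real.sqrt (min 1 ((ε / (6 * C)) ^ 2)) ≤ ε / (6 * C) := by
      rw [Real.sqrt_le_left (by positivity)]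
      exact min_le_right _ _
    calc C * Real.sqrt (min 1 ((ε / (6 * C)) ^ 2)) ≤ C * (ε / (6 * C)) :=
          mul_le_mul_of_nonneg_left h1 hC0.le
      _ = ε / 6 := by field_simp
  have hsκ : 0 < Real.sqrt κ := Real.sqrt_pos.2 hκ0
  obtain ⟨Q0, hQ0⟩ := tail_bd (fun q => kw A y q) hkw0 hkw (δ := ε / (6 * C2)) (by positivity)
  -- choice of R1
  have hpi := piR_tendsto hC h5
  have hev1 : ∀ᶠ R : ℕ in atTop, C * (piR d R).toReal / Real.sqrt κ < ε / 6 := by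
    have h1 : Tendsto (fun R : ℕ => C * (piR d R).toReal / Real.sqrt κ) atTop (𝓝 0) := by
      simpa using (hpi.const_mul C).div_const (Real.sqrt κ)
    exact h1.eventually (gt_mem_nhds (by positivity))
  obtain ⟨N1, hN1⟩ := eventually_atTop.1 hev1
  obtain ⟨N2, hN2⟩ := finite_subset_bx (Q0.image (fun q : Tr d => q.1)).finite_toSet y
  obtain ⟨R1, hR1⟩ : ∃ R1 : ℕ, R1 = r + N1 + N2 := ⟨_, rfl⟩
  have hr1 : r ≤ R1 := by omega
  have hpi1 : C * (piR d (R1 - r)).toReal / Real.sqrt κ < ε / 6 := hN1 _ (by omega)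
  -- choice of R2
  have hev2 : ∀ᶠ R : ℕ in atTop,
      C * ((2 * (R1 : ℝ) + 1) ^ d * (piR d R).toReal) / Real.sqrt κ < ε / 6 := by
    have h1 : Tendsto (fun R : ℕ => C * ((2 * (R1 : ℝ) + 1) ^ d * (piR d R).toReal) /
        Real.sqrt κ) atTop (𝓝 0) := by
      simpa using ((hpi.const_mul ((2 * (R1 : ℝ) + 1) ^ d)).const_mul C).div_const (Real.sqrt κ)
    exact h1.eventually (gt_mem_nhds (by positivity))
  obtain ⟨M1, hM1⟩ := eventually_atTop.1 hev2
  obtain ⟨M2, hM2⟩ := finite_subset_bx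
    (Q0.biUnion (fun q : Tr d => q.2.2)).finite_toSet y
  obtain ⟨R2, hR2⟩ : ∃ R2 : ℕ, R2 = M1 + M2 := ⟨_, rfl⟩
  have hpi2 : C * ((2 * (R1 : ℝ) + 1) ^ d * (piR d R2).toReal) / Real.sqrt κ < ε / 6 :=
    hM1 _ (by omega)
  obtain ⟨C', hC'⟩ := hfin R1 R2 hr1
  obtain ⟨Q, hQ⟩ := exists_Q R1 R2 y
  have hQsub : ∀ q ∈ Q0, kw A y q ≠ 0 → q ∈ Q := by
    rintro ⟨u, v, K⟩ hq hne
    rw [hQ]
    refine ⟨?_, ?_, edge_of_kw_ne_zero hne⟩
    · refine bx_mono (by omega : N2 ≤ R1) y (hN2 ?_)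
      simp only [Finset.coe_image]
      exact ⟨_, hq, rfl⟩
    · intro z hz
      refine bx_mono (by omega : M2 ≤ R2) y (hM2 ?_)
      rw [Finset.mem_coe, Finset.mem_biUnion]
      exact ⟨_, hq, hz⟩
  have hev3 : ∀ᶠ s : ℝ in 𝓝[>] 0, C' / κ * Real.sqrt s < ε / 6 := by
    have h1 : Tendsto (fun s : ℝ => C' / κ * Real.sqrt s) (𝓝[>] 0) (𝓝 0) := by
      have h2 : Tendsto (fun s : ℝ => C' / κ * Real.sqrt s) (𝓝 0) (𝓝 (C' / κ * Real.sqrt 0)) :=
        ((Real.continuous_sqrt.tendsto 0).const_mul (C' / κ))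
      rw [Real.sqrt_zero, mul_zero] at h2
      exact h2.mono_left nhdsWithin_le_nhds
    exact h1.eventually (gt_mem_nhds (by positivity))
  have hev4 : ∀ᶠ s : ℝ in 𝓝[>] 0, 0 < s ∧ s ≤ κ := by
    filter_upwards [Ioc_mem_nhdsGT hκ0] with s hs using hs
  filter_upwards [hev3, hev4] with s hs3 hs4
  obtain ⟨hs0, hsκ'⟩ := hs4
  have hs1 : s ≤ 1 := hsκ'.trans hκ1
  have hss : 0 < Real.sqrt s := Real.sqrt_pos.2 hs0
  have hmain := hC' κ s hκ0 hκ1 hs0 hsκ' Q hQ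
  have htail := hQ0 Q hQsub (fun q => EW W s (Del.ofSet (q.2.2 : Set (V d))) q.2.1)
    (C2 * Real.sqrt s) (by positivity) (fun q => hEW s hs0 hs1 _ _)
  rw [EW_shift hW s y] at hmain
  rw [Real.dist_eq, sub_zero, abs_div, abs_of_pos hss, div_lt_iff₀ hss]
  have hsq : Real.sqrt (s / κ) = Real.sqrt s / Real.sqrt κ := Real.sqrt_div hs0.le κ
  have hsm : s / κ = Real.sqrt s / κ * Real.sqrt s := by
    rw [div_mul_eq_mul_div, Real.mul_self_sqrt hs0.le]
  have hX : |EW W s A y - EW W s D0 0 +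
      ∑' q : Tr d, kw A y q * EW W s (Del.ofSet (q.2.2 : Set (V d))) q.2.1| ≤
      |EW W s D0 0 - EW W s A y -
        ∑ q ∈ Q, kw A y q * EW W s (Del.ofSet (q.2.2 : Set (V d))) q.2.1| +
      |∑' q : Tr d, kw A y q * EW W s (Del.ofSet (q.2.2 : Set (V d))) q.2.1 -
        ∑ q ∈ Q, kw A y q * EW W s (Del.ofSet (q.2.2 : Set (V d))) q.2.1| := by
    rw [abs_sub_comm (EW W s D0 0 - EW W s A y)]
    refine le_trans (le_of_eq ?_) (abs_add_le _ _)
    congr 1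
    ring
  refine lt_of_le_of_lt (hX.trans (add_le_add hmain htail)) ?_
  have e1 : C * (Real.sqrt κ * Real.sqrt s) + C' * (s / κ) +
        C * ((piR d (R1 - r)).toReal + (2 * (R1 : ℝ) + 1) ^ d * (piR d R2).toReal) *
          Real.sqrt (s / κ) + ε / (6 * C2) * (C2 * Real.sqrt s) =
      (C * Real.sqrt κ + C' / κ * Real.sqrt s + C * (piR d (R1 - r)).toReal / Real.sqrt κ +
        C * ((2 * (R1 : ℝ) + 1) ^ d * (piR d R2).toReal) / Real.sqrt κ + ε / 6) *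
        Real.sqrt s := by
    rw [hsq]
    have e2 : ε / (6 * C2) * (C2 * Real.sqrt s) = ε / 6 * Real.sqrt s := by field_simp
    have e3 : C' * (s / κ) = C' / κ * Real.sqrt s * Real.sqrt s := by
      rw [mul_assoc (C' / κ), Real.mul_self_sqrt hs0.le]; ring
    rw [e2, e3]
    ring
  rw [e1]
  refine mul_lt_mul_of_pos_right ?_ hss
  linarith

end Pool.Agent.PB
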