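import Pool.Agent.PB.Mix.FunB
import Pool.Agent.PB.P.Expl

/-!
# PB / Mix / EClosed: `E_closed` (see `locmix_ex` in the plan)
Plan.
* `mixing`: `Contr.contraction` with `l = 𝓝[>] 0`, `w = wK`, `t = tK`, `Good = GoodK`, `a s (A,y) = EW W s A y / √s` for good states (0 for the others, or use the uniform bound
  `EW_le_sqrt`, valid for all `A, y`), `m s = EW W s D0 0 / √s`, `B` from `EW_le_sqrt`; `hmain` = `decomp_lim` (divide inside the sum: `tsum_div_const`);
  `psiA = psi` by `pow_wK`.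
* `locmix_ex`: `B` finite. `h_F` := inclusion-exclusion coefficients: `H O = Σ_{F ⊆ B} h F · 1{F ∩ O = ∅}` (Moebius: `h F = Σ_{F ⊆ G ⊆ B} (-1)^{|G \ F|} H' (B \ G)`, where `H' X` is the value of `H`
  when `O ∩ B = X`; `H O = H' (O ∩ B)`). For a finset `F` of edges: `E[1{F ∩ Oc = ∅} WA W s (S,F0) (Oc ω) y] = Pr{F ∩ Oc = ∅} · EW W s (S, F0 ∪ F) y`: on `{F ∩ Oc ω = ∅}`
  `(S,F0).rem O = (S,F0 ∪ F).rem O`, and `WA W s (S,F0∪F) O y` does not depend on the labels of `F` (independence). Then `mixing` for `(S, F0 ∪ F)`: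
  the constant is `Σ_F h F · Pr{F ∩ Oc = ∅} · psi (S, F0 ∪ F) y`.
* `locmix`: `cloc H A y` = that constant: apply `locmix_ex` to `W1` and divide by `EW W1 s D0 0 = Mr ≥ √s / C` (`EW1_eq`, `h5.bounds`): `Tendsto.limUnder_eq`.
-/

set_option autoImplicit false
open MeasureTheory Filter Topology
open scoped ENNReal BigOperators

namespace Pool.Agent.PB

variable {d : ℕ}

/-- deletion of more edges -/
def Del.addF {W : Type*} (A : Del W) (F : Set (Sym2 W)) : Del W := ⟨A.S, A.F ∪ F⟩

theorem EClosed.integral_mul_dep {ι : Type*} (S : Set ι) {f g : (ι → unitInterval) → ℝ}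
    (hf : Measurable f) (hg : Measurable g) (hfS : DependsOn f S) (hgT : DependsOn g Sᶜ) :
    ∫ ω, f ω * g ω ∂PrI ι = (∫ ω, f ω ∂PrI ι) * ∫ ω, g ω ∂PrI ι := by
  have h1 : ∫ ω, f ω * g ω ∂PrI ι =
      ∫ q, f (mix S q.1 q.2) * g (mix S q.1 q.2) ∂((PrI ι).prod (PrI ι)) := by
    conv_lhs => rw [← (mix_mp S).map_eq]
    exact integral_map (measurable_mix S).aemeasurable
      (by rw [(mix_mp S).map_eq]; exact (hf.mul hg).aestronglyMeasurable)
  rw [h1, ← integral_prod_mul f g]
  refine integral_congr_ae (Eventually.of_forall fun q => ?_)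
  simp only
  rw [DependsOn.mix_left hfS subset_rfl, DependsOn.mix_right hgT disjoint_compl_left]

theorem E_closed (A : Del (V d)) (y : V d) (F : Finset (Sym2 (V d)))
    {W : ℝ → Set (Sym2 (V d)) → V d → ℝ} {c : ℝ} (hW : IsLSF W c) (s : ℝ) (hs : 0 < s)
    (hs1 : s ≤ 1) :
    ∫ ω, Set.indicator {ω : Om d | ∀ e ∈ F, e ∉ Oc ω} (fun ω => WA W s A (Oc ω) y) ω ∂(Pr d) =
      (Pr d {ω : Om d | ∀ e ∈ F, e ∉ Oc ω}).toReal * EW W s (A.addF F) y := by
  classical
  set E1 : Set (Om d) := {ω : Om d | ∀ e ∈ F, e ∉ Oc ω} with hE1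
  have hE1m : MeasurableSet E1 := by
    have : E1 = ⋂ e ∈ F, {ω : Om d | e ∈ Oc ω}ᶜ := by
      ext ω; simp [hE1]
    rw [this]
    exact Finset.measurableSet_biInter _ fun e _ => (opn_MES (pc d) e).compl
  have hE1d : DependsOn (fun ω : Om d => ω ∈ E1) (Sum.inl '' (F : Set (Sym2 (V d)))) := by
    intro ω ω' h
    have h2 := dep_opn (d := d) (pc d) (F : Set (Sym2 (V d)))
      (S := Sum.inl '' (F : Set (Sym2 (V d)))) (fun e he => Set.mem_image_of_mem _ he) h
    beta_reduce at h2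
    simp only [eq_iff_iff, hE1, Set.mem_ofPred_eq]
    constructor
    · intro h3 e he he'
      have : e ∈ opn (pc d) ω' ∩ (F : Set (Sym2 (V d))) := ⟨he', he⟩
      rw [← h2] at this
      exact h3 e he this.1
    · intro h3 e he he'
      have : e ∈ opn (pc d) ω ∩ (F : Set (Sym2 (V d))) := ⟨he', he⟩
      rw [h2] at this
      exact h3 e he this.1
  have hrem : ∀ O : Set (Sym2 (V d)), (A.addF (F : Set (Sym2 (V d)))).rem
      (O ∩ (F : Set (Sym2 (V d)))ᶜ) = (A.addF (F : Set (Sym2 (V d)))).rem O := by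
    intro O
    ext e
    simp only [Del.rem, Del.addF, Set.mem_ofPred_eq, Set.mem_inter_iff, Set.mem_compl_iff,
      Set.mem_union, not_or, Finset.mem_coe]
    tauto
  have hgd : DependsOn (fun ω : Om d => WA W s (A.addF F) (Oc ω) y)
      (Sum.inl '' (F : Set (Sym2 (V d))))ᶜ := by
    have h := dep_comp (dep_opn (d := d) (pc d) (F : Set (Sym2 (V d)))ᶜ
      (S := (Sum.inl '' (F : Set (Sym2 (V d))))ᶜ) (fun e he hh => by
        obtain ⟨e', he', hee⟩ := hh
        exact he (Sum.inl_injective hee ▸ he'))) (fun O => WA W s (A.addF F) O y)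
    intro ω ω' hω
    have h3 := h hω
    simp only [WA, hrem] at h3
    simpa only [WA, Oc] using h3
  have hgm : Measurable (fun ω : Om d => WA W s (A.addF F) (Oc ω) y) :=
    WA_measurable hW hs hs1 _ _
  have hcong : ∀ ω : Om d, Set.indicator E1 (fun ω => WA W s A (Oc ω) y) ω =
      Set.indicator E1 (fun _ => (1 : ℝ)) ω * WA W s (A.addF F) (Oc ω) y := by
    intro ω
    by_cases hω : ω ∈ E1
    · rw [Set.indicator_of_mem hω, Set.indicator_of_mem hω, one_mul]
      have h4 : A.rem (Oc ω) = (A.addF (F : Set (Sym2 (V d)))).rem (Oc ω) := by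
        ext e
        simp only [Del.rem, Del.addF, Set.mem_ofPred_eq, Set.mem_union, not_or, Finset.mem_coe]
        constructor
        · rintro ⟨h1, h2, h3⟩
          exact ⟨h1, ⟨h2, fun hF => hω e hF h1⟩, h3⟩
        · rintro ⟨h1, h2, h3⟩
          exact ⟨h1, h2.1, h3⟩
      unfold WA
      rw [h4]
      rfl
    · rw [Set.indicator_of_notMem hω, Set.indicator_of_notMem hω, zero_mul]
  rw [integral_congr_ae (Eventually.of_forall hcong)]
  have h5 := EClosed.integral_mul_dep (ι := Ix d) (Sum.inl '' (F : Set (Sym2 (V d))))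
    (f := Set.indicator E1 (fun _ => (1 : ℝ))) (g := fun ω => WA W s (A.addF F) (Oc ω) y)
    (measurable_const.indicator hE1m) hgm (by
      intro ω ω' h
      have := hE1d h
      simp only [eq_iff_iff] at this
      by_cases hω : ω ∈ E1
      · rw [Set.indicator_of_mem hω, Set.indicator_of_mem (this.1 hω)]
      · rw [Set.indicator_of_notMem hω, Set.indicator_of_notMem (fun h => hω (this.2 h))]) hgd
  have h6 : ∫ ω, Set.indicator E1 (fun _ => (1 : ℝ)) ω ∂(Pr d) = (Pr d E1).toReal := by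
    rw [integral_indicator hE1m]
    simp [Measure.real]
  rw [← h6]
  exact h5

end Pool.Agent.PB
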