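import Pool.Agent.PB.Outs

/-!
# PB / Mix / InclExcl: `incl_excl` (Mathlib only)
Plan.
* `mixing`: `Contr.contraction` with `l = 𝓝[>] 0`, `w = wK`, `t = tK`, `Good = GoodK`, `a s (A,y) = EW W s A y / √s` for good states (0 for the others, or use the uniform bound
  `EW_le_sqrt`, valid for all `A, y`), `m s = EW W s D0 0 / √s`, `B` from `EW_le_sqrt`; `hmain` = `decomp_lim` (divide inside the sum: `tsum_div_const`);
  `psiA = psi` by `pow_wK`.
* `locmix_ex`: `B` finite. `h_F` := inclusion-exclusion coefficients: `H O = Σ_{F ⊆ B} h F · 1{F ∩ O = ∅}` (Moebius: `h F = Σ_{F ⊆ G ⊆ B} (-1)^{|G \ F|} H' (B \ G)`, where `H' X` is the value of `H`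
  when `O ∩ B = X`; `H O = H' (O ∩ B)`). For a finset `F` of edges: `E[1{F ∩ Oc = ∅} WA W s (S,F0) (Oc ω) y] = Pr{F ∩ Oc = ∅} · EW W s (S, F0 ∪ F) y`: on `{F ∩ Oc ω = ∅}`
  `(S,F0).rem O = (S,F0 ∪ F).rem O`, and `WA W s (S,F0∪F) O y` does not depend on the labels of `F` (independence). Then `mixing` for `(S, F0 ∪ F)`:
  the constant is `Σ_F h F · Pr{F ∩ Oc = ∅} · psi (S, F0 ∪ F) y`.
* `locmix`: `cloc H A y` = that constant: apply `locmix_ex` to `W1` and divide by `EW W1 s D0 0 = Mr ≥ √s / C` (`EW1_eq`, `h5.bounds`): `Tendsto.limUnder_eq`.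
-/

set_option autoImplicit false
open MeasureTheory Filter Topology
open scoped ENNReal BigOperators

namespace Pool.Agent.PB

variable {d : ℕ}

/-- products of indicators -/
theorem incl_excl_fin {α : Type*} [DecidableEq α] (B : Finset α) :
    ∀ H : Finset α → ℝ, ∃ h : Finset α → ℝ, ∀ X : Finset α, X ⊆ B →
      H X = ∑ F ∈ B.powerset, h F * (if Disjoint F X then (1 : ℝ) else 0) := by
  induction B using Finset.induction_on with
  | empty =>
    intro H
    refine ⟨fun _ => H ∅, fun X hX => ?_⟩
    rw [Finset.subset_empty.1 hX]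
    simp
  | @insert a B ha ih =>
    intro H
    obtain ⟨h0, hh0⟩ := ih (fun X => H X)
    obtain ⟨h1, hh1⟩ := ih (fun X => H (insert a X))
    refine ⟨fun F => if a ∈ F then h0 (F.erase a) - h1 (F.erase a) else h1 F, fun X hX => ?_⟩
    have hsum : ∑ F ∈ (insert a B).powerset, (if a ∈ F then h0 (F.erase a) - h1 (F.erase a)
        else h1 F) * (if Disjoint F X then (1 : ℝ) else 0) =
        (∑ F ∈ B.powerset, h1 F * (if Disjoint F X then (1 : ℝ) else 0)) +
        ∑ F ∈ B.powerset, (h0 F - h1 F) * (if Disjoint (insert a F) X then (1 : ℝ) else 0) := by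
      rw [Finset.sum_powerset_insert ha]
      congr 1
      · refine Finset.sum_congr rfl fun F hF => ?_
        have : a ∉ F := fun h => ha (Finset.mem_powerset.1 hF h)
        rw [if_neg this]
      · refine Finset.sum_congr rfl fun F hF => ?_
        have : a ∉ F := fun h => ha (Finset.mem_powerset.1 hF h)
        rw [if_pos (Finset.mem_insert_self a F), Finset.erase_insert this]
    rw [hsum]
    by_cases haX : a ∈ X
    · have hXB : X.erase a ⊆ B := by
        intro x hx
        rcases Finset.mem_insert.1 (hX (Finset.mem_of_mem_erase hx)) with h | h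
        · exact absurd h (Finset.ne_of_mem_erase hx)
        · exact h
      have e1 : H X = H (insert a (X.erase a)) := by rw [Finset.insert_erase haX]
      rw [e1, hh1 _ hXB]
      have e2 : ∑ F ∈ B.powerset, (h0 F - h1 F) *
          (if Disjoint (insert a F) X then (1 : ℝ) else 0) = 0 := by
        refine Finset.sum_eq_zero fun F _ => ?_
        rw [if_neg, mul_zero]
        intro hd
        exact Finset.disjoint_left.1 hd (Finset.mem_insert_self a F) haX
      rw [e2, add_zero]
      refine Finset.sum_congr rfl fun F hF => ?_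
      have haF : a ∉ F := fun h => ha (Finset.mem_powerset.1 hF h)
      have : Disjoint F (X.erase a) ↔ Disjoint F X := by
        rw [Finset.disjoint_left, Finset.disjoint_left]
        constructor
        · intro h x hx hxX
          exact h hx (Finset.mem_erase.2 ⟨fun e => haF (e ▸ hx), hxX⟩)
        · intro h x hx hxX
          exact h hx (Finset.mem_of_mem_erase hxX)
      simp only [this]
    · have hXB : X ⊆ B := by
        intro x hx
        rcases Finset.mem_insert.1 (hX hx) with h | h
        · exact absurd (h ▸ hx) haX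
        · exact h
      rw [hh0 _ hXB, ← Finset.sum_add_distrib]
      refine Finset.sum_congr rfl fun F hF => ?_
      have : Disjoint (insert a F) X ↔ Disjoint F X := by
        rw [Finset.disjoint_insert_left]
        exact ⟨fun h => h.2, fun h => ⟨haX, h⟩⟩
      simp only [this]
      ring

theorem incl_excl (B : Finset (Sym2 (V d))) (H : Set (Sym2 (V d)) → ℝ)
    (hH : ∀ O O' : Set (Sym2 (V d)), O ∩ B = O' ∩ B → H O = H O') :
    ∃ h : Finset (Sym2 (V d)) → ℝ, ∀ O : Set (Sym2 (V d)),
      H O = ∑ F ∈ B.powerset, h F * Set.indicator {O : Set (Sym2 (V d)) | ∀ e ∈ F, e ∉ O}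
        (fun _ => (1 : ℝ)) O := by
  classical
  obtain ⟨h, hh⟩ := incl_excl_fin B (fun X => H (X : Set (Sym2 (V d))))
  refine ⟨h, fun O => ?_⟩
  have e1 : H O = H ((B.filter (fun e => e ∈ O) : Finset (Sym2 (V d))) : Set (Sym2 (V d))) := by
    apply hH
    ext e
    simp only [Set.mem_inter_iff, Finset.coe_filter, Finset.mem_coe, Set.mem_ofPred_eq]
    tauto
  rw [e1, hh _ (Finset.filter_subset _ _)]
  refine Finset.sum_congr rfl fun F hF => ?_
  have hFB := Finset.mem_powerset.1 hF
  congr 1
  by_cases hd : Disjoint F (B.filter (fun e => e ∈ O))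
  · rw [if_pos hd, Set.indicator_of_mem]
    intro e he heO
    exact Finset.disjoint_left.1 hd he (Finset.mem_filter.2 ⟨hFB he, heO⟩)
  · rw [if_neg hd, Set.indicator_of_notMem]
    intro hall
    apply hd
    rw [Finset.disjoint_left]
    intro e he heO
    exact hall e he (Finset.mem_filter.1 heO).2

end Pool.Agent.PB
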