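import Pool.Agent.PB.Mix.Mixing
import Pool.Agent.PB.Mix.EClosed
import Pool.Agent.PB.Mix.InclExcl
import Pool.Agent.PB.Mix.FunW

/-!
# PB / Mix / LocMix: 6.4 (local mixing)
* `locmix_ex`: `H O = Σ_{F ⊆ B} h F · 1{F ∩ O = ∅}` (`incl_excl`), `E_closed` and `mixing` for `(S, F0 ∪ F)`:
  the constant is `Σ_F h F · Pr{F ∩ Oc = ∅} · psi (S, F0 ∪ F) y`.
* `locmix`: `cloc H A y` = that constant: apply `locmix_ex` to `W1` and divide by `EW W1 s D0 0 = Mr ≥ √s / C`.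
-/

set_option autoImplicit false
open MeasureTheory Filter Topology
open scoped ENNReal BigOperators

namespace Pool.Agent.PB

variable {d : ℕ}

private theorem lm_small : ∀ᶠ s : ℝ in 𝓝[>] 0, 0 < s ∧ s ≤ 1 := by
  have h1 : Set.Ioc (0 : ℝ) 1 ∈ 𝓝[>] (0 : ℝ) := Ioc_mem_nhdsGT one_pos
  filter_upwards [h1] with s hs using hs

theorem locmix_ex (hC : Crit d) (h5 : Out5 d) (B : Set (Sym2 (V d)))
    (H : Set (Sym2 (V d)) → ℝ) (hH : LocalF B H) (A : Del (V d)) (y : V d) (hA : A.Finite)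
    (hy : y ∉ A.S) :
    ∃ κ : ℝ, ∀ (W : ℝ → Set (Sym2 (V d)) → V d → ℝ) (c : ℝ), IsLSF W c →
      Tendsto (fun s : ℝ => (EWH H W s A y - κ * EW W s D0 0) / Real.sqrt s)
        (𝓝[>] 0) (𝓝 0) := by
  classical
  obtain ⟨hB, hloc⟩ := hH
  obtain ⟨h, hh⟩ := incl_excl hB.toFinset H (by
    intro O O' hO
    refine hloc O O' ?_
    rw [Set.Finite.coe_toFinset] at hO
    exact hO)
  set PF : Finset (Sym2 (V d)) → ℝ := fun F =>
    (Pr d {ω : Om d | ∀ e ∈ F, e ∉ Oc ω}).toReal with hPF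
  refine ⟨∑ F ∈ hB.toFinset.powerset, h F * PF F * psi (A.addF (F : Set (Sym2 (V d)))) y, ?_⟩
  intro W c hW
  have hm : ∀ F : Finset (Sym2 (V d)), MeasurableSet {ω : Om d | ∀ e ∈ F, e ∉ Oc ω} := by
    intro F
    have : {ω : Om d | ∀ e ∈ F, e ∉ Oc ω} = ⋂ e ∈ F, {ω : Om d | e ∈ Oc ω}ᶜ := by
      ext ω; simp
    rw [this]
    exact F.measurableSet_biInter fun e _ => (opn_MES (pc d) e).compl
  have key : ∀ s : ℝ, 0 < s → s ≤ 1 → EWH H W s A y =
      ∑ F ∈ hB.toFinset.powerset, h F * PF F * EW W s (A.addF (F : Set (Sym2 (V d)))) y := by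
    intro s hs hs1
    have hint := WA_integrable hW hs hs1 A y
    unfold EWH
    have h1 : ∀ ω : Om d, H (Oc ω) * WA W s A (Oc ω) y =
        ∑ F ∈ hB.toFinset.powerset, h F * Set.indicator {ω : Om d | ∀ e ∈ F, e ∉ Oc ω}
          (fun ω => WA W s A (Oc ω) y) ω := by
      intro ω
      rw [hh (Oc ω), Finset.sum_mul]
      refine Finset.sum_congr rfl fun F _ => ?_
      by_cases hF : ∀ e ∈ F, e ∉ Oc ω
      · rw [Set.indicator_of_mem (by exact hF), Set.indicator_of_mem (by exact hF)]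
        ring
      · rw [Set.indicator_of_notMem (by exact hF), Set.indicator_of_notMem (by exact hF)]
        ring
    simp_rw [h1]
    rw [integral_finsetSum _ fun F _ => (hint.indicator (hm F)).const_mul (h F)]
    refine Finset.sum_congr rfl fun F _ => ?_
    rw [integral_const_mul, E_closed A y F hW s hs hs1]
    ring
  have hlim : Tendsto (fun s : ℝ => ∑ F ∈ hB.toFinset.powerset, h F * PF F *
      ((EW W s (A.addF (F : Set (Sym2 (V d)))) y -
        psi (A.addF (F : Set (Sym2 (V d)))) y * EW W s D0 0) / Real.sqrt s))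
      (𝓝[>] 0) (𝓝 (∑ F ∈ hB.toFinset.powerset, h F * PF F * 0)) := by
    refine tendsto_finsetSum _ fun F _ => ?_
    refine (mixing hC h5 hW (A.addF (F : Set (Sym2 (V d)))) y ?_ hy).const_mul _
    exact ⟨hA.1, hA.2.union F.finite_toSet⟩
  simp only [mul_zero, Finset.sum_const_zero] at hlim
  refine hlim.congr' ?_
  filter_upwards [lm_small] with s hs
  rw [key s hs.1 hs.2, Finset.sum_mul, ← Finset.sum_sub_distrib, Finset.sum_div]
  refine Finset.sum_congr rfl fun F _ => ?_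
  ring

/-- the magnetisation is at least `√s / C` -/
private theorem lm_lower (hC : Crit d) (h5 : Out5 d) : ∃ C : ℝ, 1 ≤ C ∧ ∀ s : ℝ, 0 < s → s ≤ 1 →
    Real.sqrt s ≤ C * EW W1 s (D0 : Del (V d)) 0 := by
  obtain ⟨C, hC1, hb⟩ := h5.bounds
  refine ⟨C, hC1, fun s hs hs1 => ?_⟩
  rw [EW1_eq hC h5 s hs 0]
  obtain ⟨-, h2, h3⟩ := hb s hs hs1
  exact h2.trans (mul_le_mul_of_nonneg_left h3 (by linarith))

private theorem lm_ratio (hC : Crit d) (h5 : Out5 d) (f : ℝ → ℝ) (κ : ℝ)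
    (hf : Tendsto (fun s : ℝ => (f s - κ * EW W1 s (D0 : Del (V d)) 0) / Real.sqrt s)
      (𝓝[>] 0) (𝓝 0)) :
    Tendsto (fun s : ℝ => f s / EW W1 s (D0 : Del (V d)) 0) (𝓝[>] 0) (𝓝 κ) := by
  obtain ⟨C, hC1, hlow⟩ := lm_lower hC h5
  have h1 : Tendsto (fun s : ℝ => ((f s - κ * EW W1 s (D0 : Del (V d)) 0) / Real.sqrt s) *
      (Real.sqrt s / EW W1 s (D0 : Del (V d)) 0)) (𝓝[>] 0) (𝓝 0) := by
    refine squeeze_zero_norm' (a := fun s =>
      C * |(f s - κ * EW W1 s (D0 : Del (V d)) 0) / Real.sqrt s|) ?_ ?_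
    · filter_upwards [lm_small] with s hs
      have h0 : 0 < Real.sqrt s := Real.sqrt_pos.2 hs.1
      have h2 := hlow s hs.1 hs.2
      have h3 : 0 < EW W1 s (D0 : Del (V d)) 0 := by
        by_contra hneg
        push Not at hneg
        nlinarith
      rw [norm_mul, Real.norm_eq_abs, Real.norm_eq_abs, mul_comm]
      refine mul_le_mul_of_nonneg_right ?_ (abs_nonneg _)
      rw [abs_of_pos (div_pos h0 h3), div_le_iff₀ h3]
      exact h2
    · have := (hf.abs).const_mul C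
      simpa using this
  have h2 : Tendsto (fun s : ℝ => κ + ((f s - κ * EW W1 s (D0 : Del (V d)) 0) / Real.sqrt s) *
      (Real.sqrt s / EW W1 s (D0 : Del (V d)) 0)) (𝓝[>] 0) (𝓝 (κ + 0)) :=
    tendsto_const_nhds.add h1
  rw [add_zero] at h2
  refine h2.congr' ?_
  filter_upwards [lm_small] with s hs
  have h0 : 0 < Real.sqrt s := Real.sqrt_pos.2 hs.1
  have h2 := hlow s hs.1 hs.2
  have h3 : 0 < EW W1 s (D0 : Del (V d)) 0 := by
    by_contra hneg
    push Not at hneg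
    nlinarith
  field_simp
  ring

theorem locmix (hC : Crit d) (h5 : Out5 d) (B : Set (Sym2 (V d)))
    (H : Set (Sym2 (V d)) → ℝ) (hH : LocalF B H) (A : Del (V d)) (y : V d) (hA : A.Finite)
    (hy : y ∉ A.S) (W : ℝ → Set (Sym2 (V d)) → V d → ℝ) (c : ℝ) (hW : IsLSF W c) :
    Tendsto (fun s : ℝ => (EWH H W s A y - cloc H A y * EW W s D0 0) / Real.sqrt s)
      (𝓝[>] 0) (𝓝 0) := by
  obtain ⟨κ, hκ⟩ := locmix_ex hC h5 B H hH A y hA hy
  obtain ⟨c1, hc1⟩ := isLSF_W1 (d := d)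
  have h1 : cloc H A y = κ :=
    (lm_ratio hC h5 (fun s => EWH H W1 s A y) κ (hκ W1 c1 hc1)).limUnder_eq
  rw [h1]
  exact hκ W c hW

theorem W1_psi (hC : Crit d) (h5 : Out5 d) (A : Del (V d)) (y : V d) (hA : A.Finite)
    (hy : y ∉ A.S) :
    Tendsto (fun s : ℝ => EW W1 s A y / EW W1 s (D0 : Del (V d)) 0) (𝓝[>] 0)
      (𝓝 (psi A y)) := by
  obtain ⟨c1, hc1⟩ := isLSF_W1 (d := d)
  exact lm_ratio hC h5 (fun s => EW W1 s A y) (psi A y) (mixing hC h5 hc1 A y hA hy)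

end Pool.Agent.PB
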