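import Pool.Agent.PB.Mix.DecompLim

/-!
# PB / Mix / Mixing: 6.3 (mixing theorem); the plan of the other files is included
Plan.
* `mixing`: `Contr.contraction` with `l = 𝓝[>] 0`, `w = wK`, `t = tK`, `Good = GoodK`, `a s (A,y) = EW W s A y / √s` for good states (0 for the others, or use the uniform bound
  `EW_le_sqrt`, valid for all `A, y`), `m s = EW W s D0 0 / √s`, `B` from `EW_le_sqrt`; `hmain` = `decomp_lim` (divide inside the sum: `tsum_div_const`);
  `psiA = psi` by `pow_wK`.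
* `locmix_ex`: `B` finite. `h_F` := inclusion-exclusion coefficients: `H O = Σ_{F ⊆ B} h F · 1{F ∩ O = ∅}` (Moebius: `h F = Σ_{F ⊆ G ⊆ B} (-1)^{|G \ F|} H' (B \ G)`, where `H' X` is the value of `H`
  when `O ∩ B = X`; `H O = H' (O ∩ B)`). For a finset `F` of edges: `E[1{F ∩ Oc = ∅} WA W s (S,F0) (Oc ω) y] = Pr{F ∩ Oc = ∅} · EW W s (S, F0 ∪ F) y`: on `{F ∩ Oc ω = ∅}`
  `(S,F0).rem O = (S,F0 ∪ F).rem O`, and `WA W s (S,F0∪F) O y` does not depend on the labels of `F` (independence). Then `mixing` for `(S, F0 ∪ F)`: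
  the constant is `Σ_F h F · Pr{F ∩ Oc = ∅} · psi (S, F0 ∪ F) y`.
* `locmix`: `cloc H A y` = that constant: apply `locmix_ex` to `W1` and divide by `EW W1 s D0 0 = Mr ≥ √s / C` (`EW1_eq`, `h5.bounds`): `Tendsto.limUnder_eq`.
-/

set_option autoImplicit false
open MeasureTheory Filter Topology
open scoped ENNReal BigOperators

namespace Pool.Agent.PB

variable {d : ℕ}

theorem mixing (hC : Crit d) (h5 : Out5 d) {W : ℝ → Set (Sym2 (V d)) → V d → ℝ} {c : ℝ}
    (hW : IsLSF W c) (A : Del (V d)) (y : V d) (hA : A.Finite) (hy : y ∉ A.S) :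
    Tendsto (fun s : ℝ => (EW W s A y - psi A y * EW W s D0 0) / Real.sqrt s)
      (𝓝[>] 0) (𝓝 0) := by
  obtain ⟨C, hC0, hCb⟩ := EW_le_sqrt hC h5 hW
  have hsmall : ∀ᶠ s : ℝ in 𝓝[>] 0, 0 < s ∧ s ≤ 1 := by
    have h1 : Set.Ioc (0 : ℝ) 1 ∈ 𝓝[>] (0 : ℝ) := Ioc_mem_nhdsGT one_pos
    filter_upwards [h1] with s hs using hs
  have key : ∀ s : ℝ, 0 < s → s ≤ 1 → ∀ (A : Del (V d)) (y : V d),
      |EW W s A y / Real.sqrt s| ≤ C := by
    intro s hs hs1 A y
    have h0 : 0 < Real.sqrt s := Real.sqrt_pos.2 hs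
    rw [abs_div, abs_of_pos h0, div_le_iff₀ h0]
    exact hCb s hs hs1 A y
  have hps : Contr.psiA (wK (d := d)) tK (A, y) = psi A y := by
    unfold Contr.psiA psi
    refine tsum_congr fun n => ?_
    rw [pow_wK]
  have hmain : ∀ σ : Del (V d) × V d, GoodK σ →
      Tendsto (fun s : ℝ => EW W s σ.1 σ.2 / Real.sqrt s - EW W s D0 0 / Real.sqrt s +
        ∑' q : Tr d, (wK σ q).toReal * (EW W s (tK q).1 (tK q).2 / Real.sqrt s))
        (𝓝[>] 0) (𝓝 0) := by
    intro σ hσ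
    refine (decomp_lim hC h5 hW σ.1 σ.2 hσ.1 hσ.2).congr fun s => ?_
    have e : (fun q : Tr d => (wK σ q).toReal * (EW W s (tK q).1 (tK q).2 / Real.sqrt s)) =
        fun q : Tr d => (kw σ.1 σ.2 q * EW W s (Del.ofSet (q.2.2 : Set (V d))) q.2.1) /
          Real.sqrt s := by
      funext q
      rw [mul_div_assoc]
      rfl
    rw [e, tsum_div_const, add_div, sub_div]
  have h := Contr.contraction (𝓝[>] (0 : ℝ)) (wK (d := d)) tK GoodK goodK (sumK hC)
    (fun s σ => EW W s σ.1 σ.2 / Real.sqrt s) (fun s => EW W s D0 0 / Real.sqrt s) C hC0.le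
    (by filter_upwards [hsmall] with s hs using fun σ => key s hs.1 hs.2 σ.1 σ.2)
    (by filter_upwards [hsmall] with s hs using key s hs.1 hs.2 D0 0) hmain (A, y) ⟨hA, hy⟩
  refine h.congr fun s => ?_
  rw [hps]
  show EW W s A y / Real.sqrt s - psi A y * (EW W s D0 0 / Real.sqrt s) = _
  rw [sub_div, mul_div_assoc]

end Pool.Agent.PB
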