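import Pool.Agent.PB.Mix.CutA

/-!
# PB / Mix / Pt (deterministic): the pointwise inequality behind 6.3 (e)
`T` = target (later the ghost field). `Q` = a finite set of triples `(u, v, K)` containing all LOCAL ones: `u ∈ bx R1 y`, `K ⊆ bx R2 y`, `v` arbitrary
adjacent; and only local ones: `hQ : (u,v,K) ∈ Q ↔ u ∈ bx R1 y ∧ (K : Set) ⊆ bx R2 y ∧ s(u,v) ∈ E0` (E0 = the lattice edges, `O ⊆ E0`).
The facts from Section 2 are hypotheses here (they are theorems of helper88, `Pool/Agent/PB/G`):
`hdec` = 2.5 (cases), `hex` = 2.5 (converse: KC excludes (i)) and uniqueness, `hD2` = 2.5 (iii) and 2.1, `hns` = 2.6.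
Plan: cases as in 6.3 (e).
 1. `¬ RchT O y T`: then `¬ RchA`, no KC (a KC gives `y → T`: `y..u` in `K`, `e`, `v → T`); LHS `≤ |W s O y| + |WA|`.
 2. `RchT O y T`, `RchA A O y T`: no KC. If `D2`: `|..| ≤ 2c`. Otherwise `hfirst` gives `(u,v)` separating `Vs` from `T` with two edge-disjoint connections from `Vs` to `u`
    in `del1 O e` (or `u ∈ Vs`, and then also `DisjConn (del1 O e) ![(u,u),(u,u)]` with empty sets). `K = Cl (del1 O e) y`. If `u ∉ bx R1 y` or `K ⊄ bx R2 y`: `Nl`. Else
    `IsLSF.cut` and `cutA`: `|W O y - W^A| ≤ 2 c s |K| ≤ 2 c s |bx R2 y|`.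
 3. `RchT`, `¬ RchA`, case (iii): `D2`, no KC.
 4. case (ii): exactly one KC `(u,v,K)`. If `(u,v,K) ∈ Q`: `|W O y - W (K.rem O) v| ≤ c s |K|`, and `|WA| 1{¬ RchA}`. Otherwise `Nl` (2.6) and no term in the sum.
-/

set_option autoImplicit false
open MeasureTheory Filter Topology
open scoped ENNReal BigOperators

namespace Pool.Agent.PB

variable {d : ℕ}

theorem pointwise {W : ℝ → Set (Sym2 (V d)) → V d → ℝ} {c : ℝ} (hW : IsLSF W c) {s : ℝ}
    (hs : 0 < s) (hs1 : s ≤ 1) {O : Set (Sym2 (V d))} {A : Del (V d)} {y : V d}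
    (hO : O ⊆ (lat d).edgeSet) (hy : y ∉ A.S)
    {T : Set (V d)} (hfin : (Cl O y).Finite) (R1 R2 : ℕ) (Q : Finset (Tr d))
    (hQ : ∀ u v K, (u, v, K) ∈ Q ↔
      u ∈ bx R1 y ∧ (K : Set (V d)) ⊆ bx R2 y ∧ s(u, v) ∈ (lat d).edgeSet)
    -- 2.5: case distinction
    (hdec : RchT O y T → RchA A O y T ∨ (∃ u v K, KC O y A T u v K) ∨ D2 O y A T)
    (hconv : ∀ u v K, KC O y A T u v K → RchT O y T ∧ ¬ RchA A O y T)
    (huniq : ∀ u v K u' v' K', KC O y A T u v K → KC O y A T u' v' K' → u = u' ∧ v = v' ∧ K = K')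
    -- first edge separating `Vs` from `T` (2.1), if there are no two edge-disjoint connections
    (hfirst : RchA A O y T → ¬ D2 O y A T → ∃ u v, s(u, v) ∈ O ∧ u ∈ Cl (del1 O s(u, v)) y ∧
      v ∉ Cl (del1 O s(u, v)) y ∧ (∀ a ∈ Vs A y, ¬ RchT (del1 O s(u, v)) a T) ∧
      RchT ((Del.ofSet (Cl (del1 O s(u, v)) y)).rem O) v T ∧
      ∃ a ∈ Vs A y, ∃ a' ∈ Vs A y, DisjConn (del1 O s(u, v)) ![(a, u), (a', u)])
    -- 2.6
    (hns : ∀ u v K, KC O y A T u v K →
      ∃ a ∈ Vs A y, ∃ a' ∈ Vs A y, DisjConn (del1 O s(u, v)) ![(a, u), (a', u)]) :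
    |WA W s D0 O y - WA W s A O y -
        ∑ q ∈ Q, Set.indicator {q : Tr d | KC O y A T q.1 q.2.1 (q.2.2 : Set (V d))}
          (fun q => WA W s (Del.ofSet (q.2.2 : Set (V d))) O q.2.1) q| ≤
      Set.indicator {_x : Unit | ¬ RchT O y T} (fun _ => |WA W s D0 O y|) () +
      Set.indicator {_x : Unit | ¬ RchA A O y T} (fun _ => |WA W s A O y|) () +
      Set.indicator {_x : Unit | D2 O y A T} (fun _ => 2 * c) () +
      Set.indicator {_x : Unit | Nl O y A T R1 R2} (fun _ => 2 * c) () +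
      2 * c * s * ((bx R2 y).ncard : ℝ) := by
  classical
  have hc0 : 0 ≤ c := le_trans zero_le_one hW.one_le
  have hbd : ∀ (O' : Set (Sym2 (V d))) (z : V d), |W s O' z| ≤ c := fun O' z =>
    (hW.bd s hs hs1 O' z).trans
      ((mul_le_mul_of_nonneg_left (min_le_left _ _) hc0).trans_eq (mul_one c))
  have hWAb : ∀ (A' : Del (V d)) (z : V d), |WA W s A' O z| ≤ c := by
    intro A' z
    unfold WA
    split_ifs
    · simpa using hc0
    · exact hbd _ _
  have hD0 : WA W s D0 O y = W s O y := by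
    have h1 : (D0 : Del (V d)).rem O = O := by
      ext e; simp [D0, Del.rem, Del.ofSet]
    have h2 : y ∉ (D0 : Del (V d)).S := by simp [D0, Del.ofSet]
    unfold WA
    rw [if_neg h2, h1]
  have hAy : WA W s A O y = W s (A.rem O) y := by
    unfold WA
    rw [if_neg hy]
  have hbxfin : (bx R2 y).Finite := by
    refine (Set.finite_Icc (fun i => y i - (R2 : ℤ)) (fun i => y i + (R2 : ℤ))).subset ?_
    intro z hz
    refine ⟨fun i => ?_, fun i => ?_⟩
    · have := abs_le.1 (hz i); simp only; linarith [this.1]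
    · have := abs_le.1 (hz i); simp only; linarith [this.2]
  -- nonnegativity of the terms
  have i1 : 0 ≤ Set.indicator {_x : Unit | ¬ RchT O y T} (fun _ => |WA W s D0 O y|) () :=
    Set.indicator_nonneg (fun _ _ => abs_nonneg _) _
  have i2 : 0 ≤ Set.indicator {_x : Unit | ¬ RchA A O y T} (fun _ => |WA W s A O y|) () :=
    Set.indicator_nonneg (fun _ _ => abs_nonneg _) _
  have i3 : 0 ≤ Set.indicator {_x : Unit | D2 O y A T} (fun _ => 2 * c) () :=
    Set.indicator_nonneg (fun _ _ => by positivity) _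
  have i4 : 0 ≤ Set.indicator {_x : Unit | Nl O y A T R1 R2} (fun _ => 2 * c) () :=
    Set.indicator_nonneg (fun _ _ => by positivity) _
  have i5 : 0 ≤ 2 * c * s * ((bx R2 y).ncard : ℝ) := by positivity
  have e1 : ¬ RchT O y T → Set.indicator {_x : Unit | ¬ RchT O y T}
      (fun _ => |WA W s D0 O y|) () = |WA W s D0 O y| := fun h =>
    Set.indicator_of_mem (s := {_x : Unit | ¬ RchT O y T}) h _
  have e2 : ¬ RchA A O y T → Set.indicator {_x : Unit | ¬ RchA A O y T}
      (fun _ => |WA W s A O y|) () = |WA W s A O y| := fun h =>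
    Set.indicator_of_mem (s := {_x : Unit | ¬ RchA A O y T}) h _
  have e3 : D2 O y A T → Set.indicator {_x : Unit | D2 O y A T} (fun _ => 2 * c) () = 2 * c :=
    fun h => Set.indicator_of_mem (s := {_x : Unit | D2 O y A T}) h _
  have e4 : Nl O y A T R1 R2 → Set.indicator {_x : Unit | Nl O y A T R1 R2}
      (fun _ => 2 * c) () = 2 * c := fun h =>
    Set.indicator_of_mem (s := {_x : Unit | Nl O y A T R1 R2}) h _
  have hcard : ∀ K : Set (V d), K ⊆ bx R2 y → c * s * (K.ncard : ℝ) ≤
      c * s * ((bx R2 y).ncard : ℝ) := by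
    intro K hK
    have : (K.ncard : ℝ) ≤ ((bx R2 y).ncard : ℝ) := by
      exact_mod_cast Set.ncard_le_ncard hK hbxfin
    exact mul_le_mul_of_nonneg_left this (by positivity)
  have hnl : ∀ u v : V d, s(u, v) ∈ O → u ∈ Cl (del1 O s(u, v)) y →
      v ∉ Cl (del1 O s(u, v)) y → RchT ((Del.ofSet (Cl (del1 O s(u, v)) y)).rem O) v T →
      (∃ a ∈ Vs A y, ∃ a' ∈ Vs A y, DisjConn (del1 O s(u, v)) ![(a, u), (a', u)]) →
      ¬ (u ∈ bx R1 y ∧ Cl (del1 O s(u, v)) y ⊆ bx R2 y) → Nl O y A T R1 R2 := by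
    intro u v he hu hv hT hdj hn
    refine ⟨u, v, he, hu, hv, hT, ?_⟩
    by_cases h1 : u ∈ bx R1 y
    · exact Or.inr ⟨h1, fun h2 => hn ⟨h1, h2⟩⟩
    · exact Or.inl ⟨h1, hdj⟩
  by_cases hk : ∃ u v K, KC O y A T u v K
  · obtain ⟨u, v, K, hK⟩ := hk
    obtain ⟨hr, hnr⟩ := hconv u v K hK
    have he : s(u, v) ∈ O := hK.1
    have hKe : Cl (del1 O s(u, v)) y = K := hK.2.1
    have hvK : v ∉ K := hK.2.2.1
    have hu : u ∈ Cl (del1 O s(u, v)) y := hK.2.2.2.1.1
    have hKfin : K.Finite := hKe ▸ hfin.subset (Cl_mono (del1_subset _ _) y)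
    have hval : ∀ q ∈ Q, q ≠ (u, v, hKfin.toFinset) →
        Set.indicator {q : Tr d | KC O y A T q.1 q.2.1 (q.2.2 : Set (V d))}
          (fun q => WA W s (Del.ofSet (q.2.2 : Set (V d))) O q.2.1) q = 0 := by
      intro q _ hne
      refine Set.indicator_of_notMem ?_ _
      intro hq
      obtain ⟨h1, h2, h3⟩ := huniq _ _ _ _ _ _ hq hK
      apply hne
      refine Prod.ext h1 (Prod.ext h2 ?_)
      apply Finset.coe_injective
      rw [h3]; simp
    by_cases hin : (u, v, hKfin.toFinset) ∈ Q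
    · have hsum : ∑ q ∈ Q, Set.indicator {q : Tr d | KC O y A T q.1 q.2.1 (q.2.2 : Set (V d))}
          (fun q => WA W s (Del.ofSet (q.2.2 : Set (V d))) O q.2.1) q =
          W s ((Del.ofSet K).rem O) v := by
        rw [Finset.sum_eq_single_of_mem _ hin hval]
        rw [Set.indicator_of_mem (by
          change KC O y A T u v ((hKfin.toFinset : Finset (V d)) : Set (V d))
          simpa using hK)]
        unfold WA
        simp only [Set.Finite.coe_toFinset]
        rw [if_neg (by simpa [Del.ofSet] using hvK)]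
      rw [hsum, hD0]
      have hcut := hW.cut s hs hs1 O y u v he hfin hu (hKe ▸ hvK)
      rw [hKe] at hcut
      have hsub : K ⊆ bx R2 y := by
        have := ((hQ u v hKfin.toFinset).1 hin).2.1
        simpa using this
      have h3 := hcard K hsub
      have h4 : |W s O y - WA W s A O y - W s ((Del.ofSet K).rem O) v| ≤
          |W s O y - W s ((Del.ofSet K).rem O) v| + |WA W s A O y| := by
        have : W s O y - WA W s A O y - W s ((Del.ofSet K).rem O) v =
          (W s O y - W s ((Del.ofSet K).rem O) v) + (- WA W s A O y) := by ring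
        rw [this]
        exact (abs_add_le _ _).trans_eq (by rw [abs_neg])
      have e2' := e2 hnr
      rw [hD0] at i1
      have i6 : 0 ≤ c * s * ((bx R2 y).ncard : ℝ) := by positivity
      have i7 : 2 * c * s * ((bx R2 y).ncard : ℝ) =
        c * s * ((bx R2 y).ncard : ℝ) + c * s * ((bx R2 y).ncard : ℝ) := by ring
      rw [e2', i7]
      linarith
    · have hsum : ∑ q ∈ Q, Set.indicator {q : Tr d | KC O y A T q.1 q.2.1 (q.2.2 : Set (V d))}
          (fun q => WA W s (Del.ofSet (q.2.2 : Set (V d))) O q.2.1) q = 0 := by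
        refine Finset.sum_eq_zero fun q hq => hval q hq ?_
        rintro rfl
        exact hin hq
      have hNl : Nl O y A T R1 R2 := by
        refine hnl u v he hu (hKe ▸ hvK) (hKe ▸ hK.2.2.2.2.2) (hns u v K hK) ?_
        rintro ⟨h1, h2⟩
        apply hin
        rw [hQ]
        refine ⟨h1, ?_, hO he⟩
        have h2' : K ⊆ bx R2 y := hKe ▸ h2
        simpa using h2'
      rw [hsum, sub_zero, e4 hNl, e2 hnr]
      have h5 : |WA W s D0 O y - WA W s A O y| ≤ |WA W s D0 O y| + |WA W s A O y| :=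
        abs_sub _ _
      have h6 := hWAb D0 y
      linarith
  · have hsum : ∑ q ∈ Q, Set.indicator {q : Tr d | KC O y A T q.1 q.2.1 (q.2.2 : Set (V d))}
          (fun q => WA W s (Del.ofSet (q.2.2 : Set (V d))) O q.2.1) q = 0 := by
      refine Finset.sum_eq_zero fun q _ => Set.indicator_of_notMem ?_ _
      intro hq
      exact hk ⟨_, _, _, hq⟩
    rw [hsum, sub_zero]
    have h5 : |WA W s D0 O y - WA W s A O y| ≤ |WA W s D0 O y| + |WA W s A O y| :=
      abs_sub _ _
    have h6 := hWAb D0 y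
    have h7 := hWAb A y
    by_cases hT : RchT O y T
    · by_cases hA : RchA A O y T
      · by_cases hD : D2 O y A T
        · rw [e3 hD]; linarith
        · obtain ⟨u, v, he, hu, hv, hsep, hvT, hdj⟩ := hfirst hA hD
          by_cases hloc : u ∈ bx R1 y ∧ Cl (del1 O s(u, v)) y ⊆ bx R2 y
          · have hcut := hW.cut s hs hs1 O y u v he hfin hu hv
            have hcut2 := cutA hW hs hs1 hfin he hu hv hsep hA
            have h3 := hcard _ hloc.2
            rw [hD0, hAy]
            rw [hD0] at i1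
            rw [hAy] at i2
            have h8 : |W s O y - W s (A.rem O) y| ≤
                |W s O y - W s ((Del.ofSet (Cl (del1 O s(u, v)) y)).rem O) v| +
                |W s (A.rem O) y - W s ((Del.ofSet (Cl (del1 O s(u, v)) y)).rem O) v| := by
              have := abs_sub_le (W s O y)
                (W s ((Del.ofSet (Cl (del1 O s(u, v)) y)).rem O) v) (W s (A.rem O) y)
              rw [abs_sub_comm (W s ((Del.ofSet (Cl (del1 O s(u, v)) y)).rem O) v)] at this
              exact this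
            have i7 : 2 * c * s * ((bx R2 y).ncard : ℝ) =
              c * s * ((bx R2 y).ncard : ℝ) + c * s * ((bx R2 y).ncard : ℝ) := by ring
            rw [i7]
            linarith
          · rw [e4 (hnl u v he hu hv hvT hdj hloc)]
            linarith
      · rcases hdec hT with h | h | h
        · exact absurd h hA
        · exact absurd h hk
        · rw [e3 h]; linarith
    · have hA : ¬ RchA A O y T := by
        rintro ⟨t, ht, htA⟩
        exact hT ⟨t, ht, ClA_subset_Cl A O y htA⟩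
      rw [e1 hT, e2 hA]
      linarith

end Pool.Agent.PB
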